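import Pool.Agent.U62.RB.Hyp

/-!
# Hyperelliptic curves: polynomials in the trace
-/

set_option autoImplicit false
set_option linter.unusedSectionVars false

namespace Pool.Agent.U62.RB

open Finset Filter Topology Polynomial
open Pool.Agent.Y57.FD.HM (tr tr_mod tr_le pol tr_mean)
open Pool.Agent.V11210.G2 (restrict)
open Pool.Agent.Y57.FD.Mom (usp normal)

/-- The expectation of a polynomial in the trace of a random symplectic matrix. -/
noncomputable def Lu (g : ℕ) (ψ : ℝ[X]) : ℝ := ψ.sum fun m a => a * usp g m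

theorem mean_sum {d q : ℕ} {κ : Type*} (s : Finset κ) (F : κ → (Fin d → ℕ) → ℝ) :
    Pool.Agent.TH894.NE.mean d q (fun n => ∑ j ∈ s, F j n) = ∑ j ∈ s, Pool.Agent.TH894.NE.mean d q (F j) := by
  unfold Pool.Agent.TH894.NE.mean
  rw [Finset.sum_comm, Finset.mul_sum]

theorem mean_mul {d q : ℕ} (t : ℝ) (F : (Fin d → ℕ) → ℝ) :
    Pool.Agent.TH894.NE.mean d q (fun n => t * F n) = t * Pool.Agent.TH894.NE.mean d q F := by
  unfold Pool.Agent.TH894.NE.mean
  rw [← Finset.mul_sum]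
  ring

/-- The mean of a polynomial in the trace. -/
theorem tr_poly (g : ℕ) (ψ : ℝ[X]) (hψ : ψ.natDegree ≤ 2 * g + 3) : ∃ C : ℝ, 0 ≤ C ∧ ∀ p : ℕ, p.Prime →
    |Pool.Agent.TH894.NE.mean (2 * g + 1) p (fun n => ψ.eval (tr g p n)) - Lu g ψ| ≤ C / p := by
  classical
  have hch : ∀ m : ℕ, ∃ C : ℝ, 0 ≤ C ∧ (m ≤ 2 * g + 3 → ∀ p : ℕ, p.Prime →
      |Pool.Agent.TH894.NE.mean (2 * g + 1) p (fun n => tr g p n ^ m) - usp g m| ≤ C / p) := by
    intro m
    by_cases hm : m ≤ 2 * g + 3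
    · obtain ⟨C, hC, h⟩ := tr_mean g m hm
      exact ⟨C, hC, fun _ => h⟩
    · exact ⟨0, le_rfl, fun h => absurd h hm⟩
  choose C hC0 hC using hch
  refine ⟨∑ m ∈ ψ.support, |ψ.coeff m| * C m, Finset.sum_nonneg fun m _ => mul_nonneg (abs_nonneg _) (hC0 m), fun p hp => ?_⟩
  have e1 : (fun n : Fin (2 * g + 1) → ℕ => ψ.eval (tr g p n)) = fun n => ∑ m ∈ ψ.support, ψ.coeff m * tr g p n ^ m := by
    funext n
    rw [eval_eq_sum, Polynomial.sum]
  have e2 : Lu g ψ = ∑ m ∈ ψ.support, ψ.coeff m * usp g m := by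
    unfold Lu
    rw [Polynomial.sum]
  rw [e1, mean_sum, e2, ← Finset.sum_sub_distrib, Finset.sum_div]
  refine (Finset.abs_sum_le_sum_abs _ _).trans (Finset.sum_le_sum fun m hm => ?_)
  rw [mean_mul, ← mul_sub, abs_mul, mul_div_assoc]
  exact mul_le_mul_of_nonneg_left (hC m ((le_natDegree_of_mem_supp m hm).trans hψ) p hp) (abs_nonneg _)

open Classical in
/-- The indicator function of good reduction. -/
noncomputable def gd (g p : ℕ) (n : Fin (2 * g + 1) → ℕ) : ℝ :=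
  if h : p.Prime ∧ p ≠ 2 then
    haveI : Fact p.Prime := ⟨h.1⟩
    if (pol p (fun i => (n i : ZMod p))).Separable then 1 else 0
  else 0

theorem gd_01 (g p : ℕ) (n : Fin (2 * g + 1) → ℕ) : gd g p n = 1 ∨ gd g p n = 0 ∧ tr g p n = 0 := by
  unfold gd tr
  by_cases h : p.Prime ∧ p ≠ 2
  · rw [dif_pos h, dif_pos h]
    by_cases h2 : (haveI : Fact p.Prime := ⟨h.1⟩; (pol p (fun i => (n i : ZMod p))).Separable)
    · rw [if_pos h2]
      exact Or.inl rfl
    · rw [if_neg h2, if_neg h2]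
      exact Or.inr ⟨rfl, rfl⟩
  · rw [dif_neg h, dif_neg h]
    exact Or.inr ⟨rfl, rfl⟩

theorem gd_mean (g : ℕ) : ∃ E : ℝ, 0 ≤ E ∧ ∀ p : ℕ, p.Prime →
    |Pool.Agent.TH894.NE.mean (2 * g + 1) p (gd g p) - 1| ≤ E / p := by
  classical
  obtain ⟨E, hE, h⟩ := restrict g 1 0 1 zero_le_one le_rfl
  refine ⟨E, hE, fun p hp => h p hp _ ?_ ?_⟩
  · intro n
    rcases gd_01 g p n with h1 | ⟨h1, _⟩ <;> rw [h1] <;> norm_num
  · intro hpf hp2
    refine ⟨fun _ => 1, fun _ => by norm_num, ?_, ?_, ?_⟩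
    · have hp0 : (0 : ℝ) < p := by exact_mod_cast hp.pos
      rw [Finset.sum_const, Finset.card_univ, Fintype.card_fun, ZMod.card, Fintype.card_fin, nsmul_eq_mul, mul_one]
      push_cast
      rw [div_self (by positivity)]
      simp
    · intro n hn
      unfold gd
      rw [dif_pos ⟨hp, hp2⟩, if_pos hn]
    · intro n hn
      unfold gd
      rw [dif_pos ⟨hp, hp2⟩, if_neg hn]

/-- The mean of a polynomial in the trace over the curves with good reduction. -/
theorem tr_poly_good (g : ℕ) (ψ : ℝ[X]) (hψ : ψ.natDegree ≤ 2 * g + 3) : ∃ C : ℝ, 0 ≤ C ∧ ∀ p : ℕ, p.Prime →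
    |Pool.Agent.TH894.NE.mean (2 * g + 1) p (fun n => gd g p n * ψ.eval (tr g p n)) - Lu g ψ| ≤ C / p := by
  obtain ⟨C, hC, h1⟩ := tr_poly g ψ hψ
  obtain ⟨E, hE, h2⟩ := gd_mean g
  refine ⟨C + |ψ.eval 0| * E, by positivity, fun p hp => ?_⟩
  have e : (fun n : Fin (2 * g + 1) → ℕ => gd g p n * ψ.eval (tr g p n)) = fun n =>
      ∑ j ∈ Finset.range 3, (if j = 0 then ψ.eval (tr g p n) else if j = 1 then ψ.eval 0 * gd g p n else -ψ.eval 0) := by
    funext n
    rw [Finset.sum_range_succ, Finset.sum_range_succ, Finset.sum_range_one]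
    norm_num
    rcases gd_01 g p n with h | ⟨h, h'⟩
    · rw [h]
      ring
    · rw [h, h']
      ring
  have e1 : Pool.Agent.TH894.NE.mean (2 * g + 1) p (fun n => gd g p n * ψ.eval (tr g p n)) =
      Pool.Agent.TH894.NE.mean (2 * g + 1) p (fun n => ψ.eval (tr g p n)) +
      ψ.eval 0 * Pool.Agent.TH894.NE.mean (2 * g + 1) p (gd g p) + -ψ.eval 0 := by
    rw [e, mean_sum, Finset.sum_range_succ, Finset.sum_range_succ, Finset.sum_range_one]
    norm_num
    rw [mean_mul, Pool.Agent.TH894.NE.mean_const _ p hp.pos]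
  rw [e1]
  have h3 := h1 p hp
  have h4 := h2 p hp
  have e2 : Pool.Agent.TH894.NE.mean (2 * g + 1) p (fun n => ψ.eval (tr g p n)) +
      ψ.eval 0 * Pool.Agent.TH894.NE.mean (2 * g + 1) p (gd g p) + -ψ.eval 0 - Lu g ψ =
      (Pool.Agent.TH894.NE.mean (2 * g + 1) p (fun n => ψ.eval (tr g p n)) - Lu g ψ) +
      ψ.eval 0 * (Pool.Agent.TH894.NE.mean (2 * g + 1) p (gd g p) - 1) := by ring
  rw [e2, add_div]
  refine (abs_add_le _ _).trans (add_le_add h3 ?_)
  rw [abs_mul, mul_div_assoc]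
  exact mul_le_mul_of_nonneg_left h4 (abs_nonneg _)

/-- The local functions. -/
noncomputable def FP (g : ℕ) {k : ℕ} (φ : Fin k → ℝ[X]) (i : Fin k) (p : ℕ) (c : Fin (2 * g + 1) → ℤ) : ℝ :=
  gd g p (res p c) * (φ i).eval (tr g p (res p c))

theorem poly_bound (ψ : ℝ[X]) (M : ℝ) {t : ℝ} (ht : |t| ≤ M) : |ψ.eval t| ≤ ∑ m ∈ ψ.support, |ψ.coeff m| * M ^ m := by
  rw [eval_eq_sum, Polynomial.sum]
  refine (Finset.abs_sum_le_sum_abs _ _).trans (Finset.sum_le_sum fun m _ => ?_)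
  rw [abs_mul, abs_pow]
  exact mul_le_mul_of_nonneg_left (pow_le_pow_left₀ (abs_nonneg _) ht m) (abs_nonneg _)

open scoped Classical in
theorem poly_joint (g k : ℕ) (φ : Fin k → ℝ[X]) (hd : ∀ i, (φ i).natDegree ≤ g + 1) (h0 : ∀ i, Lu g (φ i) = 0)
    (h1 : ∀ i j, Lu g (φ i * φ j) = if i = j then 1 else 0) (u : Fin k → ℝ) {δ ε : ℝ} (hδ : 0 < δ) (hε : 0 < ε) :
    ∃ K : ℕ, ∀ (P : Finset ℕ) (w : ℕ → ℝ) (y H : ℕ),
    (∀ p ∈ P, p.Prime ∧ p ≤ y) → K ≤ P.card → (∀ p ∈ P, |w p| ≤ 1) → δ * P.card ≤ ∑ p ∈ P, w p ^ 2 → y ^ K ≤ H →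
    |prop H (fun c : Fin (2 * g + 1) → ℤ => ∀ i, ∑ p ∈ P, w p * FP g φ i p c ≤ u i * √(∑ p ∈ P, w p ^ 2)) -
      ∏ i, (ProbabilityTheory.gaussianReal 0 1).real (Set.Iic (u i))| ≤ ε := by
  choose C1 hC1 hc1 using fun i => tr_poly_good g (φ i) ((hd i).trans (by omega))
  have hdd : ∀ i j, (φ i * φ j).natDegree ≤ 2 * g + 3 := by
    intro i j
    refine natDegree_mul_le.trans ?_
    have := hd i
    have := hd j
    omega
  choose C2 hC2 hc2 using fun i j => tr_poly_good g (φ i * φ j) (hdd i j)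
  set S1 : ℝ := ∑ i, C1 i with hS1
  have hS10 : 0 ≤ S1 := Finset.sum_nonneg fun i _ => hC1 i
  set S2 : ℝ := ∑ i, ∑ j, C2 i j with hS2
  have hS20 : 0 ≤ S2 := Finset.sum_nonneg fun i _ => Finset.sum_nonneg fun j _ => hC2 i j
  have hle1 : ∀ i, C1 i ≤ S1 := fun i => Finset.single_le_sum (f := C1) (fun i _ => hC1 i) (Finset.mem_univ i)
  have hle2 : ∀ i j, C2 i j ≤ S2 := fun i j =>
    (Finset.single_le_sum (f := C2 i) (fun j _ => hC2 i j) (Finset.mem_univ j)).trans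
      (Finset.single_le_sum (f := fun i => ∑ j, C2 i j) (fun i _ => Finset.sum_nonneg fun j _ => hC2 i j) (Finset.mem_univ i))
  set B : ℝ := ∑ i, (∑ m ∈ (φ i).support, |(φ i).coeff m| * (2 * g : ℝ) ^ m) + 1 with hB
  have hB0 : 0 < B := by
    have : 0 ≤ ∑ i, (∑ m ∈ (φ i).support, |(φ i).coeff m| * (2 * g : ℝ) ^ m) :=
      Finset.sum_nonneg fun i _ => Finset.sum_nonneg fun m _ => by positivity
    linarith
  obtain ⟨K, hK⟩ := joint_std (2 * g + 1) k u hδ hε hB0 (C := S1 + S1 ^ 2 + S2 + 1) (by positivity)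
  refine ⟨K, fun P w y H hP hPc hw hws hH => ?_⟩
  have hm : ∀ i, ∀ p ∈ P, |lmean (FP g φ i p) p| ≤ S1 / p := by
    intro i p hp
    have hp0 : (0 : ℝ) < p := by exact_mod_cast (hP p hp).1.pos
    have h2 := hc1 i p (hP p hp).1
    rw [h0 i, sub_zero] at h2
    have e := lmean_res (fun n => gd g p n * (φ i).eval (tr g p n)) p
    unfold FP
    rw [e]
    exact h2.trans (div_le_div_of_nonneg_right (hle1 i) hp0.le)
  refine hK (FP g φ) P w y H hP hPc hw hws ?_ ?_ ?_ ?_ hH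
  · intro i p _ c c' hc
    unfold FP
    rw [res_congr hc]
  · intro i p _ c
    unfold FP
    have h2 := poly_bound (φ i) (2 * g) (tr_le g p (res p c))
    have h3 : ∑ m ∈ (φ i).support, |(φ i).coeff m| * (2 * g : ℝ) ^ m ≤
        ∑ i, (∑ m ∈ (φ i).support, |(φ i).coeff m| * (2 * g : ℝ) ^ m) :=
      Finset.single_le_sum (f := fun i => ∑ m ∈ (φ i).support, |(φ i).coeff m| * (2 * g : ℝ) ^ m)
        (fun i _ => Finset.sum_nonneg fun m _ => by positivity) (Finset.mem_univ i)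
    rcases gd_01 g p (res p c) with h | ⟨h, _⟩
    · rw [h, one_mul]
      linarith
    · rw [h, zero_mul, abs_zero]
      exact hB0.le
  · intro i p hp
    have hp0 : (0 : ℝ) < p := by exact_mod_cast (hP p hp).1.pos
    refine (hm i p hp).trans (div_le_div_of_nonneg_right ?_ hp0.le)
    nlinarith [sq_nonneg S1]
  · intro i j p hp
    have hp0 : (0 : ℝ) < p := by exact_mod_cast (hP p hp).1.pos
    have hp1 : (1 : ℝ) ≤ p := by exact_mod_cast (hP p hp).1.one_lt.le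
    have e : lmean (fun c => FP g φ i p c * FP g φ j p c) p =
        Pool.Agent.TH894.NE.mean (2 * g + 1) p (fun n => gd g p n * (φ i * φ j).eval (tr g p n)) := by
      rw [← lmean_res]
      congr 1
      funext c
      unfold FP
      rw [eval_mul]
      rcases gd_01 g p (res p c) with h | ⟨h, _⟩ <;> rw [h] <;> ring
    have h2 := hc2 i j p (hP p hp).1
    rw [h1 i j] at h2
    unfold lcov
    rw [e]
    have h3 : |lmean (FP g φ i p) p * lmean (FP g φ j p) p| ≤ S1 ^ 2 / p := by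
      rw [abs_mul]
      have h5 : 0 ≤ S1 / p := by positivity
      calc |lmean (FP g φ i p) p| * |lmean (FP g φ j p) p| ≤ S1 / p * (S1 / p) :=
            mul_le_mul (hm i p hp) (hm j p hp) (abs_nonneg _) h5
        _ = S1 ^ 2 / p * (1 / p) := by ring
        _ ≤ S1 ^ 2 / p * 1 := by
          refine mul_le_mul_of_nonneg_left ?_ (by positivity)
          rw [div_le_one hp0]
          exact hp1
        _ = S1 ^ 2 / p := mul_one _
    have h4 : C2 i j / p ≤ S2 / p := div_le_div_of_nonneg_right (hle2 i j) hp0.le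
    have e3 : Pool.Agent.TH894.NE.mean (2 * g + 1) p (fun n => gd g p n * (φ i * φ j).eval (tr g p n)) -
        lmean (FP g φ i p) p * lmean (FP g φ j p) p - (if i = j then 1 else 0) =
        (Pool.Agent.TH894.NE.mean (2 * g + 1) p (fun n => gd g p n * (φ i * φ j).eval (tr g p n)) -
          (if i = j then 1 else 0)) - lmean (FP g φ i p) p * lmean (FP g φ j p) p := by ring
    rw [e3]
    refine (abs_sub _ _).trans ?_
    have h6 : (S1 + S1 ^ 2 + S2 + 1) / (p : ℝ) = S1 / p + S1 ^ 2 / p + S2 / p + 1 / p := by ring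
    rw [h6]
    have h7 : 0 ≤ S1 / (p : ℝ) := by positivity
    have h8 : 0 ≤ 1 / (p : ℝ) := by positivity
    linarith

end Pool.Agent.U62.RB
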