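import Pool.Agent.U62.RB.Joint2

/-!
# The joint normal law for local functions which are orthonormal up to `O(1 / p)`
-/

set_option autoImplicit false
set_option linter.unusedSectionVars false

namespace Pool.Agent.U62.RB

open Finset Filter Topology Pool.Agent.Y722.HS Pool.Agent.X280.BP Pool.Agent.X280.UC
  Pool.Agent.X280.HG Pool.Agent.U62.BM MeasureTheory ProbabilityTheory

theorem lmean_add {n : ℕ} (f g : (Fin n → ℤ) → ℝ) (p : ℕ) :
    lmean (fun c => f c + g c) p = lmean f p + lmean g p := by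
  unfold lmean
  rw [Finset.sum_add_distrib, add_div]

theorem lmean_sub {n : ℕ} (f g : (Fin n → ℤ) → ℝ) (p : ℕ) :
    lmean (fun c => f c - g c) p = lmean f p - lmean g p := by
  unfold lmean
  rw [Finset.sum_sub_distrib, sub_div]

theorem lmean_mul {n : ℕ} (t : ℝ) (f : (Fin n → ℤ) → ℝ) (p : ℕ) :
    lmean (fun c => t * f c) p = t * lmean f p := by
  unfold lmean
  rw [← Finset.mul_sum, mul_div_assoc]

theorem lmean_const {n : ℕ} (t : ℝ) {p : ℕ} (hp : 0 < p) : lmean (fun _ : Fin n → ℤ => t) p = t := by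
  have hN : NeZero p := ⟨hp.ne'⟩
  have h := EM_evF (fun _ (_ : Fin n → ℤ) => t) p
  rw [← h]
  exact EM_const' p t

theorem lcov_mul {n : ℕ} (s t : ℝ) (f g : (Fin n → ℤ) → ℝ) (p : ℕ) :
    lcov (fun c => s * f c) (fun c => t * g c) p = s * t * lcov f g p := by
  unfold lcov
  rw [lmean_mul, lmean_mul]
  have e : (fun c => s * f c * (t * g c)) = fun c => s * t * (f c * g c) := by
    funext c
    ring
  rw [e, lmean_mul]
  ring

theorem log_small (c : ℝ) (hc : 0 < c) : ∃ N : ℕ, ∀ n : ℕ, N ≤ n → 2 + Real.log n ≤ c * √n := by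
  have h1 : (fun x : ℝ => 2 + Real.log x) =o[atTop] fun x : ℝ => x ^ (1 / 2 : ℝ) := by
    refine Asymptotics.IsLittleO.add ?_ (isLittleO_log_rpow_atTop (by norm_num))
    exact Asymptotics.isLittleO_const_left.2 (Or.inr (tendsto_norm_atTop_atTop.comp (tendsto_rpow_atTop (by norm_num))))
  have h2 := (h1.def hc)
  rw [eventually_atTop] at h2
  obtain ⟨a, ha⟩ := h2
  obtain ⟨N, hN⟩ := exists_nat_ge a
  refine ⟨N, fun n hn => ?_⟩
  have h3 := ha (n : ℝ) (hN.trans (by exact_mod_cast hn))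
  rw [← Real.sqrt_eq_rpow, Real.norm_eq_abs, Real.norm_eq_abs, abs_of_nonneg (Real.sqrt_nonneg _)] at h3
  exact (le_abs_self _).trans h3

theorem sum_inv_le' (P : Finset ℕ) (hP : ∀ p ∈ P, p.Prime) {T : ℕ} (hT : 1 ≤ T) :
    ∑ p ∈ P, (1 : ℝ) / p ≤ T + P.card / T := by
  have hT0 : (0 : ℝ) < T := by exact_mod_cast hT
  calc ∑ p ∈ P, (1 : ℝ) / p ≤ ∑ p ∈ P, ((if p < T then (1 : ℝ) else 0) + 1 / T) := by
        refine Finset.sum_le_sum fun p hp => ?_
        have hp1 : (1 : ℝ) ≤ p := by exact_mod_cast (hP p hp).one_lt.le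
        split_ifs with h
        · have h1 : (1 : ℝ) / p ≤ 1 := by
            rw [div_le_one (by linarith)]
            exact hp1
          have h2 : (0 : ℝ) ≤ 1 / T := by positivity
          linarith
        · have h1 : (T : ℝ) ≤ p := by
            push Not at h
            exact_mod_cast h
          rw [zero_add]
          exact one_div_le_one_div_of_le hT0 h1
    _ ≤ T + P.card / T := by
        rw [Finset.sum_add_distrib, Finset.sum_const, nsmul_eq_mul]
        have h1 : ∑ p ∈ P, (if p < T then (1 : ℝ) else 0) ≤ T := by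
          rw [← Finset.sum_filter, Finset.sum_const, nsmul_eq_mul, mul_one]
          have : (P.filter fun p => p < T).card ≤ T := by
            calc (P.filter fun p => p < T).card ≤ (range T).card := by
                  refine Finset.card_le_card fun p hp => ?_
                  rw [Finset.mem_filter] at hp
                  exact Finset.mem_range.2 hp.2
              _ = T := Finset.card_range T
          exact_mod_cast this
        have h2 : (P.card : ℝ) * (1 / T) = P.card / T := by ring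
        linarith

open scoped Classical in
/-- **The joint normal law for systems of local functions which are orthonormal up to `O(1 / p)`.** -/
theorem joint_std (n k : ℕ) (u : Fin k → ℝ) {δ ε B C : ℝ} (hδ : 0 < δ) (hε : 0 < ε) (hB : 0 < B) (hC : 0 < C) :
    ∃ K : ℕ, ∀ (F : Fin k → ℕ → (Fin n → ℤ) → ℝ) (P : Finset ℕ) (w : ℕ → ℝ) (y H : ℕ),
    (∀ p ∈ P, p.Prime ∧ p ≤ y) → K ≤ P.card → (∀ p ∈ P, |w p| ≤ 1) → δ * P.card ≤ ∑ p ∈ P, w p ^ 2 →
    (∀ i, ∀ p ∈ P, PerF (F i p) p) → (∀ i, ∀ p ∈ P, ∀ c, |F i p c| ≤ B) →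
    (∀ i, ∀ p ∈ P, |lmean (F i p) p| ≤ C / p) →
    (∀ i j, ∀ p ∈ P, |lcov (F i p) (F j p) p - if i = j then 1 else 0| ≤ C / p) → y ^ K ≤ H →
    |prop H (fun c => ∀ i, ∑ p ∈ P, w p * F i p c ≤ u i * √(∑ p ∈ P, w p ^ 2)) -
      ∏ i, (gaussianReal 0 1).real (Set.Iic (u i))| ≤ ε := by
  obtain ⟨K, hK⟩ := joint_centre n k u hε
  have hK0 : (0 : ℝ) ≤ K := Nat.cast_nonneg K
  obtain ⟨T, hT⟩ := exists_nat_ge (2 * C * ((K : ℝ) + 1) / δ + 1)
  have hTd : 0 ≤ 2 * C * ((K : ℝ) + 1) / δ := by positivity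
  have hT1 : 1 ≤ T := by
    have : (1 : ℝ) ≤ T := by linarith
    exact_mod_cast this
  have hT0 : (0 : ℝ) < T := by exact_mod_cast hT1
  obtain ⟨N, hN⟩ := log_small (√δ / (C * ((K : ℝ) + 1))) (by positivity)
  obtain ⟨L, hL⟩ := exists_nat_ge (2 * C * ((K : ℝ) + 1) * T / δ + K * B ^ 2 / δ + K + N + 1)
  refine ⟨L, fun F P w y H hP hPc hw hws hper hb hmean hcov hH => ?_⟩
  have hn : (L : ℝ) ≤ P.card := by exact_mod_cast hPc
  have hx1 : 0 ≤ 2 * C * ((K : ℝ) + 1) * T / δ := by positivity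
  have hx2 : 0 ≤ (K : ℝ) * B ^ 2 / δ := by positivity
  have hN0 : (0 : ℝ) ≤ N := Nat.cast_nonneg N
  have hn1 : 2 * C * ((K : ℝ) + 1) * T / δ ≤ P.card := by linarith
  have hn2 : (K : ℝ) * B ^ 2 / δ ≤ P.card := by linarith
  have hn3 : (1 : ℝ) ≤ P.card := by linarith
  have hn4 : N ≤ P.card := by
    have : (N : ℝ) ≤ P.card := by linarith
    exact_mod_cast this
  rw [div_le_iff₀ hδ] at hn1 hn2
  have hPp : ∀ p ∈ P, p.Prime := fun p hp => (hP p hp).1
  set S2 : ℝ := ∑ p ∈ P, w p ^ 2 with hS2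
  have hS2pos : 0 < S2 := lt_of_lt_of_le (by positivity) hws
  have hw1 : ∀ p ∈ P, w p ^ 2 ≤ 1 := by
    intro p hp
    rw [← sq_abs]
    have := hw p hp
    have := abs_nonneg (w p)
    nlinarith
  have hy1 : 1 ≤ y := by
    have h0 : 0 < P.card := by exact_mod_cast (by linarith : (0 : ℝ) < P.card)
    obtain ⟨p, hp⟩ := Finset.card_pos.1 h0
    have := (hP p hp).1.pos
    have := (hP p hp).2
    omega
  set D : JD n k := ⟨fun i p c => w p / B * F i p c, P, S2 / B ^ 2, y, H⟩ with hD
  have hOk : D.Ok K := by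
    refine ⟨hP, ?_, ?_, ?_, ?_, ?_, hy1⟩
    · intro i p hp c c' hc
      change w p / B * F i p c = w p / B * F i p c'
      rw [hper i p hp c c' hc]
    · intro i p hp c
      change |w p / B * F i p c| ≤ 1
      rw [abs_mul, abs_div, abs_of_pos hB, div_mul_eq_mul_div, div_le_one hB]
      have h1 := hw p hp
      have h2 := hb i p hp c
      have h3 := abs_nonneg (w p)
      have h4 := abs_nonneg (F i p c)
      nlinarith
    · change (K : ℝ) ≤ S2 / B ^ 2
      rw [le_div_iff₀ (by positivity)]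
      linarith
    · intro i j
      change |∑ p ∈ P, lcov (fun c => w p / B * F i p c) (fun c => w p / B * F j p c) p -
        if i = j then S2 / B ^ 2 else 0| ≤ S2 / B ^ 2 / (K + 1)
      have e1 : ∑ p ∈ P, lcov (fun c => w p / B * F i p c) (fun c => w p / B * F j p c) p -
          (if i = j then S2 / B ^ 2 else 0) =
          ∑ p ∈ P, w p ^ 2 / B ^ 2 * (lcov (F i p) (F j p) p - if i = j then 1 else 0) := by
        have e2 : (if i = j then S2 / B ^ 2 else 0) = ∑ p ∈ P, w p ^ 2 / B ^ 2 * (if i = j then 1 else 0) := by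
          rw [← Finset.sum_mul, ← Finset.sum_div, ← hS2]
          split_ifs <;> ring
        rw [e2, ← Finset.sum_sub_distrib]
        refine Finset.sum_congr rfl fun p _ => ?_
        rw [lcov_mul]
        ring
      rw [e1]
      have h1 : |∑ p ∈ P, w p ^ 2 / B ^ 2 * (lcov (F i p) (F j p) p - if i = j then 1 else 0)| ≤
          C / B ^ 2 * ∑ p ∈ P, (1 : ℝ) / p := by
        rw [Finset.mul_sum]
        refine (Finset.abs_sum_le_sum_abs _ _).trans (Finset.sum_le_sum fun p hp => ?_)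
        rw [abs_mul, abs_of_nonneg (by positivity : (0 : ℝ) ≤ w p ^ 2 / B ^ 2)]
        calc w p ^ 2 / B ^ 2 * |lcov (F i p) (F j p) p - if i = j then 1 else 0| ≤ 1 / B ^ 2 * (C / p) := by
              refine mul_le_mul ?_ (hcov i j p hp) (abs_nonneg _) (by positivity)
              exact div_le_div_of_nonneg_right (hw1 p hp) (by positivity)
          _ = C / B ^ 2 * (1 / p) := by ring
      refine h1.trans ?_
      have h3 := sum_inv_le' P hPp hT1
      have h4 : C * (T + P.card / T) * ((K : ℝ) + 1) ≤ δ * P.card := by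
        have h5 : C * (P.card / T) * ((K : ℝ) + 1) ≤ δ * P.card / 2 := by
          have h6 : 2 * C * ((K : ℝ) + 1) ≤ T * δ := by
            have h7 : 2 * C * ((K : ℝ) + 1) / δ ≤ T := by linarith
            rwa [div_le_iff₀ hδ] at h7
          have e : C * (P.card / T) * ((K : ℝ) + 1) = (C * (K + 1)) * P.card / T := by ring
          rw [e, div_le_iff₀ hT0]
          have h8 : (0 : ℝ) ≤ P.card := Nat.cast_nonneg _
          nlinarith
        have e2 : C * (T + P.card / T) * ((K : ℝ) + 1) = C * T * (K + 1) + C * (P.card / T) * (K + 1) := by ring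
        rw [e2]
        nlinarith
      have h5 : C / B ^ 2 * ∑ p ∈ P, (1 : ℝ) / p ≤ C / B ^ 2 * (T + P.card / T) :=
        mul_le_mul_of_nonneg_left h3 (by positivity)
      refine h5.trans ?_
      rw [div_div, div_mul_eq_mul_div, div_le_div_iff₀ (by positivity) (by positivity)]
      have h6 : 0 < B ^ 2 := by positivity
      have h7 : C * (T + P.card / T) * ((K : ℝ) + 1) ≤ S2 := h4.trans hws
      calc C * (T + P.card / T) * (B ^ 2 * ((K : ℝ) + 1)) = (C * (T + P.card / T) * (K + 1)) * B ^ 2 := by ring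
        _ ≤ S2 * B ^ 2 := mul_le_mul_of_nonneg_right h7 h6.le
    · change y ^ K ≤ H
      refine (Nat.pow_le_pow_right hy1 ?_).trans hH
      have : (K : ℝ) ≤ L := by linarith
      exact_mod_cast this
  have hsV : √(S2 / B ^ 2) = √S2 / B := by
    rw [Real.sqrt_div hS2pos.le, Real.sqrt_sq hB.le]
  have h1 := hK D hOk (fun _ => 0) (by
    intro i
    change |∑ p ∈ P, lmean (fun c => w p / B * F i p c) p - 0| ≤ √(S2 / B ^ 2) / (K + 1)
    rw [sub_zero, hsV]
    have h2 : |∑ p ∈ P, lmean (fun c => w p / B * F i p c) p| ≤ C / B * ∑ p ∈ P, (1 : ℝ) / p := by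
      rw [Finset.mul_sum]
      refine (Finset.abs_sum_le_sum_abs _ _).trans (Finset.sum_le_sum fun p hp => ?_)
      rw [lmean_mul, abs_mul, abs_div, abs_of_pos hB]
      calc |w p| / B * |lmean (F i p) p| ≤ 1 / B * (C / p) := by
            refine mul_le_mul ?_ (hmean i p hp) (abs_nonneg _) (by positivity)
            exact div_le_div_of_nonneg_right (hw p hp) hB.le
        _ = C / B * (1 / p) := by ring
    refine h2.trans ?_
    have h3 := sum_inv_log P hPp
    have h4 := hN P.card hn4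
    have h5 : √δ * √(P.card : ℝ) ≤ √S2 := by
      rw [← Real.sqrt_mul hδ.le]
      exact Real.sqrt_le_sqrt hws
    have h6 : C / B * ∑ p ∈ P, (1 : ℝ) / p ≤ C / B * (√δ / (C * ((K : ℝ) + 1)) * √(P.card : ℝ)) :=
      mul_le_mul_of_nonneg_left (h3.trans h4) (by positivity)
    refine h6.trans ?_
    have e : C / B * (√δ / (C * ((K : ℝ) + 1)) * √(P.card : ℝ)) = (√δ * √(P.card : ℝ)) / B / (K + 1) := by
      field_simp
    rw [e]
    gcongr)
  have e : (fun c : Fin n → ℤ => ∀ i, ∑ p ∈ P, w p * F i p c ≤ u i * √S2) =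
      (fun c => ∀ i, ∑ p ∈ D.P, D.F i p c ≤ (fun _ : Fin k => (0 : ℝ)) i + u i * √D.V) := by
    funext c
    refine propext (forall_congr' fun i => ?_)
    change _ ↔ ∑ p ∈ P, w p / B * F i p c ≤ 0 + u i * √(S2 / B ^ 2)
    have e2 : ∑ p ∈ P, w p / B * F i p c = (∑ p ∈ P, w p * F i p c) / B := by
      rw [Finset.sum_div]
      exact Finset.sum_congr rfl fun p _ => by ring
    rw [e2, hsV, zero_add, mul_div_assoc']
    exact (div_le_div_iff_of_pos_right hB).symm
  rw [e]
  exact h1

end Pool.Agent.U62.RB
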