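import Pool.Agent.U62.RB.Joint

/-!
# The joint normal law with perturbations
-/

set_option autoImplicit false
set_option linter.unusedSectionVars false

namespace Pool.Agent.U62.RB

open Finset Filter Topology Pool.Agent.Y722.HS Pool.Agent.X280.BP Pool.Agent.X280.UC
  Pool.Agent.X280.HG Pool.Agent.U62.BM MeasureTheory ProbabilityTheory

/-- `Q` is near to the normalised vector. -/
def Near {n k : ℕ} (D : JD n k) (K : ℕ) (Q : (Fin n → ℤ) → Fin k → ℝ) : Prop :=
  ∀ i, EB D.H (far (fun c => Q c i) (fun c => D.X c i) (1 / ((K : ℝ) + 1))) ≤ 1 / ((K : ℝ) + 1)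

theorem Near.mono {n k : ℕ} {D : JD n k} {K L : ℕ} {Q : (Fin n → ℤ) → Fin k → ℝ} (h : Near D L Q) (hKL : K ≤ L) :
    Near D K Q := by
  intro i
  have h1 : 1 / ((L : ℝ) + 1) ≤ 1 / ((K : ℝ) + 1) := by
    have : (K : ℝ) ≤ L := by exact_mod_cast hKL
    exact one_div_le_one_div_of_le (by positivity) (by linarith)
  exact (Pool.Agent.X280.BP.EB_mono D.H _ _ fun c => far_mono _ _ h1 c).trans ((h i).trans h1)

theorem JD.Ok.mono {n k : ℕ} {D : JD n k} {K L : ℕ} (h : D.Ok L) (hKL : K ≤ L) : D.Ok K := by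
  have h1 : (K : ℝ) ≤ L := by exact_mod_cast hKL
  have hV : 0 ≤ D.V := (Nat.cast_nonneg L).trans h.large
  refine ⟨h.prime, h.per, h.bound, h1.trans h.large, fun i j => (h.cov i j).trans ?_,
    (Nat.pow_le_pow_right h.ypos hKL).trans h.high, h.ypos⟩
  exact div_le_div_of_nonneg_left hV (by positivity) (by linarith)

theorem exp_dist (a b : ℝ) : ‖Complex.exp ((a : ℂ) * Complex.I) - Complex.exp ((b : ℂ) * Complex.I)‖ ≤ |a - b| := by
  have e : Complex.exp ((a : ℂ) * Complex.I) - Complex.exp ((b : ℂ) * Complex.I) =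
      Complex.exp ((b : ℂ) * Complex.I) * (Complex.exp (((a - b : ℝ) : ℂ) * Complex.I) - 1) := by
    rw [mul_sub, mul_one, ← Complex.exp_add]
    congr 2
    push_cast
    ring
  rw [e, norm_mul, Complex.norm_exp_ofReal_mul_I, one_mul]
  have h := Real.norm_exp_I_mul_ofReal_sub_one_le (x := a - b)
  rw [mul_comm Complex.I] at h
  rwa [Real.norm_eq_abs] at h

theorem EB_add2 {n : ℕ} (H : ℕ) (f g : (Fin n → ℤ) → ℝ) : EB H (fun c => f c + g c) = EB H f + EB H g := by
  unfold EB
  rw [Finset.sum_add_distrib, add_div]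

theorem char_near (n k : ℕ) (w : Fin k → ℝ) {ε : ℝ} (hε : 0 < ε) : ∃ K : ℕ, ∀ D : JD n k, D.Ok K →
    ∀ Q : (Fin n → ℤ) → Fin k → ℝ, Near D K Q →
    ‖EBc D.H (fun c => Complex.exp ((∑ i, w i * Q c i : ℝ) * Complex.I)) -
        (Real.exp (-((∑ i, w i ^ 2) / 2)) : ℝ)‖ ≤ ε := by
  obtain ⟨K0, hK0⟩ := char_joint n k w (half_pos hε)
  set A : ℝ := ∑ i, |w i| with hA
  have hA0 : 0 ≤ A := Finset.sum_nonneg fun i _ => abs_nonneg _
  obtain ⟨L, hL⟩ := exists_nat_ge ((A + 2 * k) * (2 / ε))
  refine ⟨K0 + L, fun D hD Q hQ => ?_⟩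
  have h1 := hK0 D (hD.mono (by omega))
  set N : ℝ := ((K0 + L : ℕ) : ℝ) + 1 with hN
  have hN0 : 0 < N := by positivity
  have hNL : (A + 2 * k) * (2 / ε) ≤ N := by
    rw [hN]
    push_cast
    have : (0 : ℝ) ≤ K0 := Nat.cast_nonneg K0
    linarith
  have h2 : ‖EBc D.H (fun c => Complex.exp ((∑ i, w i * Q c i : ℝ) * Complex.I)) -
      EBc D.H (fun c => Complex.exp ((∑ i, w i * D.X c i : ℝ) * Complex.I))‖ ≤ (A + 2 * k) / N := by
    rw [← EBc_sub]
    have h3 : ∀ c : Fin n → ℤ, ‖Complex.exp ((∑ i, w i * Q c i : ℝ) * Complex.I) -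
        Complex.exp ((∑ i, w i * D.X c i : ℝ) * Complex.I)‖ ≤
        A / N + 2 * ∑ i, far (fun c => Q c i) (fun c => D.X c i) (1 / N) c := by
      intro c
      have hs0 : 0 ≤ ∑ i, far (fun c => Q c i) (fun c => D.X c i) (1 / N) c :=
        Finset.sum_nonneg fun i _ => far_nonneg _ _ _ _
      by_cases hall : ∀ i, |Q c i - D.X c i| ≤ 1 / N
      · refine (exp_dist _ _).trans ?_
        rw [← Finset.sum_sub_distrib]
        have h4 : |∑ i, (w i * Q c i - w i * D.X c i)| ≤ A / N := by
          rw [hA, Finset.sum_div]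
          refine (Finset.abs_sum_le_sum_abs _ _).trans (Finset.sum_le_sum fun i _ => ?_)
          rw [← mul_sub, abs_mul]
          calc |w i| * |Q c i - D.X c i| ≤ |w i| * (1 / N) := mul_le_mul_of_nonneg_left (hall i) (abs_nonneg _)
            _ = |w i| / N := by ring
        linarith
      · push Not at hall
        obtain ⟨i, hi⟩ := hall
        have h5 : far (fun c => Q c i) (fun c => D.X c i) (1 / N) c = 1 := by
          unfold far
          rw [if_neg (not_le.2 hi)]
        have h6 : 1 ≤ ∑ i, far (fun c => Q c i) (fun c => D.X c i) (1 / N) c := by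
          exact h5.symm.le.trans (Finset.single_le_sum (f := fun i => far (fun c => Q c i) (fun c => D.X c i) (1 / N) c)
            (fun i _ => far_nonneg _ _ _ _) (Finset.mem_univ i))
        have h7 : ‖Complex.exp ((∑ i, w i * Q c i : ℝ) * Complex.I) -
            Complex.exp ((∑ i, w i * D.X c i : ℝ) * Complex.I)‖ ≤ 2 := by
          refine (norm_sub_le _ _).trans ?_
          rw [Complex.norm_exp_ofReal_mul_I, Complex.norm_exp_ofReal_mul_I]
          norm_num
        have h8 : 0 ≤ A / N := by positivity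
        linarith
    refine (norm_EBc_le D.H _ _ h3).trans ?_
    rw [EB_add2, Pool.Agent.X280.BP.EB_const, EB_mul_left, Pool.Agent.X280.BP.EB_sum]
    have h4 : ∑ i, EB D.H (fun c => far (fun c => Q c i) (fun c => D.X c i) (1 / N) c) ≤ k * (1 / N) := by
      calc ∑ i, EB D.H (fun c => far (fun c => Q c i) (fun c => D.X c i) (1 / N) c) ≤ ∑ _i : Fin k, 1 / N :=
            Finset.sum_le_sum fun i _ => hQ i
        _ = k * (1 / N) := by rw [Finset.sum_const, nsmul_eq_mul, Finset.card_univ, Fintype.card_fin]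
    have e : (A + 2 * k) / N = A / N + 2 * (k * (1 / N)) := by ring
    rw [e]
    linarith
  have h3 : (A + 2 * k) / N ≤ ε / 2 := by
    rw [div_le_iff₀ hN0]
    have h4 : (A + 2 * k) * (2 / ε) * (ε / 2) ≤ N * (ε / 2) := mul_le_mul_of_nonneg_right hNL (by positivity)
    have e : (A + 2 * k) * (2 / ε) * (ε / 2) = A + 2 * k := by field_simp
    rw [e] at h4
    linarith
  have e : EBc D.H (fun c => Complex.exp ((∑ i, w i * Q c i : ℝ) * Complex.I)) -
        (Real.exp (-((∑ i, w i ^ 2) / 2)) : ℝ) =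
      (EBc D.H (fun c => Complex.exp ((∑ i, w i * Q c i : ℝ) * Complex.I)) -
      EBc D.H (fun c => Complex.exp ((∑ i, w i * D.X c i : ℝ) * Complex.I))) +
      (EBc D.H (fun c => Complex.exp ((∑ i, w i * D.X c i : ℝ) * Complex.I)) -
        (Real.exp (-((∑ i, w i ^ 2) / 2)) : ℝ)) := by ring
  rw [e]
  refine (norm_add_le _ _).trans ?_
  linarith

/-- **The joint normal law**, with perturbations. -/
theorem joint_near (n k : ℕ) (S : Set (Fin k → ℝ)) (hS : MeasurableSet S) (hS0 : nor k (frontier S) = 0)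
    {ε : ℝ} (hε : 0 < ε) : ∃ K : ℕ, ∀ D : JD n k, D.Ok K → ∀ Q : (Fin n → ℤ) → Fin k → ℝ, Near D K Q →
    |(lawE D.H Q).real S - (nor k).real S| ≤ ε := by
  by_contra hcon
  push Not at hcon
  choose Ds h1 Qs h2 h3 using hcon
  have h4 := law_seq Qs (fun j => (Ds j).H) (fun w e he => by
    obtain ⟨K, hK⟩ := char_near n k w he
    filter_upwards [eventually_ge_atTop K] with j hj
    exact hK (Ds j) ((h1 j).mono hj) (Qs j) ((h2 j).mono hj)) S hS hS0
  rw [Metric.tendsto_atTop] at h4
  obtain ⟨N, hN⟩ := h4 ε hε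
  have h5 := hN N le_rfl
  rw [Real.dist_eq] at h5
  exact absurd h5 (not_lt.2 (h3 N).le)

open scoped Classical in
/-- **The joint normal law**, for the distribution functions, with other centres and additional terms. -/
theorem joint_centre (n k : ℕ) (u : Fin k → ℝ) {ε : ℝ} (hε : 0 < ε) : ∃ K : ℕ, ∀ D : JD n k, D.Ok K →
    ∀ m : Fin k → ℝ, (∀ i, |∑ p ∈ D.P, lmean (D.F i p) p - m i| ≤ √D.V / (K + 1)) →
    |prop D.H (fun c => ∀ i, ∑ p ∈ D.P, D.F i p c ≤ m i + u i * √D.V) -
      ∏ i, (gaussianReal 0 1).real (Set.Iic (u i))| ≤ ε := by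
  obtain ⟨K, hK⟩ := joint_near n k (orth u) (orth_closed u).measurableSet (orth_frontier u) hε
  refine ⟨K + 1, fun D hD m hm => ?_⟩
  have hV : 0 < D.V := by
    have := hD.large
    push_cast at this
    have h0 : (0 : ℝ) ≤ K := Nat.cast_nonneg K
    linarith
  have hsV : 0 < √D.V := Real.sqrt_pos.2 hV
  set Q : (Fin n → ℤ) → Fin k → ℝ := fun c i => (∑ p ∈ D.P, D.F i p c - m i) / √D.V with hQ
  have hnear : Near D K Q := by
    intro i
    have e : far (fun c => Q c i) (fun c => D.X c i) (1 / ((K : ℝ) + 1)) = fun _ : Fin n → ℤ => (0 : ℝ) := by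
      funext c
      unfold far
      rw [if_pos]
      rw [hQ]
      unfold JD.X
      dsimp only
      rw [← sub_div, abs_div, abs_of_pos hsV, div_le_div_iff₀ hsV (by positivity)]
      have h1 := hm i
      rw [le_div_iff₀ (by positivity)] at h1
      push_cast at h1
      have e2 : ∑ p ∈ D.P, D.F i p c - m i - (∑ p ∈ D.P, D.F i p c - ∑ p ∈ D.P, lmean (D.F i p) p) =
          ∑ p ∈ D.P, lmean (D.F i p) p - m i := by ring
      rw [e2]
      have h2 := abs_nonneg (∑ p ∈ D.P, lmean (D.F i p) p - m i)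
      nlinarith
    rw [e, Pool.Agent.X280.BP.EB_const]
    positivity
  have h := hK D (hD.mono (by omega)) Q hnear
  rw [nor_orth] at h
  refine le_trans (le_of_eq ?_) h
  congr 2
  rw [measureReal_def, lawE_apply _ _ _ (orth_closed u).measurableSet, ENNReal.toReal_ofReal (by positivity)]
  rw [prop_eq]
  unfold EB
  congr 1
  dsimp only
  have key : ∀ c, (∀ i, ∑ p ∈ D.P, D.F i p c ≤ m i + u i * √D.V) ↔ Q c ∈ orth u := by
    intro c
    unfold orth
    rw [Set.mem_univ_pi]
    refine forall_congr' fun i => ?_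
    rw [Set.mem_Iic, hQ]
    dsimp only
    rw [div_le_iff₀ hsV]
    constructor
    · intro h; linarith
    · intro h; linarith
  refine (Finset.sum_congr rfl fun c _ => ?_).trans (Finset.sum_boole (fun c => Q c ∈ orth u) _)
  by_cases hc : Q c ∈ orth u
  · rw [if_pos hc, if_pos ((key c).2 hc)]
  · rw [if_neg hc, if_neg fun h' => hc ((key c).1 h')]

/-- The sum of the reciprocals of the members of a set of primes is small. -/
theorem sum_inv_log (P : Finset ℕ) (hP : ∀ p ∈ P, p.Prime) : ∑ p ∈ P, (1 : ℝ) / p ≤ 2 + Real.log P.card := by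
  rcases Nat.eq_zero_or_pos P.card with h0 | h0
  · rw [Finset.card_eq_zero] at h0
    rw [h0]
    simp
  · have hc : (0 : ℝ) < P.card := by exact_mod_cast h0
    have h1 : ∑ p ∈ P, (1 : ℝ) / p ≤ ∑ p ∈ P.filter (fun p => p ≤ P.card), (1 : ℝ) / p + 1 := by
      rw [← Finset.sum_filter_add_sum_filter_not P (fun p => p ≤ P.card)]
      refine add_le_add le_rfl ?_
      calc ∑ p ∈ P.filter (fun p => ¬ p ≤ P.card), (1 : ℝ) / p ≤ ∑ _p ∈ P.filter (fun p => ¬ p ≤ P.card), 1 / (P.card : ℝ) := by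
            refine Finset.sum_le_sum fun p hp => ?_
            rw [Finset.mem_filter] at hp
            have : (P.card : ℝ) ≤ p := by
              have := hp.2
              push Not at this
              exact_mod_cast this.le
            exact one_div_le_one_div_of_le hc this
        _ ≤ ∑ _p ∈ P, 1 / (P.card : ℝ) :=
            Finset.sum_le_sum_of_subset_of_nonneg (Finset.filter_subset _ _) fun _ _ _ => by positivity
        _ = 1 := by
            rw [Finset.sum_const, nsmul_eq_mul]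
            field_simp
    have h2 : ∑ p ∈ P.filter (fun p => p ≤ P.card), (1 : ℝ) / p ≤ ∑ n ∈ Finset.Icc 1 P.card, (1 : ℝ) / n := by
      refine Finset.sum_le_sum_of_subset_of_nonneg ?_ fun _ _ _ => by positivity
      intro p hp
      rw [Finset.mem_filter] at hp
      rw [Finset.mem_Icc]
      exact ⟨(hP p hp.1).pos, hp.2⟩
    have h3 : ∑ n ∈ Finset.Icc 1 P.card, (1 : ℝ) / n ≤ 1 + Real.log P.card := by
      have h4 := harmonic_le_one_add_log P.card
      rw [harmonic_eq_sum_Icc] at h4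
      push_cast at h4
      simpa [one_div] using h4
    linarith

end Pool.Agent.U62.RB
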