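import Pool.Agent.U62.RB.Per
import Pool.Agent.H262R2.UK.Fin

/-!
# Primes modulo which random integers generate a subgroup of small index
-/

set_option autoImplicit false
set_option linter.unusedSectionVars false

namespace Pool.Agent.U62.RB

open Finset Filter Topology

/-- The index of the subgroup of the group of units modulo `q` generated by the classes of the `c j`. -/
noncomputable def idx {r : ℕ} (c : Fin r → ℤ) (q : ℕ) : ℕ :=
  (Subgroup.closure {u : (ZMod q)ˣ | ∃ j, (u : ZMod q) = ((c j : ℤ) : ZMod q)}).index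

/-- All `c j` are units modulo `q`, and the index of the subgroup generated by them divides `k`. -/
def InS {r : ℕ} (k q : ℕ) (c : Fin r → ℤ) : Prop := (∀ j, ¬ (q : ℤ) ∣ c j) ∧ idx c q ∣ k

theorem InS_per {r : ℕ} (k q : ℕ) : Per (InS (r := r) k q) q := by
  intro c c' h hc
  have e : ∀ j, ((c j : ℤ) : ZMod q) = ((c' j : ℤ) : ZMod q) := by
    intro j
    rw [← sub_eq_zero, ← Int.cast_sub, ZMod.intCast_zmod_eq_zero_iff_dvd]
    exact h j
  unfold InS idx at hc ⊢
  simp only [← ZMod.intCast_zmod_eq_zero_iff_dvd, e] at hc ⊢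
  exact hc

theorem card_units (q : ℕ) (hq : q.Prime) : Nat.card (ZMod q)ˣ = q - 1 := by
  have : Fact q.Prime := ⟨hq⟩
  rw [Nat.card_eq_fintype_card, ZMod.card_units_eq_totient, Nat.totient_prime hq]

open scoped Classical in
/-- The least residues of the elements of a set of units. -/
noncomputable def res (q : ℕ) (S : Set (ZMod q)ˣ) : Finset ℕ :=
  (range q).filter fun t => ∃ u ∈ S, (u : ZMod q) = (t : ZMod q)

theorem card_res (q : ℕ) (hq : q.Prime) (S : Set (ZMod q)ˣ) : (res q S).card = S.ncard := by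
  classical
  have : Fact q.Prime := ⟨hq⟩
  rw [← Set.ncard_coe_finset]
  symm
  refine Set.ncard_congr (fun u _ => (u : ZMod q).val) ?_ ?_ ?_
  · intro u hu
    unfold res
    simp only [Finset.coe_filter, Finset.mem_range, Set.mem_ofPred_eq]
    exact ⟨ZMod.val_lt _, u, hu, (ZMod.natCast_zmod_val _).symm⟩
  · intro u v _ _ h
    exact Units.ext (ZMod.val_injective q h)
  · intro t ht
    unfold res at ht
    simp only [Finset.coe_filter, Finset.mem_range, Set.mem_ofPred_eq] at ht
    obtain ⟨h1, u, hu, h2⟩ := ht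
    exact ⟨u, hu, by rw [h2, ZMod.val_natCast_of_lt h1]⟩

theorem res_unit {q : ℕ} (hq : q.Prime) {S : Set (ZMod q)ˣ} {t : ℕ} (ht : t ∈ res q S) :
    ¬ (q : ℤ) ∣ (t : ℤ) := by
  classical
  have : Fact q.Prime := ⟨hq⟩
  unfold res at ht
  simp only [Finset.mem_filter] at ht
  obtain ⟨_, u, _, h⟩ := ht
  rw [← ZMod.intCast_zmod_eq_zero_iff_dvd]
  push_cast
  rw [← h]
  exact u.ne_zero

theorem card_gen (q : ℕ) (hq : q.Prime) :
    {u : (ZMod q)ˣ | orderOf u = q - 1}.ncard = Nat.totient (q - 1) := by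
  classical
  have : Fact q.Prime := ⟨hq⟩
  have h1 : Fintype.card (ZMod q)ˣ = q - 1 := by
    rw [← Nat.card_eq_fintype_card]
    exact card_units q hq
  have h := IsCyclic.card_orderOf_eq_totient (α := (ZMod q)ˣ) (d := q - 1) (by rw [h1])
  rw [← h, ← Set.ncard_coe_finset]
  congr 1
  ext u
  simp

theorem card_pow (q m : ℕ) (hq : q.Prime) (hm : m ∣ q - 1) :
    ((powMonoidHom m : (ZMod q)ˣ →* (ZMod q)ˣ).range : Set (ZMod q)ˣ).ncard * m = q - 1 := by
  classical
  have : Fact q.Prime := ⟨hq⟩
  have h1 := IsCyclic.index_powMonoidHom_range (G := (ZMod q)ˣ) m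
  rw [card_units q hq, Nat.gcd_eq_right hm] at h1
  have h2 := Subgroup.card_mul_index (powMonoidHom m : (ZMod q)ˣ →* (ZMod q)ˣ).range
  rw [h1, card_units q hq] at h2
  rw [← h2]
  congr 1

theorem dens_lower {r : ℕ} (k q : ℕ) (hq : q.Prime) (hr : 1 ≤ r) :
    (1 / 2 : ℝ) ^ r * ((Nat.totient (q - 1) : ℝ) / q) ≤ dens (InS (r := r) k q) q := by
  classical
  have hF : Fact q.Prime := ⟨hq⟩
  have hq0 : (0 : ℝ) < q := by exact_mod_cast hq.pos
  have hq2 : (2 : ℝ) ≤ q := by exact_mod_cast hq.two_le
  set j0 : Fin r := ⟨0, hr⟩ with hj0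
  set G : Finset ℕ := res q {u : (ZMod q)ˣ | orderOf u = q - 1} with hG
  have hGc : G.card = Nat.totient (q - 1) := by rw [hG, card_res q hq, card_gen q hq]
  set S : Fin r → Finset ℕ := fun j => if j = j0 then G else Ico 1 q with hS
  have hsub : Fintype.piFinset S ⊆ (Fintype.piFinset fun _ : Fin r => range q).filter
      fun t => InS k q fun l => (t l : ℤ) := by
    intro t ht
    rw [Fintype.mem_piFinset] at ht
    rw [Finset.mem_filter, Fintype.mem_piFinset]
    have h0 : t j0 ∈ G := by
      have := ht j0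
      rw [hS] at this
      simpa using this
    have hr : ∀ j, t j < q ∧ ¬ (q : ℤ) ∣ (t j : ℤ) := by
      intro j
      have h1 := ht j
      rw [hS] at h1
      dsimp only at h1
      split_ifs at h1 with h2
      · refine ⟨?_, res_unit hq h1⟩
        rw [hG] at h1
        unfold res at h1
        simp only [Finset.mem_filter, Finset.mem_range] at h1
        exact h1.1
      · rw [Finset.mem_Ico] at h1
        refine ⟨h1.2, fun h3 => ?_⟩
        have h4 := Int.le_of_dvd (by exact_mod_cast h1.1) h3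
        have : q ≤ t j := by exact_mod_cast h4
        omega
    refine ⟨fun j => Finset.mem_range.2 (hr j).1, fun j => (hr j).2, ?_⟩
    rw [hG] at h0
    unfold res at h0
    simp only [Finset.mem_filter] at h0
    obtain ⟨_, u, hu, hut⟩ := h0
    have h5 : u ∈ Subgroup.closure {u : (ZMod q)ˣ | ∃ j, (u : ZMod q) = (((t j : ℤ) : ℤ) : ZMod q)} :=
      Subgroup.subset_closure ⟨j0, by rw [hut]; push_cast; rfl⟩
    have h6 : Subgroup.zpowers u = ⊤ := by
      apply Subgroup.eq_top_of_card_eq
      rw [Nat.card_zpowers, card_units q hq]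
      exact hu
    have h7 : Subgroup.closure {u : (ZMod q)ˣ | ∃ j, (u : ZMod q) = (((t j : ℤ) : ℤ) : ZMod q)} = ⊤ := by
      rw [eq_top_iff, ← h6, Subgroup.zpowers_le]
      exact h5
    unfold idx
    rw [h7, Subgroup.index_top]
    exact one_dvd k
  have hcard := Finset.card_le_card hsub
  rw [Fintype.card_piFinset] at hcard
  unfold dens
  rw [le_div_iff₀ (by positivity)]
  refine le_trans ?_ (by exact_mod_cast hcard : ((∏ j, (S j).card : ℕ) : ℝ) ≤ _)
  push_cast
  have e1 : (1 / 2 : ℝ) ^ r * ((Nat.totient (q - 1) : ℝ) / q) * (q : ℝ) ^ r ≤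
      ∏ j : Fin r, (if j = j0 then (Nat.totient (q - 1) : ℝ) else (q : ℝ) / 2) := by
    have hb : (q : ℝ) / 2 ≠ 0 := by positivity
    have e2 : ∀ j ∈ (Finset.univ : Finset (Fin r)),
        (if j = j0 then (Nat.totient (q - 1) : ℝ) else (q : ℝ) / 2) =
          ((q : ℝ) / 2) * (if j = j0 then (Nat.totient (q - 1) : ℝ) / ((q : ℝ) / 2) else 1) := by
      intro j _
      split_ifs
      · field_simp
      · ring
    rw [Finset.prod_congr rfl e2, Finset.prod_mul_distrib, Finset.prod_const, Finset.card_univ,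
      Fintype.card_fin, Finset.prod_ite_eq' Finset.univ j0, if_pos (Finset.mem_univ _)]
    have e3 : (1 / 2 : ℝ) ^ r * ((Nat.totient (q - 1) : ℝ) / q) * (q : ℝ) ^ r =
        ((q : ℝ) / 2) ^ r * ((Nat.totient (q - 1) : ℝ) / q) := by
      rw [div_pow, div_pow, one_pow]
      ring
    rw [e3]
    refine mul_le_mul_of_nonneg_left ?_ (by positivity)
    rw [div_div_eq_mul_div]
    gcongr
    have : (0 : ℝ) ≤ Nat.totient (q - 1) := Nat.cast_nonneg _
    linarith
  refine e1.trans (Finset.prod_le_prod (fun j _ => ?_) fun j _ => ?_)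
  · split_ifs <;> positivity
  · rw [hS]
    dsimp only
    split_ifs with h
    · rw [hGc]
    · rw [Nat.card_Ico, Nat.cast_sub hq.one_lt.le]
      push_cast
      linarith

theorem dens_upper {r : ℕ} (k q m : ℕ) (hk : k ≠ 0) (hm : m = 2 ^ (k.factorization 2 + 1)) (hq : q.Prime)
    (hmq : m ∣ q - 1) : (1 / (2 * (m : ℝ))) ^ r ≤ 1 - dens (InS (r := r) k q) q := by
  classical
  have hF : Fact q.Prime := ⟨hq⟩
  have hq0 : (0 : ℝ) < q := by exact_mod_cast hq.pos
  have hq2 : (2 : ℝ) ≤ q := by exact_mod_cast hq.two_le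
  have hm0 : 0 < m := by rw [hm]; positivity
  have hm0' : (0 : ℝ) < m := by exact_mod_cast hm0
  set W : Finset ℕ := res q ((powMonoidHom m : (ZMod q)ˣ →* (ZMod q)ˣ).range : Set (ZMod q)ˣ) with hW
  have hWc : W.card * m = q - 1 := by rw [hW, card_res q hq, card_pow q m hq hmq]
  have hsub : (Fintype.piFinset fun _ : Fin r => W) ⊆ (Fintype.piFinset fun _ : Fin r => range q).filter
      fun t => ¬ InS k q fun l => (t l : ℤ) := by
    intro t ht
    rw [Fintype.mem_piFinset] at ht
    rw [Finset.mem_filter, Fintype.mem_piFinset]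
    have h1 : ∀ j, t j ∈ range q ∧ ∃ u ∈ (powMonoidHom m : (ZMod q)ˣ →* (ZMod q)ˣ).range,
        (u : ZMod q) = (t j : ZMod q) := by
      intro j
      have h := ht j
      rw [hW] at h
      unfold res at h
      simp only [Finset.mem_filter] at h
      exact h
    refine ⟨fun j => (h1 j).1, ?_⟩
    rintro ⟨_, h2⟩
    have h3 : Subgroup.closure {u : (ZMod q)ˣ | ∃ j, (u : ZMod q) = (((t j : ℤ) : ℤ) : ZMod q)} ≤
        (powMonoidHom m : (ZMod q)ˣ →* (ZMod q)ˣ).range := by
      rw [Subgroup.closure_le]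
      rintro u ⟨j, hu⟩
      obtain ⟨_, v, hv, hvt⟩ := h1 j
      have : u = v := by
        apply Units.ext
        rw [hu, hvt]
        push_cast
        rfl
      rw [this]
      exact hv
    have h4 := Subgroup.index_dvd_of_le h3
    have h5 := IsCyclic.index_powMonoidHom_range (G := (ZMod q)ˣ) m
    rw [card_units q hq, Nat.gcd_eq_right hmq] at h5
    rw [h5] at h4
    have h6 : m ∣ k := h4.trans h2
    rw [hm] at h6
    exact Nat.pow_succ_factorization_not_dvd hk Nat.prime_two h6
  have hcard := Finset.card_le_card hsub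
  rw [Fintype.card_piFinset, Finset.prod_const, Finset.card_univ, Fintype.card_fin] at hcard
  have htot := Finset.card_filter_add_card_filter_not (s := Fintype.piFinset fun _ : Fin r => range q)
    (fun t => InS k q fun l => (t l : ℤ))
  rw [Fintype.card_piFinset, Finset.prod_const, Finset.card_univ, Fintype.card_fin, Finset.card_range] at htot
  have h1 : 1 - dens (InS (r := r) k q) q =
      (((Fintype.piFinset fun _ : Fin r => range q).filter fun t => ¬ InS k q fun l => (t l : ℤ)).card : ℝ) /
        (q : ℝ) ^ r := by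
    unfold dens
    rw [eq_div_iff (by positivity), sub_mul, div_mul_cancel₀ _ (by positivity), one_mul, sub_eq_iff_eq_add]
    have : ((q ^ r : ℕ) : ℝ) = (((Fintype.piFinset fun _ : Fin r => range q).filter
        fun t => InS k q fun l => (t l : ℤ)).card : ℝ) + (((Fintype.piFinset fun _ : Fin r => range q).filter
        fun t => ¬ InS k q fun l => (t l : ℤ)).card : ℝ) := by
      rw [← htot]
      push_cast
      rfl
    push_cast at this
    rw [this]
    ring
  rw [h1, le_div_iff₀ (by positivity), ← mul_pow]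
  refine le_trans ?_ (by exact_mod_cast hcard : ((W.card ^ r : ℕ) : ℝ) ≤ _)
  push_cast
  refine pow_le_pow_left₀ (by positivity) ?_ r
  have h2 : (W.card : ℝ) * m = q - 1 := by
    have : ((W.card * m : ℕ) : ℝ) = ((q - 1 : ℕ) : ℝ) := by rw [hWc]
    rw [Nat.cast_sub hq.one_lt.le] at this
    push_cast at this
    exact this
  have h3 : (W.card : ℝ) = (q - 1) / m := by
    rw [eq_div_iff hm0'.ne']
    exact h2
  rw [h3, div_mul_eq_mul_div, one_mul, div_le_div_iff₀ (by positivity) hm0']
  nlinarith

/-- the weights of the primes congruent to 1 modulo `m` -/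
theorem term_lower {r : ℕ} (k q m : ℕ) (hr : 1 ≤ r) (hk : k ≠ 0) (hm : m = 2 ^ (k.factorization 2 + 1))
    (hq : q.Prime) (hq11 : 11 ≤ q) (hmq : m ∣ q - 1) :
    (1 / 2 : ℝ) ^ r * (1 / (2 * (m : ℝ))) ^ r / 16 * (Real.log q / q) ≤
      dens (InS (r := r) k q) q * (1 - dens (InS (r := r) k q) q) := by
  have hq0 : (0 : ℝ) < q := by exact_mod_cast hq.pos
  have hq11' : (11 : ℝ) ≤ q := by exact_mod_cast hq11
  have h1 := dens_lower (r := r) k q hq hr
  have h2 := dens_upper (r := r) k q m hk hm hq hmq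
  have h3 := (Pool.Agent.H262R2.UK.phi_facts (q - 1) (by omega)).2
  rw [Nat.cast_sub hq.one_lt.le] at h3
  push_cast at h3
  have h4 : Real.log q / 16 ≤ (Nat.totient (q - 1) : ℝ) := by
    have h5 : Real.log q ≤ 2 * √(q : ℝ) := by
      have h6 := Real.log_le_sub_one_of_pos (x := √(q : ℝ)) (Real.sqrt_pos.2 hq0)
      have h7 : Real.log (√(q : ℝ)) = Real.log q / 2 := Real.log_sqrt hq0.le
      rw [h7] at h6
      linarith
    have h8 : √(q : ℝ) ≤ 2 * √((q : ℝ) - 1) := by
      rw [Real.sqrt_le_left (by positivity), mul_pow, Real.sq_sqrt (by linarith)]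
      linarith
    linarith
  have hm0 : (0 : ℝ) < m := by rw [hm]; positivity
  have h9 : (1 / 2 : ℝ) ^ r * (Real.log q / 16 / q) ≤ dens (InS (r := r) k q) q := by
    refine le_trans ?_ h1
    gcongr
  have hlog : 0 ≤ Real.log q := Real.log_nonneg (by linarith)
  calc (1 / 2 : ℝ) ^ r * (1 / (2 * (m : ℝ))) ^ r / 16 * (Real.log q / q)
      = ((1 / 2 : ℝ) ^ r * (Real.log q / 16 / q)) * (1 / (2 * (m : ℝ))) ^ r := by ring
    _ ≤ _ := mul_le_mul h9 h2 (by positivity) (dens_nonneg _ _)

/-- **The variance tends to infinity.** -/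
theorem var_tendsto (r k : ℕ) (hr : 1 ≤ r) (hk : k ≠ 0) :
    Tendsto (fun y : ℕ => ∑ q ∈ (range (y + 1)).filter Nat.Prime,
      dens (InS (r := r) k q) q * (1 - dens (InS (r := r) k q) q)) atTop atTop := by
  classical
  set m : ℕ := 2 ^ (k.factorization 2 + 1) with hm
  have hm0 : 0 < m := by rw [hm]; positivity
  have : NeZero m := ⟨hm0.ne'⟩
  have h1 := ArithmeticFunction.vonMangoldt.not_summable_residueClass_prime_div (q := m) (a := 1) isUnit_one
  set f : ℕ → ℝ := fun n : ℕ => (if n.Prime then ArithmeticFunction.vonMangoldt.residueClass (1 : ZMod m) n else 0) / n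
    with hf
  have hf0 : ∀ n, 0 ≤ f n := by
    intro n
    rw [hf]
    dsimp only
    split_ifs
    · have := ArithmeticFunction.vonMangoldt.residueClass_nonneg (1 : ZMod m) n
      positivity
    · simp
  rw [not_summable_iff_tendsto_nat_atTop_of_nonneg hf0] at h1
  set c : ℝ := (1 / 2 : ℝ) ^ r * (1 / (2 * (m : ℝ))) ^ r / 16 with hc
  have hm0' : (0 : ℝ) < m := by exact_mod_cast hm0
  have hc0 : 0 < c := by rw [hc]; positivity
  have h2 : Tendsto (fun y : ℕ => c * (∑ i ∈ range (y + 1), f i - ∑ i ∈ range 11, f i)) atTop atTop :=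
    ((tendsto_atTop_add_const_right _ _ (h1.comp (tendsto_add_atTop_nat 1))).const_mul_atTop hc0)
  refine tendsto_atTop_mono' _ ?_ h2
  filter_upwards [eventually_ge_atTop 11] with y hy
  have hden : ∀ q, q.Prime → 0 ≤ dens (InS (r := r) k q) q * (1 - dens (InS (r := r) k q) q) := by
    intro q hq
    have : NeZero q := ⟨hq.ne_zero⟩
    have h3 : dens (InS (r := r) k q) q ≤ 1 := by
      have := pr_ev (n := r) (fun p => InS k p) q
      rw [← this]
      exact pr_le _ _
    exact mul_nonneg (dens_nonneg _ _) (by linarith)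
  have hterm : ∀ q ∈ (range (y + 1)).filter (fun q => 11 ≤ q), c * f q ≤
      if q.Prime then dens (InS (r := r) k q) q * (1 - dens (InS (r := r) k q) q) else 0 := by
    intro q hq
    rw [Finset.mem_filter] at hq
    by_cases hp : q.Prime
    · rw [if_pos hp]
      by_cases hcl : (q : ZMod m) = 1
      · have h4 : f q = Real.log q / q := by
          rw [hf]
          dsimp only
          rw [if_pos hp, ArithmeticFunction.vonMangoldt.residueClass, Set.indicator_of_mem (by exact hcl),
            ArithmeticFunction.vonMangoldt_apply_prime hp]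
        rw [h4]
        refine term_lower k q m hr hk hm hp hq.2 ?_
        have h5 : ((q - 1 : ℕ) : ZMod m) = 0 := by
          rw [Nat.cast_sub hp.one_lt.le, hcl]
          simp
        exact (ZMod.natCast_eq_zero_iff _ _).1 h5
      · have h4 : f q = 0 := by
          rw [hf]
          dsimp only
          rw [if_pos hp, ArithmeticFunction.vonMangoldt.residueClass, Set.indicator_of_notMem (by exact hcl), zero_div]
        rw [h4, mul_zero]
        exact hden q hp
    · rw [if_neg hp]
      have h4 : f q = 0 := by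
        rw [hf]
        dsimp only
        rw [if_neg hp, zero_div]
      rw [h4, mul_zero]
  have hsplit : ∑ i ∈ range (y + 1), f i - ∑ i ∈ range 11, f i = ∑ q ∈ (range (y + 1)).filter (fun q => 11 ≤ q), f q := by
    have h5 : range (y + 1) = range 11 ∪ (range (y + 1)).filter (fun q => 11 ≤ q) := by
      ext i
      rw [Finset.mem_union, Finset.mem_filter, Finset.mem_range, Finset.mem_range]
      omega
    have h6 : Disjoint (range 11) ((range (y + 1)).filter (fun q => 11 ≤ q)) := by
      rw [Finset.disjoint_left]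
      intro i h7 h8
      rw [Finset.mem_filter] at h8
      rw [Finset.mem_range] at h7
      omega
    have h7 := Finset.sum_union h6 (f := f)
    rw [← h5] at h7
    rw [h7]
    ring
  rw [hsplit, Finset.mul_sum]
  refine (Finset.sum_le_sum hterm).trans ?_
  rw [Finset.sum_filter (s := range (y + 1)) (p := Nat.Prime)]
  refine Finset.sum_le_sum_of_subset_of_nonneg (Finset.filter_subset _ _) fun q _ _ => ?_
  split_ifs with h
  · exact hden q h
  · exact le_rfl

theorem InS_one_iff (q : ℕ) (hq : q.Prime) (c : Fin 1 → ℤ) :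
    InS 1 q c ↔ orderOf ((c 0 : ℤ) : ZMod q) = q - 1 := by
  have hF : Fact q.Prime := ⟨hq⟩
  have hcl : ∀ u : (ZMod q)ˣ, (u : ZMod q) = ((c 0 : ℤ) : ZMod q) →
      Subgroup.closure {v : (ZMod q)ˣ | ∃ j, (v : ZMod q) = ((c j : ℤ) : ZMod q)} = Subgroup.zpowers u := by
    intro u hu
    rw [Subgroup.zpowers_eq_closure]
    congr 1
    ext v
    simp only [Set.mem_ofPred_eq, Set.mem_singleton_iff]
    constructor
    · rintro ⟨j, hv⟩
      apply Units.ext
      rw [hv, hu, Subsingleton.elim j 0]
    · rintro rfl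
      exact ⟨0, hu⟩
  constructor
  · rintro ⟨h1, h2⟩
    have h3 : ((c 0 : ℤ) : ZMod q) ≠ 0 := fun h => h1 0 ((ZMod.intCast_zmod_eq_zero_iff_dvd _ _).1 h)
    set u : (ZMod q)ˣ := Units.mk0 _ h3 with hu
    have h4 := hcl u rfl
    unfold idx at h2
    rw [h4, Nat.dvd_one, Subgroup.index_eq_one] at h2
    have h5 : Nat.card (Subgroup.zpowers u) = q - 1 := by
      rw [h2, Subgroup.card_top, card_units q hq]
    rw [Nat.card_zpowers] at h5
    have h6 : orderOf (u : ZMod q) = q - 1 := by rw [orderOf_units]; exact h5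
    exact h6
  · intro h
    have hq1 : 0 < q - 1 := by have := hq.two_le; omega
    have h3 : ((c 0 : ℤ) : ZMod q) ≠ 0 := by
      intro h0
      rw [h0] at h
      have : orderOf (0 : ZMod q) = 0 := by
        rw [orderOf_eq_zero_iff']
        intro n hn
        rw [zero_pow (by omega)]
        exact zero_ne_one
      omega
    set u : (ZMod q)ˣ := Units.mk0 _ h3 with hu
    have h4 := hcl u rfl
    refine ⟨fun j => ?_, ?_⟩
    · rw [Subsingleton.elim j 0, ← ZMod.intCast_zmod_eq_zero_iff_dvd]
      exact h3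
    · unfold idx
      rw [h4]
      have h5 : Subgroup.zpowers u = ⊤ := by
        apply Subgroup.eq_top_of_card_eq
        rw [Nat.card_zpowers, card_units q hq, ← orderOf_units]
        exact h
      rw [h5, Subgroup.index_top]

theorem dens_one (q : ℕ) (hq : q.Prime) :
    dens (InS (r := 1) 1 q) q = (Nat.totient (q - 1) : ℝ) / q := by
  classical
  have hF : Fact q.Prime := ⟨hq⟩
  unfold dens
  rw [pow_one]
  congr 2
  rw [← card_gen q hq, ← card_res q hq]
  refine Finset.card_bij (fun t _ => t 0) ?_ ?_ ?_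
  · intro t ht
    rw [Finset.mem_filter, Fintype.mem_piFinset] at ht
    unfold res
    simp only [Finset.mem_filter]
    refine ⟨ht.1 0, ?_⟩
    have h1 := (InS_one_iff q hq _).1 ht.2
    have h2 : ¬ (q : ℤ) ∣ (t 0 : ℤ) := ht.2.1 0
    have h3 : ((t 0 : ℕ) : ZMod q) ≠ 0 := by
      intro h
      apply h2
      rw [← ZMod.intCast_zmod_eq_zero_iff_dvd]
      exact_mod_cast h
    refine ⟨Units.mk0 _ h3, ?_, rfl⟩
    change orderOf (Units.mk0 _ h3) = q - 1
    rw [← orderOf_units, Units.val_mk0]
    exact_mod_cast h1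
  · intro t _ t' _ h
    funext j
    rw [Subsingleton.elim j 0]
    exact h
  · intro a ha
    unfold res at ha
    simp only [Finset.mem_filter] at ha
    obtain ⟨h1, u, hu, h2⟩ := ha
    refine ⟨fun _ => a, ?_, rfl⟩
    rw [Finset.mem_filter, Fintype.mem_piFinset]
    refine ⟨fun _ => h1, (InS_one_iff q hq _).2 ?_⟩
    change orderOf u = q - 1 at hu
    push_cast
    rw [← h2, orderOf_units]
    exact hu

end Pool.Agent.U62.RB
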