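import Mathlib

/-!
# The sum of the reciprocals of the primes in a residue class diverges
-/

set_option autoImplicit false

namespace Pool.Agent.U62.RB

open Finset Filter Topology ArithmeticFunction ArithmeticFunction.vonMangoldt

open Classical in
/-- `1 / p` for the primes in the class. -/
noncomputable def rec {q : ℕ} (a : ZMod q) (n : ℕ) : ℝ := if n.Prime ∧ (n : ZMod q) = a then (1 : ℝ) / n else 0

theorem rec_nonneg {q : ℕ} (a : ZMod q) (n : ℕ) : 0 ≤ rec a n := by
  unfold rec
  split_ifs
  · positivity
  · exact le_rfl

theorem term_le {q : ℕ} (a : ZMod q) (N n : ℕ) {x : ℝ} (hx : 1 < x) :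
    residueClass a n / (n : ℝ) ^ x ≤ (if n.Prime then 0 else residueClass a n) / n +
      (if n < N then vonMangoldt n else 0) + 1 / (x - 1) * (if n < N then 0 else rec a n) := by
  have hd : 0 < x - 1 := by linarith
  have hr : 0 ≤ residueClass a n := residueClass_nonneg a n
  rcases Nat.eq_zero_or_pos n with h0 | h0
  · subst h0
    simp only [residueClass_apply_zero, Nat.cast_zero, zero_div, div_zero, zero_add]
    have h1 : (0 : ℝ) ≤ 1 / (x - 1) * (if 0 < N then 0 else rec a 0) := by
      refine mul_nonneg (by positivity) ?_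
      split_ifs
      · exact le_rfl
      · exact rec_nonneg a 0
    have h2 : (0 : ℝ) ≤ (if 0 < N then vonMangoldt 0 else 0) := by
      split_ifs
      · simp
      · exact le_rfl
    linarith
  have hn1 : (1 : ℝ) ≤ n := by exact_mod_cast h0
  have hn0 : (0 : ℝ) < n := by linarith
  have hnx : (n : ℝ) ≤ (n : ℝ) ^ x := by
    calc (n : ℝ) = (n : ℝ) ^ (1 : ℝ) := (Real.rpow_one _).symm
      _ ≤ (n : ℝ) ^ x := Real.rpow_le_rpow_of_exponent_le hn1 hx.le
  have hA : (0 : ℝ) ≤ (if n.Prime then 0 else residueClass a n) / n := by
    refine div_nonneg ?_ hn0.le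
    split_ifs
    · exact le_rfl
    · exact hr
  have hB : (0 : ℝ) ≤ (if n < N then vonMangoldt n else 0) := by
    split_ifs
    · exact vonMangoldt_nonneg
    · exact le_rfl
  have hC : (0 : ℝ) ≤ 1 / (x - 1) * (if n < N then 0 else rec a n) := by
    refine mul_nonneg (by positivity) ?_
    split_ifs
    · exact le_rfl
    · exact rec_nonneg a n
  by_cases hp : n.Prime
  · by_cases hN : n < N
    · have h1 : residueClass a n / (n : ℝ) ^ x ≤ vonMangoldt n := by
        rw [div_le_iff₀ (by positivity)]
        calc residueClass a n ≤ vonMangoldt n := residueClass_le a n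
          _ = vonMangoldt n * 1 := (mul_one _).symm
          _ ≤ vonMangoldt n * (n : ℝ) ^ x := by
            refine mul_le_mul_of_nonneg_left (hn1.trans hnx) vonMangoldt_nonneg
      rw [if_pos hN] at hB ⊢
      linarith
    · by_cases ha : (n : ZMod q) = a
      · have h1 : residueClass a n / (n : ℝ) ^ x ≤ 1 / (x - 1) * rec a n := by
          have e1 : rec a n = 1 / n := by
            unfold rec
            rw [if_pos ⟨hp, ha⟩]
          have e2 : (n : ℝ) ^ x = n * (n : ℝ) ^ (x - 1) := by
            rw [Real.rpow_sub_one hn0.ne']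
            field_simp
          have h3 : residueClass a n ≤ (n : ℝ) ^ (x - 1) / (x - 1) := by
            calc residueClass a n ≤ vonMangoldt n := residueClass_le a n
              _ = Real.log n := vonMangoldt_apply_prime hp
              _ ≤ (n : ℝ) ^ (x - 1) / (x - 1) := Real.log_le_rpow_div hn0.le hd
          rw [e1, e2, div_le_iff₀ (by positivity)]
          calc residueClass a n ≤ (n : ℝ) ^ (x - 1) / (x - 1) := h3
            _ = 1 / (x - 1) * (1 / n) * (n * (n : ℝ) ^ (x - 1)) := by field_simp
        rw [if_neg hN] at hB hC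
        rw [if_neg hN, if_neg hN]
        linarith
      · have h1 : residueClass a n = 0 := by
          unfold residueClass
          rw [Set.indicator_of_notMem]
          exact ha
        rw [h1] at hA ⊢
        rw [zero_div]
        linarith
  · have h1 : residueClass a n / (n : ℝ) ^ x ≤ residueClass a n / n := by
      gcongr
    rw [if_neg hp]
    rw [if_neg hp] at hA
    linarith

theorem not_summable_rec {q : ℕ} [NeZero q] {a : ZMod q} (ha : IsUnit a) : ¬ Summable (rec a) := by
  intro H
  obtain ⟨C, hC⟩ := LSeries_residueClass_lower_bound ha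
  have hg := summable_residueClass_non_primes_div a
  set φ : ℝ := (q.totient : ℝ)⁻¹ with hφ
  have hφ0 : 0 < φ := by
    rw [hφ]
    have : 0 < q.totient := Nat.totient_pos.2 (NeZero.pos q)
    positivity
  have hlim := H.hasSum.tendsto_sum_nat
  have h1 : ∀ᶠ N in atTop, ∑' n, rec a n - φ / 2 < ∑ n ∈ range N, rec a n :=
    hlim.eventually (lt_mem_nhds (by linarith))
  obtain ⟨N, hN⟩ := h1.exists
  have ht : Summable fun n => if n < N then 0 else rec a n := by
    refine Summable.of_nonneg_of_le (fun n => ?_) (fun n => ?_) H
    · split_ifs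
      · exact le_rfl
      · exact rec_nonneg a n
    · split_ifs
      · exact rec_nonneg a n
      · exact le_rfl
  have hb : Summable fun n => if n < N then rec a n else 0 := by
    refine Summable.of_nonneg_of_le (fun n => ?_) (fun n => ?_) H
    · split_ifs
      · exact rec_nonneg a n
      · exact le_rfl
    · split_ifs
      · exact le_rfl
      · exact rec_nonneg a n
  have hb1 : ∑' n, (if n < N then rec a n else 0) = ∑ n ∈ range N, rec a n := by
    rw [tsum_eq_sum (s := range N)]
    · refine Finset.sum_congr rfl fun n hn => ?_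
      rw [if_pos (Finset.mem_range.1 hn)]
    · intro n hn
      rw [if_neg]
      rwa [Finset.mem_range] at hn
  have ht1 : ∑' n, (if n < N then 0 else rec a n) < φ / 2 := by
    have e : ∑' n, rec a n = ∑' n, (if n < N then rec a n else 0) + ∑' n, (if n < N then 0 else rec a n) := by
      rw [← hb.tsum_add ht]
      refine tsum_congr fun n => ?_
      split_ifs <;> simp
    rw [hb1] at e
    linarith
  have hB : Summable fun n => if n < N then vonMangoldt n else 0 := by
    refine summable_of_ne_finset_zero (s := range N) ?_
    intro n hn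
    rw [if_neg]
    rwa [Finset.mem_range] at hn
  set G : ℝ := ∑' n : ℕ, (if n.Prime then 0 else residueClass a n) / n with hG
  set B : ℝ := ∑' n, (if n < N then vonMangoldt n else 0) with hBB
  have key : ∀ δ : ℝ, 0 < δ → δ ≤ 1 → φ / δ - C ≤ G + B + 1 / δ * (φ / 2) := by
    intro δ h0 h1
    have h2 := hC (x := 1 + δ) ⟨by linarith, by linarith⟩
    rw [add_sub_cancel_left] at h2
    refine h2.trans ?_
    have hS : Summable fun n : ℕ => (if n.Prime then 0 else residueClass a n) / n +
        (if n < N then vonMangoldt n else 0) + 1 / δ * (if n < N then 0 else rec a n) :=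
      (hg.add hB).add (ht.mul_left _)
    have hle : ∀ n : ℕ, residueClass a n / (n : ℝ) ^ (1 + δ) ≤ (if n.Prime then 0 else residueClass a n) / n +
        (if n < N then vonMangoldt n else 0) + 1 / δ * (if n < N then 0 else rec a n) := by
      intro n
      have := term_le a N n (x := 1 + δ) (by linarith)
      rwa [add_sub_cancel_left] at this
    have hS2 : Summable fun n : ℕ => residueClass a n / (n : ℝ) ^ (1 + δ) := by
      refine Summable.of_nonneg_of_le (fun n => ?_) hle hS
      exact div_nonneg (residueClass_nonneg a n) (by positivity)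
    calc ∑' n, residueClass a n / (n : ℝ) ^ (1 + δ) ≤ ∑' n : ℕ, ((if n.Prime then 0 else residueClass a n) / n +
        (if n < N then vonMangoldt n else 0) + 1 / δ * (if n < N then 0 else rec a n)) := hS2.tsum_le_tsum hle hS
      _ = G + B + 1 / δ * ∑' n, (if n < N then 0 else rec a n) := by
        rw [(hg.add hB).tsum_add (ht.mul_left _), hg.tsum_add hB, tsum_mul_left]
      _ ≤ G + B + 1 / δ * (φ / 2) := by gcongr
  set D : ℝ := |G + B + C| + 1 with hD
  have hD1 : 1 ≤ D := by
    rw [hD]
    have := abs_nonneg (G + B + C)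
    linarith
  have hD2 : G + B + C < D := by
    rw [hD]
    have := le_abs_self (G + B + C)
    linarith
  have hφ1 : φ ≤ 1 := by
    rw [hφ]
    refine inv_le_one_of_one_le₀ ?_
    have : 0 < q.totient := Nat.totient_pos.2 (NeZero.pos q)
    exact_mod_cast this
  have h3 := key (φ / (2 * D)) (by positivity) (by
    rw [div_le_one (by positivity)]
    linarith)
  have e1 : φ / (φ / (2 * D)) = 2 * D := by field_simp
  have e2 : 1 / (φ / (2 * D)) * (φ / 2) = D := by field_simp
  rw [e1, e2] at h3
  linarith

open Classical in
/-- The sum of the reciprocals of the primes in a residue class tends to infinity. -/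
theorem sum_class {q : ℕ} [NeZero q] {a : ZMod q} (ha : IsUnit a) (K : ℝ) : ∃ Y : ℕ, ∀ y, Y ≤ y →
    K ≤ ∑ p ∈ (range (y + 1)).filter (fun p : ℕ => p.Prime ∧ (p : ZMod q) = a ∧ 5 ≤ p), (1 : ℝ) / (p : ℝ) := by
  have h1 := (not_summable_iff_tendsto_nat_atTop_of_nonneg (rec_nonneg a)).1 (not_summable_rec ha)
  obtain ⟨Y, hY⟩ := (Filter.tendsto_atTop_atTop.1 h1) (K + 5)
  refine ⟨Y, fun y hy => ?_⟩
  have h2 := hY (y + 1) (by omega)
  rw [Finset.sum_filter]
  have h3 : ∑ n ∈ range (y + 1), rec a n ≤ ∑ n ∈ range (y + 1),
      ((if n.Prime ∧ (n : ZMod q) = a ∧ 5 ≤ n then (1 : ℝ) / n else 0) + (if n < 5 then 1 else 0)) := by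
    refine Finset.sum_le_sum fun n _ => ?_
    unfold rec
    by_cases h5 : n < 5
    · have h6 : ¬ (5 ≤ n) := by omega
      rw [if_pos h5]
      simp only [h6, and_false, if_false, zero_add]
      split_ifs with h7
      · have : (1 : ℝ) ≤ n := by exact_mod_cast h7.1.one_lt.le
        rw [div_le_one (by linarith)]
        exact this
      · exact zero_le_one
    · have h6 : 5 ≤ n := by omega
      rw [if_neg h5]
      simp only [h6, and_true, add_zero]
      exact le_rfl
  rw [Finset.sum_add_distrib] at h3
  have h4 : ∑ n ∈ range (y + 1), (if n < 5 then (1 : ℝ) else 0) ≤ 5 := by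
    rw [← Finset.sum_filter, Finset.sum_const, nsmul_eq_mul, mul_one]
    have : ((range (y + 1)).filter fun n => n < 5).card ≤ 5 := by
      calc ((range (y + 1)).filter fun n => n < 5).card ≤ (range 5).card := by
            refine Finset.card_le_card fun n hn => ?_
            rw [Finset.mem_filter] at hn
            exact Finset.mem_range.2 hn.2
        _ = 5 := Finset.card_range 5
    exact_mod_cast this
  linarith

end Pool.Agent.U62.RB
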