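import Pool.Agent.X280.UC.Unif
import Pool.Agent.X280.HG.Law

/-!
# Sums over primes of bounded local data: comparison with independent variables, by the variance
-/

set_option autoImplicit false
set_option linter.unusedSectionVars false

namespace Pool.Agent.U62.RB

open Finset Filter Topology Pool.Agent.Y722.HS Pool.Agent.X280.BP Pool.Agent.X280.UC MeasureTheory
  ProbabilityTheory

variable {ι : Type} [Fintype ι] [DecidableEq ι]

theorem exp_le_quad (u : ℝ) : Real.exp u ≤ 1 + u + u ^ 2 * Real.exp |u| := by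
  have hE : 1 ≤ Real.exp |u| := Real.one_le_exp (abs_nonneg _)
  by_cases h : |u| ≤ 1
  · have h1 := (abs_le.mp (Real.abs_exp_sub_one_sub_id_le h)).2
    nlinarith [sq_nonneg u]
  · push Not at h
    by_cases hu : 0 ≤ u
    · rw [abs_of_nonneg hu] at h ⊢
      have : 0 < Real.exp u := Real.exp_pos u
      have h2 : 0 < (u ^ 2 - 1) * Real.exp u := mul_pos (by nlinarith) this
      nlinarith
    · push Not at hu
      have h1 : Real.exp u ≤ 1 := Real.exp_le_one_iff.mpr hu.le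
      have h2 : u ^ 2 ≤ u ^ 2 * Real.exp |u| := le_mul_of_one_le_right (sq_nonneg _) hE
      rw [abs_of_neg hu] at h
      nlinarith

theorem EM_exp2 (p : ℕ) [NeZero p] (Z : (ι → ZMod p) → ℝ) {B : ℝ} (hb : ∀ c, |Z c| ≤ B)
    (h0 : EM p Z = 0) (l : ℝ) : EM p (fun c => Real.exp (l * Z c)) ≤
      Real.exp (l ^ 2 * Real.exp (|l| * B) * EM p (fun c => Z c ^ 2)) := by
  have h1 : EM p (fun c => Real.exp (l * Z c)) ≤
      EM p (fun c => (1 + l * Z c) + (l ^ 2 * Real.exp (|l| * B)) * Z c ^ 2) := by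
    unfold EM
    gcongr with c
    refine (exp_le_quad _).trans ?_
    have h2 : Real.exp |l * Z c| ≤ Real.exp (|l| * B) := by
      rw [Real.exp_le_exp, abs_mul]
      exact mul_le_mul_of_nonneg_left (hb c) (abs_nonneg _)
    calc 1 + l * Z c + (l * Z c) ^ 2 * Real.exp |l * Z c|
        ≤ 1 + l * Z c + (l * Z c) ^ 2 * Real.exp (|l| * B) := by gcongr
      _ = _ := by ring
  refine h1.trans ?_
  rw [EM_add', EM_add', EM_const', EM_mul', EM_mul', h0, mul_zero, add_zero]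
  have := Real.add_one_le_exp (l ^ 2 * Real.exp (|l| * B) * EM p (fun c => Z c ^ 2))
  linarith

/-- **The even moments**, by the variance. -/
theorem mom_even2 (I : Finset ℕ) (x : ℕ) (hI : ∀ p ∈ I, p.Prime ∧ p ≤ x)
    (Z : ∀ p : ℕ, (ι → ZMod p) → ℝ) {B : ℝ} (hb : ∀ p ∈ I, ∀ c, |Z p c| ≤ B)
    (h0 : ∀ p ∈ I, ∀ [NeZero p], EM p (Z p) = 0) (W : ℝ) (hW : VP Z I ≤ W)
    (l : ℝ) (hl : 0 < l) (k H : ℕ) (hH : x ^ (2 * k) ≤ 2 * H + 1) :
    EB H (fun c => (SP Z I c) ^ (2 * k)) ≤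
      2 * ((2 * k).factorial : ℝ) / l ^ (2 * k) * Real.exp (l ^ 2 * Real.exp (l * B) * W) +
      2 ^ Fintype.card ι * ((x : ℝ) ^ (2 * k) / (2 * H + 1)) * (I.card * B) ^ (2 * k) := by
  set S : (ι → ℤ) → ℝ := fun c => ∑ p ∈ I, Z p (red p c) with hS
  have hSS : (fun c => SP Z I c ^ (2 * k)) = fun c => S c ^ (2 * k) := rfl
  rw [hSS]
  have hcb : ∑ _p ∈ I, B = I.card * B := by rw [Finset.sum_const, nsmul_eq_mul]
  rw [← hcb]
  have hle : ∀ l' : ℝ, |l'| = l →
      ∏ p ∈ I, (Ep p (fun c => (Real.exp (l' * Z p c) : ℂ))).re ≤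
        Real.exp (l ^ 2 * Real.exp (l * B) * W) := by
    intro l' hl'
    have hl2 : l' ^ 2 = l ^ 2 := by rw [← hl', sq_abs]
    have h1 : ∀ p ∈ I, 0 ≤ (Ep p (fun c => (Real.exp (l' * Z p c) : ℂ))).re ∧
        (Ep p (fun c => (Real.exp (l' * Z p c) : ℂ))).re ≤
          Real.exp (l ^ 2 * Real.exp (l * B) * vv Z p) := by
      intro p hp
      have : NeZero p := ⟨(hI p hp).1.ne_zero⟩
      rw [Ep_eq, EMc_ofReal, Complex.ofReal_re, vv_eq]
      refine ⟨?_, ?_⟩
      · unfold EM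
        positivity
      · have := EM_exp2 p (Z p) (hb p hp) (h0 p hp) l'
        rwa [hl', hl2] at this
    refine (Finset.prod_le_prod (fun p hp => (h1 p hp).1) fun p hp => (h1 p hp).2).trans ?_
    rw [← Real.exp_sum, ← Finset.mul_sum]
    exact Real.exp_le_exp.mpr (mul_le_mul_of_nonneg_left hW (by positivity))
  have hlim1 := lim_exp I (fun p hp => (hI p hp).1) Z l
  have hlim2 := lim_exp I (fun p hp => (hI p hp).1) Z (-l)
  have hlim3 : Tendsto (fun H' : ℕ => 2 ^ Fintype.card ι * ((x : ℝ) ^ (2 * k) / (2 * H + 1) +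
      (x : ℝ) ^ (2 * k) / (2 * (H' : ℝ) + 1)) * (∑ _p ∈ I, B) ^ (2 * k)) atTop
      (𝓝 (2 ^ Fintype.card ι * ((x : ℝ) ^ (2 * k) / (2 * H + 1) + 0) *
        (∑ _p ∈ I, B) ^ (2 * k))) :=
    ((tendsto_const_nhds.add (tendsto_ratio _)).const_mul _).mul_const _
  have hG := (((hlim1.add hlim2).const_mul (((2 * k).factorial : ℝ) / l ^ (2 * k)))).add hlim3
  have hlower : ∀ᶠ H' : ℕ in atTop, EB H (fun c => S c ^ (2 * k)) ≤
      ((2 * k).factorial : ℝ) / l ^ (2 * k) * (EB H' (fun c => Real.exp (l * S c)) +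
        EB H' (fun c => Real.exp (-l * S c))) +
      2 ^ Fintype.card ι * ((x : ℝ) ^ (2 * k) / (2 * H + 1) +
      (x : ℝ) ^ (2 * k) / (2 * (H' : ℝ) + 1)) * (∑ _p ∈ I, B) ^ (2 * k) := by
    filter_upwards [eventually_ge_atTop (x ^ (2 * k))] with H' hH'
    have h1 := mom_diff I x (fun p hp => ⟨(hI p hp).1.ne_zero, (hI p hp).2⟩) Z (fun _ => B) hb
      (2 * k) H H' hH (by omega)
    have h2 := (abs_le.mp h1).2
    have h3 : EB H' (fun c => S c ^ (2 * k)) ≤ ((2 * k).factorial : ℝ) / l ^ (2 * k) *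
        (EB H' (fun c => Real.exp (l * S c)) + EB H' (fun c => Real.exp (-l * S c))) := by
      have h4 : ∀ c, S c ^ (2 * k) ≤ ((2 * k).factorial : ℝ) / l ^ (2 * k) *
          (Real.exp (l * S c) + Real.exp (-l * S c)) := by
        intro c
        have h5 := Real.pow_div_factorial_le_exp (|l * S c|) (abs_nonneg _) (2 * k)
        have h6 : Real.exp |l * S c| ≤ Real.exp (l * S c) + Real.exp (-l * S c) := by
          rcases abs_cases (l * S c) with ⟨h, _⟩ | ⟨h, _⟩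
          · rw [h]; linarith [Real.exp_pos (-l * S c)]
          · rw [h, ← neg_mul]; linarith [Real.exp_pos (l * S c)]
        have h7 : |l * S c| ^ (2 * k) = l ^ (2 * k) * S c ^ (2 * k) := by
          rw [pow_mul, sq_abs, ← pow_mul, mul_pow]
        rw [h7] at h5
        have hf : (0 : ℝ) < (2 * k).factorial := by exact_mod_cast Nat.factorial_pos _
        have hl2 : 0 < l ^ (2 * k) := by positivity
        have h8 := h5.trans h6
        rw [div_le_iff₀ hf] at h8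
        rw [div_mul_eq_mul_div, le_div_iff₀ hl2]
        linarith
      refine (EB_mono H' _ _ h4).trans (le_of_eq ?_)
      unfold EB
      rw [← Finset.mul_sum, Finset.sum_add_distrib]
      ring
    linarith
  have h9 := ge_of_tendsto hG hlower
  have h10 := hle l (abs_of_pos hl)
  have h11 := hle (-l) (by rw [abs_neg, abs_of_pos hl])
  have hf : (0 : ℝ) ≤ ((2 * k).factorial : ℝ) / l ^ (2 * k) := by positivity
  have h12 := mul_le_mul_of_nonneg_left (add_le_add h10 h11) hf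
  rw [add_zero] at h9
  refine h9.trans (add_le_add (h12.trans (le_of_eq ?_)) le_rfl)
  ring

/-- The characteristic function of the model. -/
noncomputable def phiP (Z : ∀ p : ℕ, (ι → ZMod p) → ℝ) (P : Finset ℕ) : ℂ :=
  ∏ p ∈ P, Ep p (fun c => Complex.exp ((Z p c : ℝ) * Complex.I))

theorem lim_phiP (Z : ∀ p : ℕ, (ι → ZMod p) → ℝ) (P : Finset ℕ) (hP : ∀ p ∈ P, p.Prime) :
    Tendsto (fun H => EBc H (fun c => Complex.exp ((SP Z P c : ℝ) * Complex.I))) atTop
      (𝓝 (phiP Z P)) := by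
  have h := lim_prod_c P hP fun p c => Complex.exp ((Z p c : ℝ) * Complex.I)
  refine h.congr fun H => ?_
  congr 1
  funext c
  rw [← Complex.exp_sum, ← Finset.sum_mul]
  congr 2
  unfold SP
  push_cast
  rfl

/-- **Comparison with the model**, by the variance. -/
theorem charR (I : Finset ℕ) {x : ℕ} (hx1 : 1 ≤ x) (hI : ∀ p ∈ I, p.Prime ∧ p ≤ x)
    (Z : ∀ p : ℕ, (ι → ZMod p) → ℝ) {B : ℝ} (hB1 : 1 ≤ B) (hb : ∀ p ∈ I, ∀ c, |Z p c| ≤ B)
    (h0 : ∀ p ∈ I, ∀ [NeZero p], EM p (Z p) = 0) {W : ℝ} (hW : VP Z I ≤ W)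
    {l : ℝ} (hl : 0 < l) {m H : ℕ} (hH : x ^ (2 * m) ≤ 2 * H + 1) :
    ‖EBc H (fun c => Complex.exp ((SP Z I c : ℝ) * Complex.I)) - phiP Z I‖ ≤
      4 * 2 ^ Fintype.card ι * (B * x ^ 2) ^ (2 * m) / (2 * H + 1) +
      4 * Real.exp (l ^ 2 * Real.exp (l * B) * W) / l ^ (2 * m) := by
  classical
  have hB0 : 0 < B := lt_of_lt_of_le one_pos hB1
  have hxR : (1 : ℝ) ≤ x := by exact_mod_cast hx1
  set n := Fintype.card ι with hn
  set S : (ι → ℤ) → ℝ := fun c => SP Z I c with hS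
  have hIx : I.card ≤ x := by
    have h1 : I ⊆ Finset.Icc 1 x := by
      intro p hp
      rw [Finset.mem_Icc]
      exact ⟨(hI p hp).1.pos, (hI p hp).2⟩
    have h2 := Finset.card_le_card h1
    rwa [Nat.card_Icc, Nat.add_sub_cancel] at h2
  have hsum : (I.card : ℝ) * B ≤ B * x := by
    have : (I.card : ℝ) ≤ x := by exact_mod_cast hIx
    nlinarith
  have hsum0 : 0 ≤ (I.card : ℝ) * B := by positivity
  set q : ℝ := B * x ^ 2 with hq
  have hq1 : 1 ≤ q := by
    rw [hq]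
    have : (1 : ℝ) ≤ (x : ℝ) ^ 2 := one_le_pow₀ hxR
    nlinarith
  have hxs : ∀ j : ℕ, (x : ℝ) ^ j * (I.card * B) ^ j ≤ q ^ j := by
    intro j
    rw [← mul_pow]
    apply pow_le_pow_left₀ (by positivity)
    calc (x : ℝ) * (I.card * B) ≤ x * (B * x) := by gcongr
      _ = q := by rw [hq]; ring
  have hqj : ∀ j : ℕ, j ≤ 2 * m → q ^ j ≤ q ^ (2 * m) := fun j hj => pow_le_pow_right₀ hq1 hj
  have hdiff : ∀ H' : ℕ, x ^ (2 * m) ≤ 2 * H' + 1 → ∀ j : ℕ, j ≤ 2 * m →
      |EB H (fun c => S c ^ j) - EB H' (fun c => S c ^ j)| ≤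
        2 ^ n * q ^ (2 * m) * (1 / (2 * H + 1) + 1 / (2 * H' + 1)) := by
    intro H' hH' j hj
    have hxj : x ^ j ≤ x ^ (2 * m) := Nat.pow_le_pow_right hx1 hj
    have h1 := mom_diff I x (fun p hp => ⟨(hI p hp).1.ne_zero, (hI p hp).2⟩) Z
      (fun _ => B) hb j H H' (hxj.trans hH) (hxj.trans hH')
    refine h1.trans ?_
    rw [Finset.sum_const, nsmul_eq_mul, ← hn]
    calc 2 ^ n * ((x : ℝ) ^ j / (2 * H + 1) + (x : ℝ) ^ j / (2 * H' + 1)) * (I.card * B) ^ j
        = 2 ^ n * ((x : ℝ) ^ j * (I.card * B) ^ j) *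
          (1 / (2 * H + 1) + 1 / (2 * H' + 1)) := by ring
      _ ≤ 2 ^ n * q ^ (2 * m) * (1 / (2 * H + 1) + 1 / (2 * H' + 1)) := by
          gcongr
          exact (hxs j).trans (hqj j hj)
  set E : ℝ := Real.exp (l ^ 2 * Real.exp (l * B) * W) with hE
  have hE0 : 0 < E := Real.exp_pos _
  have heven : ∀ H' : ℕ, x ^ (2 * m) ≤ 2 * H' + 1 → EB H' (fun c => S c ^ (2 * m)) ≤
      ((2 * m).factorial : ℝ) * (2 * (E / l ^ (2 * m))) +
        2 ^ n * q ^ (2 * m) * (1 / (2 * H' + 1)) := by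
    intro H' hH'
    have h1 := mom_even2 I x hI Z hb h0 W hW l hl m H' hH'
    refine h1.trans (add_le_add (le_of_eq ?_) ?_)
    · rw [← hE]
      field_simp
    · rw [← hn]
      calc 2 ^ n * ((x : ℝ) ^ (2 * m) / (2 * H' + 1)) * (I.card * B) ^ (2 * m)
          = 2 ^ n * ((x : ℝ) ^ (2 * m) * (I.card * B) ^ (2 * m)) * (1 / (2 * H' + 1)) := by
            ring
        _ ≤ 2 ^ n * q ^ (2 * m) * (1 / (2 * H' + 1)) := by
            gcongr
            exact hxs (2 * m)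
  have hone : ∀ K : ℕ, EBc K (fun c => Complex.exp ((S c : ℝ) * Complex.I)) =
      EBc K (fun c => Complex.exp (((1 : ℝ) * S c : ℝ) * Complex.I)) := by
    intro K
    simp only [one_mul]
  -- comparison of the two boxes
  have hcmp : ∀ H' : ℕ, x ^ (2 * m) ≤ 2 * H' + 1 →
      ‖EBc H (fun c => Complex.exp ((S c : ℝ) * Complex.I)) -
        EBc H' (fun c => Complex.exp ((S c : ℝ) * Complex.I))‖ ≤
      4 * 2 ^ n * q ^ (2 * m) * (1 / (2 * H + 1) + 1 / (2 * H' + 1)) +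
        4 * E / l ^ (2 * m) := by
    intro H' hH'
    have h1 := char_moments H m S 1
    have h2 := char_moments H' m S 1
    rw [← hone] at h1 h2
    set P := ∑ j ∈ range (2 * m), (((1 : ℝ) : ℂ) * Complex.I) ^ j / (j.factorial : ℂ) *
      (EB H (fun c => S c ^ j) : ℝ) with hP
    set P' := ∑ j ∈ range (2 * m), (((1 : ℝ) : ℂ) * Complex.I) ^ j / (j.factorial : ℂ) *
      (EB H' (fun c => S c ^ j) : ℝ) with hP'
    set D := 2 ^ n * q ^ (2 * m) * (1 / (2 * (H : ℝ) + 1) + 1 / (2 * (H' : ℝ) + 1)) with hD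
    have hD0 : 0 ≤ D := by positivity
    have h3 : ‖P - P'‖ ≤ Real.exp 1 * D := by
      rw [hP, hP', ← Finset.sum_sub_distrib]
      refine (norm_sum_le _ _).trans ?_
      have h4 : ∀ j ∈ range (2 * m), ‖(((1 : ℝ) : ℂ) * Complex.I) ^ j / (j.factorial : ℂ) *
          (EB H (fun c => S c ^ j) : ℝ) - (((1 : ℝ) : ℂ) * Complex.I) ^ j / (j.factorial : ℂ) *
          (EB H' (fun c => S c ^ j) : ℝ)‖ ≤ 1 ^ j / (j.factorial : ℝ) * D := by
        intro j hj
        rw [Finset.mem_range] at hj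
        rw [← mul_sub, ← Complex.ofReal_sub, norm_mul, norm_div, norm_pow, norm_mul,
          Complex.norm_I, mul_one, Complex.norm_real, Complex.norm_real, Complex.norm_natCast,
          Real.norm_eq_abs, Real.norm_eq_abs, abs_one]
        gcongr
        exact hdiff H' hH' j hj.le
      refine (Finset.sum_le_sum h4).trans ?_
      rw [← Finset.sum_mul]
      refine mul_le_mul_of_nonneg_right ?_ hD0
      exact Real.sum_le_exp_of_nonneg (by norm_num) (2 * m)
    have hfac : (0 : ℝ) < ((2 * m).factorial : ℝ) := by exact_mod_cast Nat.factorial_pos _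
    have hfac1 : (1 : ℝ) ≤ ((2 * m).factorial : ℝ) := by exact_mod_cast Nat.factorial_pos (2 * m)
    have hrem : ∀ K : ℕ, x ^ (2 * m) ≤ 2 * K + 1 →
        |(1 : ℝ)| ^ (2 * m) / ((2 * m).factorial : ℝ) * EB K (fun c => S c ^ (2 * m)) ≤
        2 * (E / l ^ (2 * m)) + 2 ^ n * q ^ (2 * m) * (1 / (2 * K + 1)) := by
      intro K hK
      have h5 := heven K hK
      rw [abs_one, one_pow]
      calc 1 / ((2 * m).factorial : ℝ) * EB K (fun c => S c ^ (2 * m))
          ≤ 1 / ((2 * m).factorial : ℝ) * (((2 * m).factorial : ℝ) *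
            (2 * (E / l ^ (2 * m))) + 2 ^ n * q ^ (2 * m) * (1 / (2 * K + 1))) := by gcongr
        _ = 2 * (E / l ^ (2 * m)) + (1 /
            ((2 * m).factorial : ℝ)) * (2 ^ n * q ^ (2 * m) * (1 / (2 * K + 1))) := by
            field_simp
        _ ≤ 2 * (E / l ^ (2 * m)) + 1 * (2 ^ n * q ^ (2 * m) * (1 / (2 * K + 1))) := by
            apply add_le_add le_rfl
            apply mul_le_mul_of_nonneg_right _ (by positivity)
            rw [div_le_one hfac]
            exact hfac1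
        _ = _ := by ring
    have h6 := hrem H hH
    have h7 := hrem H' hH'
    have hexp : Real.exp 1 ≤ 3 := by have := Real.exp_one_lt_d9; linarith
    have h8 : ‖EBc H (fun c => Complex.exp ((S c : ℝ) * Complex.I)) -
        EBc H' (fun c => Complex.exp ((S c : ℝ) * Complex.I))‖ ≤
        ‖EBc H (fun c => Complex.exp ((S c : ℝ) * Complex.I)) - P‖ + ‖P - P'‖ +
        ‖EBc H' (fun c => Complex.exp ((S c : ℝ) * Complex.I)) - P'‖ := by
      have e : EBc H (fun c => Complex.exp ((S c : ℝ) * Complex.I)) -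
        EBc H' (fun c => Complex.exp ((S c : ℝ) * Complex.I)) =
        (EBc H (fun c => Complex.exp ((S c : ℝ) * Complex.I)) - P) + (P - P') -
        (EBc H' (fun c => Complex.exp ((S c : ℝ) * Complex.I)) - P') := by ring
      rw [e]
      exact (norm_sub_le _ _).trans (add_le_add (norm_add_le _ _) le_rfl)
    have h9 : Real.exp 1 * D ≤ 3 * D := by gcongr
    have h10 : 2 ^ n * q ^ (2 * m) * (1 / (2 * (H : ℝ) + 1)) +
        2 ^ n * q ^ (2 * m) * (1 / (2 * (H' : ℝ) + 1)) = D := by rw [hD]; ring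
    have h11 : 4 * 2 ^ n * q ^ (2 * m) * (1 / (2 * (H : ℝ) + 1) + 1 / (2 * (H' : ℝ) + 1)) = 4 * D := by
      rw [hD]; ring
    have h12 : 4 * E / l ^ (2 * m) = 4 * (E / l ^ (2 * m)) := by ring
    rw [h11, h12]
    linarith
  -- the limit
  have hlim := (tendsto_const_nhds (x := EBc H (fun c => Complex.exp ((S c : ℝ) * Complex.I)))).sub
    (lim_phiP Z I fun p hp => (hI p hp).1)
  have hlim2 : Tendsto (fun H' : ℕ => 4 * 2 ^ n * q ^ (2 * m) *
      (1 / (2 * (H : ℝ) + 1) + 1 / (2 * (H' : ℝ) + 1)) + 4 * E / l ^ (2 * m)) atTop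
      (𝓝 (4 * 2 ^ n * q ^ (2 * m) * (1 / (2 * (H : ℝ) + 1) + 0) + 4 * E / l ^ (2 * m))) :=
    ((tendsto_const_nhds.add (tendsto_ratio 1)).const_mul _).add_const _
  have hfin := le_of_tendsto_of_tendsto hlim.norm hlim2 (by
    filter_upwards [eventually_ge_atTop (x ^ (2 * m))] with H' hH'
    exact hcmp H' (by omega))
  refine hfin.trans (le_of_eq ?_)
  rw [add_zero]
  ring

theorem EBc_one (H : ℕ) : EBc H (fun _ : ι → ℤ => (1 : ℂ)) = 1 := by
  have h := EBc_ofReal (ι := ι) H (fun _ => (1 : ℝ))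
  rw [Pool.Agent.X280.BP.EB_const] at h
  simpa using h

/-- **Comparison with the model, uniformly in the primes and the local data.** -/
theorem compare (B M : ℝ) {ε : ℝ} (hε : 0 < ε) : ∃ K : ℕ, ∀ (P : Finset ℕ) (y H : ℕ)
    (Z : ∀ p : ℕ, (ι → ZMod p) → ℝ), (∀ p ∈ P, p.Prime ∧ p ≤ y) →
    (∀ p ∈ P, ∀ c, |Z p c| ≤ B) → (∀ p ∈ P, ∀ [NeZero p], EM p (Z p) = 0) → VP Z P ≤ M →
    y ^ K ≤ H →
    ‖EBc H (fun c => Complex.exp ((SP Z P c : ℝ) * Complex.I)) - phiP Z P‖ ≤ ε := by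
  classical
  set B1 : ℝ := max 1 B with hB1
  have hB11 : 1 ≤ B1 := le_max_left _ _
  have hB0 : 0 < B1 := by linarith
  set n := Fintype.card ι with hn
  set E : ℝ := 4 * Real.exp (2 ^ 2 * Real.exp (2 * B1) * M) with hE
  have hE0 : 0 < E := by positivity
  obtain ⟨m, hm⟩ : ∃ m : ℕ, E / 2 ^ (2 * m) ≤ ε / 2 := by
    have h1 : Tendsto (fun m : ℕ => E * (1 / 4 : ℝ) ^ m) atTop (𝓝 (E * 0)) :=
      (tendsto_pow_atTop_nhds_zero_of_lt_one (by norm_num) (by norm_num)).const_mul _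
    rw [mul_zero] at h1
    obtain ⟨m, hm⟩ := (h1.eventually (ge_mem_nhds (half_pos hε))).exists
    refine ⟨m, ?_⟩
    have e : E / 2 ^ (2 * m) = E * (1 / 4 : ℝ) ^ m := by
      rw [pow_mul, show (2 : ℝ) ^ 2 = 4 by norm_num, one_div, inv_pow]
      rfl
    rw [e]
    exact hm
  set C : ℝ := 4 * 2 ^ n * B1 ^ (2 * m) with hC
  have hC0 : 0 < C := by positivity
  obtain ⟨j, hj⟩ : ∃ j : ℕ, C / 2 ^ j ≤ ε / 2 := by
    have h1 : Tendsto (fun m : ℕ => C * (1 / 2 : ℝ) ^ m) atTop (𝓝 (C * 0)) :=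
      (tendsto_pow_atTop_nhds_zero_of_lt_one (by norm_num) (by norm_num)).const_mul _
    rw [mul_zero] at h1
    obtain ⟨j, hj⟩ := (h1.eventually (ge_mem_nhds (half_pos hε))).exists
    refine ⟨j, ?_⟩
    have e : C / 2 ^ j = C * (1 / 2 : ℝ) ^ j := by
      rw [one_div, inv_pow]
      rfl
    rw [e]
    exact hj
  refine ⟨4 * m + j, fun P y H Z hP hb h0 hV hH => ?_⟩
  by_cases hPe : P = ∅
  · subst hPe
    have e : (fun c : ι → ℤ => Complex.exp ((SP Z ∅ c : ℝ) * Complex.I)) = fun _ => 1 := by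
      funext c
      unfold SP
      simp
    rw [e, EBc_one]
    unfold phiP
    simp [hε.le]
  obtain ⟨p0, hp0⟩ := Finset.nonempty_iff_ne_empty.mpr hPe
  have hy2 : 2 ≤ y := (hP p0 hp0).1.two_le.trans (hP p0 hp0).2
  have hy1 : 1 ≤ y := by omega
  have hyR : (2 : ℝ) ≤ y := by exact_mod_cast hy2
  have hy0 : (0 : ℝ) < y := by linarith
  have hH2 : y ^ (2 * m) ≤ 2 * H + 1 := by
    have h1 : y ^ (2 * m) ≤ y ^ (4 * m + j) := Nat.pow_le_pow_right hy1 (by omega)
    omega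
  have h := charR P hy1 hP Z hB11 (fun p hp c => (hb p hp c).trans (le_max_right _ _)) h0 hV
    (l := 2) (by norm_num) hH2
  refine h.trans ?_
  rw [← hn, ← hE]
  have h1 : 4 * 2 ^ n * (B1 * (y : ℝ) ^ 2) ^ (2 * m) / (2 * H + 1) ≤ ε / 2 := by
    refine le_trans ?_ hj
    have h2 : (y : ℝ) ^ (4 * m + j) ≤ 2 * H + 1 := by
      have : (y : ℝ) ^ (4 * m + j) ≤ H := by exact_mod_cast hH
      linarith [(Nat.cast_nonneg H : (0 : ℝ) ≤ (H : ℝ))]
    have h3 : 4 * 2 ^ n * (B1 * (y : ℝ) ^ 2) ^ (2 * m) = C * (y : ℝ) ^ (4 * m) := by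
      rw [hC, mul_pow, ← pow_mul, show 2 * (2 * m) = 4 * m by ring]
      ring
    rw [h3]
    have h4 : (0 : ℝ) < (y : ℝ) ^ (4 * m) := by positivity
    calc C * (y : ℝ) ^ (4 * m) / (2 * H + 1) ≤ C * (y : ℝ) ^ (4 * m) / (y : ℝ) ^ (4 * m + j) := by
          gcongr
      _ = C / (y : ℝ) ^ j := by
          rw [pow_add]
          field_simp
      _ ≤ C / 2 ^ j := by gcongr
  linarith

end Pool.Agent.U62.RB
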