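import Pool.Agent.U62.RB.Per

/-!
# The normal law for bounded periodic functions
-/

set_option autoImplicit false
set_option linter.unusedSectionVars false

namespace Pool.Agent.U62.RB

open Finset Filter Topology Pool.Agent.Y722.HS Pool.Agent.X280.BP Pool.Agent.X280.UC
  Pool.Agent.X280.HG MeasureTheory ProbabilityTheory

/-- The mean value of a function over the vectors of residues modulo `p`. -/
noncomputable def lmean {n : ℕ} (f : (Fin n → ℤ) → ℝ) (p : ℕ) : ℝ :=
  (∑ t ∈ Fintype.piFinset fun _ : Fin n => range p, f fun l => (t l : ℤ)) / (p : ℝ) ^ n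

/-- The variance. -/
noncomputable def lvar {n : ℕ} (f : (Fin n → ℤ) → ℝ) (p : ℕ) : ℝ :=
  lmean (fun c => f c ^ 2) p - lmean f p ^ 2

/-- The function depends only on the residues modulo `p`. -/
def PerF {n : ℕ} (f : (Fin n → ℤ) → ℝ) (p : ℕ) : Prop :=
  ∀ c c' : Fin n → ℤ, (∀ i, (p : ℤ) ∣ c i - c' i) → f c = f c'

/-- The local function. -/
def evF {n : ℕ} (F : ℕ → (Fin n → ℤ) → ℝ) (p : ℕ) (x : Fin n → ZMod p) : ℝ :=
  F p fun i => ((x i).val : ℤ)

theorem evF_red {n : ℕ} {F : ℕ → (Fin n → ℤ) → ℝ} {p : ℕ} [NeZero p] (h : PerF (F p) p)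
    (c : Fin n → ℤ) : evF F p (red p c) = F p c := by
  unfold evF red
  exact h _ _ fun i => val_dvd p (c i)

theorem EM_evF {n : ℕ} (F : ℕ → (Fin n → ℤ) → ℝ) (p : ℕ) [NeZero p] :
    EM p (evF F p) = lmean (F p) p := by
  unfold EM lmean
  rw [Fintype.card_fin]
  congr 1
  refine Finset.sum_bij (fun x _ => fun l => (x l).val) ?_ ?_ ?_ ?_
  · intro x _
    rw [Fintype.mem_piFinset]
    intro l
    rw [Finset.mem_range]
    exact ZMod.val_lt _
  · intro x _ x' _ h
    funext l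
    exact ZMod.val_injective p (congrFun h l)
  · intro t ht
    rw [Fintype.mem_piFinset] at ht
    refine ⟨fun l => (t l : ZMod p), Finset.mem_univ _, ?_⟩
    funext l
    exact ZMod.val_natCast_of_lt (Finset.mem_range.1 (ht l))
  · intro x _
    rfl

theorem lmean_abs_le {n : ℕ} (f : (Fin n → ℤ) → ℝ) {p : ℕ} [NeZero p] {B : ℝ} (hB : ∀ c, |f c| ≤ B) :
    |lmean f p| ≤ B := by
  have h1 := EM_evF (fun _ => f) p
  rw [← h1]
  have h2 := EM_abs_le p (evF (fun _ => f) p) (fun _ => B) fun c => hB _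
  rwa [EM_const'] at h2

theorem lvar_nonneg {n : ℕ} (f : (Fin n → ℤ) → ℝ) {p : ℕ} [NeZero p] : 0 ≤ lvar f p := by
  have h1 := EM_evF (fun _ => f) p
  have h2 := EM_evF (fun _ c => f c ^ 2) p
  unfold lvar
  have h3 : EM p (fun x : Fin n → ZMod p => (evF (fun _ => f) p x - lmean f p) ^ 2) =
      lmean (fun c => f c ^ 2) p - lmean f p ^ 2 := by
    have e : (fun x : Fin n → ZMod p => (evF (fun _ => f) p x - lmean f p) ^ 2) =
        fun x => (evF (fun _ c => f c ^ 2) p x - 2 * lmean f p * evF (fun _ => f) p x) + lmean f p ^ 2 := by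
      funext x
      unfold evF
      ring
    rw [e, EM_add', EM_sub', EM_mul', EM_const', h1, h2]
    ring
  rw [← h3]
  have h4 := EM_mono' p (fun _ => 0) (fun x : Fin n → ZMod p => (evF (fun _ => f) p x - lmean f p) ^ 2)
    fun c => sq_nonneg _
  rwa [EM_const'] at h4

theorem lvar_le {n : ℕ} (f : (Fin n → ℤ) → ℝ) {p : ℕ} [NeZero p] {B : ℝ} (hB : ∀ c, |f c| ≤ B) :
    lvar f p ≤ B ^ 2 := by
  unfold lvar
  have h1 := lmean_abs_le (fun c => f c ^ 2) (p := p) (B := B ^ 2) fun c => by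
    rw [abs_pow]
    exact pow_le_pow_left₀ (abs_nonneg _) (hB c) 2
  have := le_abs_self (lmean (fun c => f c ^ 2) p)
  nlinarith [sq_nonneg (lmean f p)]

open scoped Classical in
/-- **The normal law for bounded periodic functions.** -/
theorem normal_fun (n : ℕ) (u : ℝ) {ε : ℝ} (hε : 0 < ε) : ∃ K : ℕ,
    ∀ (F : ℕ → (Fin n → ℤ) → ℝ) (P : Finset ℕ) (B : ℝ) (y H : ℕ), 0 < B →
    (∀ p ∈ P, p.Prime ∧ p ≤ y) → (∀ p ∈ P, PerF (F p) p) → (∀ p ∈ P, ∀ c, |F p c| ≤ B) →
    K * B ^ 2 ≤ ∑ p ∈ P, lvar (F p) p → y ^ K ≤ H →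
    |prop H (fun c => ∑ p ∈ P, F p c ≤ ∑ p ∈ P, lmean (F p) p +
      u * √(∑ p ∈ P, lvar (F p) p)) - (gaussianReal 0 1).real (Set.Iic u)| ≤ ε := by
  obtain ⟨k, hk⟩ := unif_law2 (ι := Fin n) u hε
  refine ⟨4 * (k + 1) ^ 2, fun F P B y H hB0 hP hper hB hV hH => ?_⟩
  set V : ℝ := ∑ p ∈ P, lvar (F p) p with hVdef
  have hk0 : (0 : ℝ) ≤ k := Nat.cast_nonneg k
  have hV2 : (2 * B * ((k : ℝ) + 1)) ^ 2 ≤ V := by
    have := hV
    push_cast at this
    nlinarith
  have hV0 : 0 < V := lt_of_lt_of_le (by positivity) hV2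
  set σ : ℝ := √V with hσ
  have hσ0 : 0 < σ := Real.sqrt_pos.2 hV0
  have hσk : 2 * B * ((k : ℝ) + 1) ≤ σ := Real.le_sqrt_of_sq_le hV2
  have hσ2 : σ ^ 2 = V := Real.sq_sqrt hV0.le
  set Z : ∀ p : ℕ, (Fin n → ZMod p) → ℝ := fun p x => evF F p x - lmean (F p) p with hZ
  have hvv : ∀ p ∈ P, vv Z p = lvar (F p) p := by
    intro p hp
    have : NeZero p := ⟨(hP p hp).1.ne_zero⟩
    rw [vv_eq]
    have e : (fun x => Z p x ^ 2) = fun x => (evF (fun q c => F q c ^ 2) p x - 2 * lmean (F p) p * evF F p x) +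
        lmean (F p) p ^ 2 := by
      funext x
      rw [hZ]
      unfold evF
      ring
    rw [e, EM_add', EM_sub', EM_mul', EM_const', EM_evF, EM_evF]
    unfold lvar
    ring
  have hVP : VP Z P = V := by
    unfold VP
    rw [hVdef]
    exact Finset.sum_congr rfl hvv
  have hcardV : V ≤ P.card * B ^ 2 := by
    rw [hVdef]
    calc ∑ p ∈ P, lvar (F p) p ≤ ∑ _p ∈ P, B ^ 2 := by
          refine Finset.sum_le_sum fun p hp => ?_
          have : NeZero p := ⟨(hP p hp).1.ne_zero⟩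
          exact lvar_le _ (hB p hp)
      _ = P.card * B ^ 2 := by rw [Finset.sum_const, nsmul_eq_mul]
  have hKc : 4 * (k + 1) ^ 2 ≤ P.card := by
    have h1 : ((4 * (k + 1) ^ 2 : ℕ) : ℝ) * B ^ 2 ≤ P.card * B ^ 2 := hV.trans hcardV
    have h2 : ((4 * (k + 1) ^ 2 : ℕ) : ℝ) ≤ P.card := le_of_mul_le_mul_right h1 (by positivity)
    exact_mod_cast h2
  have hcard : P.card ≤ y := by
    have h1 : P ⊆ Finset.Icc 1 y := by
      intro p hp
      rw [Finset.mem_Icc]
      exact ⟨(hP p hp).1.pos, (hP p hp).2⟩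
    have h2 := Finset.card_le_card h1
    rwa [Nat.card_Icc, Nat.add_sub_cancel] at h2
  have hky : k ≤ y := by nlinarith
  have hSP : ∀ c, SP Z P c = ∑ p ∈ P, F p c - ∑ p ∈ P, lmean (F p) p := by
    intro c
    unfold SP
    rw [hZ]
    dsimp only
    rw [Finset.sum_sub_distrib]
    congr 1
    refine Finset.sum_congr rfl fun p hp => ?_
    have : NeZero p := ⟨(hP p hp).1.ne_zero⟩
    exact evF_red (hper p hp) c
  set D : Dat2 (Fin n) := ⟨P, y, H, Z, fun c => SP Z P c / σ, σ⟩ with hD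
  have hOk : D.Ok k := by
    refine ⟨fun p hp => (hP p hp).1, fun p hp => (hP p hp).2, hσ0, ?_, ?_, ?_, hky, ?_, ?_⟩
    · intro p hp x
      change |Z p x| ≤ σ / (k + 1)
      have : NeZero p := ⟨(hP p hp).1.ne_zero⟩
      have h1 : |Z p x| ≤ 2 * B := by
        rw [hZ]
        dsimp only
        have h2 : |evF F p x| ≤ B := hB p hp _
        have h3 : |lmean (F p) p| ≤ B := lmean_abs_le _ (hB p hp)
        calc |evF F p x - lmean (F p) p| ≤ |evF F p x| + |lmean (F p) p| := abs_sub _ _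
          _ ≤ 2 * B := by linarith
      refine h1.trans ?_
      rw [le_div_iff₀ (by positivity)]
      linarith
    · intro p hp _
      change EM p (Z p) = 0
      have e : Z p = fun x => evF F p x - lmean (F p) p := rfl
      rw [e, EM_sub', EM_const', EM_evF, sub_self]
    · change |VP Z P - σ ^ 2| ≤ σ ^ 2 / (k + 1)
      rw [hVP, hσ2, sub_self, abs_zero]
      positivity
    · change y ^ k ≤ H
      refine le_trans ?_ hH
      exact Nat.pow_le_pow_right (by nlinarith) (by nlinarith)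
    · change EB H (far (fun c => SP Z P c / σ) (fun c => SP Z P c / σ) (1 / (k + 1))) ≤ 1 / (k + 1)
      have e : far (fun c => SP Z P c / σ) (fun c => SP Z P c / σ) (1 / ((k : ℝ) + 1)) =
          fun _ : Fin n → ℤ => (0 : ℝ) := by
        funext c
        unfold far
        rw [sub_self, abs_zero, if_pos (by positivity)]
      rw [e, Pool.Agent.X280.BP.EB_const]
      positivity
  have h := hk D hOk
  refine le_trans (le_of_eq ?_) h
  congr 2
  change _ = (law H fun c => SP Z P c / σ).real (Set.Iic u)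
  rw [measureReal_def, law_apply _ _ _ measurableSet_Iic, ENNReal.toReal_ofReal (by positivity)]
  rw [prop_eq]
  unfold EB
  congr 1
  rw [← Finset.sum_filter, Finset.sum_const, nsmul_eq_mul, mul_one]
  congr 2
  ext c
  rw [Finset.mem_filter, Finset.mem_filter]
  refine and_congr_right fun _ => ?_
  rw [Set.mem_Iic, div_le_iff₀ hσ0, hSP]
  constructor
  · intro h; linarith
  · intro h; linarith

end Pool.Agent.U62.RB
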