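import Pool.Agent.U62.RB.Std
import Pool.Agent.X280.HG.Main

/-!
# The joint normal law for unbounded local functions with bounded fourth moments and general weights: preparations
-/

set_option autoImplicit false
set_option linter.unusedSectionVars false

namespace Pool.Agent.U62.RB

open Finset Filter Topology Pool.Agent.Y722.HS Pool.Agent.X280.BP Pool.Agent.X280.UC
  Pool.Agent.X280.HG Pool.Agent.U62.BM MeasureTheory ProbabilityTheory

theorem trunc_mul {A : ℝ} (hA : 1 ≤ A) (x y : ℝ) : |trunc A x * trunc A y - x * y| ≤ (x ^ 4 + y ^ 4) / A ^ 2 := by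
  have hA0 : 0 < A := by linarith
  have h0 : 0 ≤ (x ^ 4 + y ^ 4) / A ^ 2 := by positivity
  by_cases h : |x| ≤ A ∧ |y| ≤ A
  · unfold trunc
    rw [if_pos h.1, if_pos h.2, sub_self, abs_zero]
    exact h0
  · have hM : A < max |x| |y| := by
      rw [lt_max_iff]
      by_contra hc
      push Not at hc
      exact h hc
    have h1 : trunc A x * trunc A y = 0 := by
      unfold trunc
      by_cases hx : |x| ≤ A
      · have hy : ¬ |y| ≤ A := fun hy => h ⟨hx, hy⟩
        rw [if_neg hy, mul_zero]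
      · rw [if_neg hx, zero_mul]
    rw [h1, zero_sub, abs_neg, abs_mul, le_div_iff₀ (by positivity)]
    set M := max |x| |y| with hMd
    have hx : |x| ≤ M := le_max_left _ _
    have hy : |y| ≤ M := le_max_right _ _
    have hM0 : 0 ≤ M := (abs_nonneg x).trans hx
    have h2 : |x| * |y| ≤ M ^ 2 := by
      rw [sq]
      exact mul_le_mul hx hy (abs_nonneg _) hM0
    have h3 : A ^ 2 ≤ M ^ 2 := pow_le_pow_left₀ hA0.le hM.le 2
    have h4 : M ^ 4 ≤ x ^ 4 + y ^ 4 := by
      have e1 : |x| ^ 4 = x ^ 4 := by rw [← abs_pow, abs_of_nonneg (by positivity)]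
      have e2 : |y| ^ 4 = y ^ 4 := by rw [← abs_pow, abs_of_nonneg (by positivity)]
      have p1 : 0 ≤ x ^ 4 := by positivity
      have p2 : 0 ≤ y ^ 4 := by positivity
      rcases le_total |x| |y| with h5 | h5
      · rw [hMd, max_eq_right h5, e2]; linarith
      · rw [hMd, max_eq_left h5, e1]; linarith
    calc |x| * |y| * A ^ 2 ≤ M ^ 2 * M ^ 2 := mul_le_mul h2 h3 (by positivity) (by positivity)
      _ = M ^ 4 := by ring
      _ ≤ _ := h4

theorem resid_sq {A : ℝ} (hA : 1 ≤ A) (x : ℝ) : (x - trunc A x) ^ 2 ≤ x ^ 4 / A ^ 2 := by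
  have hA0 : 0 < A := by linarith
  unfold trunc
  split_ifs with h
  · rw [sub_self, zero_pow (by norm_num)]
    positivity
  · push Not at h
    rw [sub_zero, le_div_iff₀ (by positivity)]
    have h1 : A ^ 2 ≤ |x| ^ 2 := pow_le_pow_left₀ hA0.le h.le 2
    rw [sq_abs] at h1
    nlinarith [sq_nonneg x]

/-- `(E |f|)^2 ≤ E f^2`. -/
theorem EM_abs_sq {n : ℕ} (p : ℕ) [NeZero p] (f : (Fin n → ZMod p) → ℝ) :
    EM p (fun c => |f c|) ^ 2 ≤ EM p (fun c => f c ^ 2) := by
  set m := EM p (fun c => |f c|) with hm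
  have h := Pool.Agent.X280.BP.EM_mono' p (fun _ => (0 : ℝ)) (fun c => (|f c| - m) ^ 2) fun c => sq_nonneg _
  have e : (fun c => (|f c| - m) ^ 2) = fun c => (f c ^ 2 - 2 * m * |f c|) + m ^ 2 := by
    funext c
    rw [sub_sq, sq_abs]
    ring
  rw [e, Pool.Agent.X280.BP.EM_add' p (fun c => f c ^ 2 - 2 * m * |f c|) (fun _ => m ^ 2),
    Pool.Agent.X280.BP.EM_sub' p (fun c => f c ^ 2) (fun c => 2 * m * |f c|), EM_mul' p (2 * m) (fun c => |f c|),
    EM_const', EM_const', ← hm] at h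
  nlinarith

/-- The second moment over the box of a weighted sum of centred local functions. -/
theorem EB_sq {n : ℕ} (I : Finset ℕ) (Y : ∀ p : ℕ, (Fin n → ZMod p) → ℝ) (w : ℕ → ℝ) {B : ℝ} (hB : 0 ≤ B) {y H : ℕ}
    (hI : ∀ p ∈ I, p.Prime ∧ p ≤ y) (hw : ∀ p ∈ I, |w p| ≤ 1)
    (h1 : ∀ p ∈ I, ∀ [NeZero p], EM p (Y p) = 0) (h2 : ∀ p ∈ I, ∀ [NeZero p], EM p (fun c => Y p c ^ 2) ≤ B)
    (hH : y ^ 4 ≤ H) :
    EB H (fun c => (∑ p ∈ I, w p * Y p (red p c)) ^ 2) ≤ 2 ^ (n + 1) * B * (∑ p ∈ I, w p ^ 2 + 1) := by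
  classical
  have hHr : (y : ℝ) ^ 4 ≤ H := by exact_mod_cast hH
  have hH1 : (0 : ℝ) < 2 * H + 1 := by positivity
  have e1 : (fun c : Fin n → ℤ => (∑ p ∈ I, w p * Y p (red p c)) ^ 2) =
      fun c => ∑ p ∈ I, ∑ q ∈ I, w p * w q * (Y p (red p c) * Y q (red q c)) := by
    funext c
    rw [sq, Finset.sum_mul_sum]
    refine Finset.sum_congr rfl fun p _ => Finset.sum_congr rfl fun q _ => by ring
  rw [e1, Pool.Agent.X280.BP.EB_sum]
  have e2 : ∀ p ∈ I, EB H (fun c => ∑ q ∈ I, w p * w q * (Y p (red p c) * Y q (red q c))) ≤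
      2 ^ (n + 1) * B * w p ^ 2 + ∑ _q ∈ I, 2 ^ n * B * ((y : ℝ) ^ 2 / (2 * H + 1)) := by
    intro p hp
    have hpp := (hI p hp).1
    have : NeZero p := ⟨hpp.ne_zero⟩
    have hp0 : (0 : ℝ) < p := by exact_mod_cast hpp.pos
    have hpy : (p : ℝ) ≤ y := by exact_mod_cast (hI p hp).2
    have hy1 : (1 : ℝ) ≤ y := by
      have : (1 : ℝ) ≤ p := by exact_mod_cast hpp.one_lt.le
      linarith
    rw [Pool.Agent.X280.BP.EB_sum, ← Finset.add_sum_erase I _ hp]
    have hdiag : EB H (fun c => w p * w p * (Y p (red p c) * Y p (red p c))) ≤ 2 ^ (n + 1) * B * w p ^ 2 := by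
      rw [EB_mul_left]
      have h3 := EB_one_mod H p (by
        have h4 : p ≤ H := by
          calc p ≤ y := (hI p hp).2
            _ ≤ y ^ 4 := Nat.le_self_pow (by norm_num) y
            _ ≤ H := hH
        omega) (fun c => Y p c * Y p c)
      have e3 : (fun c : Fin n → ZMod p => Y p c * Y p c) = fun c => Y p c ^ 2 := by funext c; ring
      have e4 : (fun r : Fin n → ZMod p => |Y p r * Y p r|) = fun c => Y p c ^ 2 := by
        funext c
        rw [abs_mul_self]
        ring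
      rw [e4, e3, Fintype.card_fin] at h3
      have h5 := h2 p hp
      have h50 : 0 ≤ EM p (fun c => Y p c ^ 2) := by
        have := Pool.Agent.X280.BP.EM_mono' p (fun _ => (0 : ℝ)) (fun c => Y p c ^ 2) fun c => sq_nonneg _
        rwa [EM_const'] at this
      have h6 : (p : ℝ) / (2 * H + 1) ≤ 1 := by
        rw [div_le_one hH1]
        have : (y : ℝ) ≤ y ^ 4 := le_self_pow₀ hy1 (by norm_num)
        linarith
      have h7 : EB H (fun c => Y p (red p c) * Y p (red p c)) ≤ 2 ^ (n + 1) * B := by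
        have h8 := (abs_le.1 h3).2
        have h9 : (2 : ℝ) ^ n * ((p : ℝ) / (2 * H + 1)) * EM p (fun c => Y p c ^ 2) ≤ 2 ^ n * 1 * B := by
          refine mul_le_mul ?_ h5 h50 (by positivity)
          exact mul_le_mul_of_nonneg_left h6 (by positivity)
        have h10 : (1 : ℝ) ≤ 2 ^ n := one_le_pow₀ (by norm_num)
        rw [pow_succ]
        nlinarith
      calc w p * w p * EB H (fun c => Y p (red p c) * Y p (red p c)) ≤ w p * w p * (2 ^ (n + 1) * B) :=
            mul_le_mul_of_nonneg_left h7 (mul_self_nonneg _)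
        _ = _ := by ring
    have hoff : ∀ q ∈ I.erase p, EB H (fun c => w p * w q * (Y p (red p c) * Y q (red q c))) ≤
        2 ^ n * B * ((y : ℝ) ^ 2 / (2 * H + 1)) := by
      intro q hq
      have hqI := Finset.mem_of_mem_erase hq
      have hqp := (hI q hqI).1
      have : NeZero q := ⟨hqp.ne_zero⟩
      have hq0 : (0 : ℝ) < q := by exact_mod_cast hqp.pos
      have hqy : (q : ℝ) ≤ y := by exact_mod_cast (hI q hqI).2
      have hco : Nat.Coprime p q := (Nat.coprime_primes hpp hqp).2 (Finset.ne_of_mem_erase hq).symm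
      have hpq : (p : ℝ) * q ≤ y ^ 2 := by
        rw [sq]
        exact mul_le_mul hpy hqy hq0.le (by linarith)
      have hpq2 : p * q ≤ 2 * H + 1 := by
        have h3 : ((p * q : ℕ) : ℝ) ≤ (2 * H + 1 : ℕ) := by
          push_cast
          have : (y : ℝ) ^ 2 ≤ y ^ 4 := pow_le_pow_right₀ hy1 (by norm_num)
          linarith
        exact_mod_cast h3
      have h3 := EB_two H p q hco hpq2 (Y p) (Y q)
      rw [h1 p hp, h1 q hqI, mul_zero, sub_zero, Fintype.card_fin] at h3
      have h4 : EM p (fun r => |Y p r|) * EM q (fun r => |Y q r|) ≤ B := by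
        have s1 := (EM_abs_sq p (Y p)).trans (h2 p hp)
        have s2 := (EM_abs_sq q (Y q)).trans (h2 q hqI)
        nlinarith [sq_nonneg (EM p (fun r => |Y p r|) - EM q (fun r => |Y q r|))]
      have h5 : |EB H (fun c => Y p (red p c) * Y q (red q c))| ≤ 2 ^ n * B * ((y : ℝ) ^ 2 / (2 * H + 1)) := by
        refine h3.trans ?_
        have h6 : (2 : ℝ) ^ n * ((p : ℝ) * q / (2 * H + 1)) ≤ 2 ^ n * ((y : ℝ) ^ 2 / (2 * H + 1)) :=
          mul_le_mul_of_nonneg_left (div_le_div_of_nonneg_right hpq hH1.le) (by positivity)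
        have h7 : 0 ≤ EM p (fun r => |Y p r|) * EM q (fun r => |Y q r|) := by
          have t1 := Pool.Agent.X280.BP.EM_mono' p (fun _ => (0 : ℝ)) (fun c => |Y p c|) fun c => abs_nonneg _
          have t2 := Pool.Agent.X280.BP.EM_mono' q (fun _ => (0 : ℝ)) (fun c => |Y q c|) fun c => abs_nonneg _
          rw [EM_const'] at t1 t2
          exact mul_nonneg t1 t2
        calc (2 : ℝ) ^ n * ((p : ℝ) * q / (2 * H + 1)) * (EM p (fun r => |Y p r|) * EM q (fun r => |Y q r|)) ≤
            2 ^ n * ((y : ℝ) ^ 2 / (2 * H + 1)) * B := mul_le_mul h6 h4 h7 (by positivity)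
          _ = _ := by ring
      rw [EB_mul_left]
      refine (le_abs_self _).trans ?_
      rw [abs_mul]
      have h8 : |w p * w q| ≤ 1 := by
        rw [abs_mul]
        have := hw p hp
        have := hw q hqI
        have := abs_nonneg (w p)
        have := abs_nonneg (w q)
        nlinarith
      calc |w p * w q| * |EB H (fun c => Y p (red p c) * Y q (red q c))| ≤
          1 * |EB H (fun c => Y p (red p c) * Y q (red q c))| := mul_le_mul_of_nonneg_right h8 (abs_nonneg _)
        _ ≤ _ := by rw [one_mul]; exact h5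
    refine add_le_add hdiag ((Finset.sum_le_sum hoff).trans ?_)
    exact Finset.sum_le_sum_of_subset_of_nonneg (Finset.erase_subset _ _) fun _ _ _ => by positivity
  refine (Finset.sum_le_sum e2).trans ?_
  rw [Finset.sum_add_distrib, ← Finset.mul_sum, Finset.sum_const, Finset.sum_const, nsmul_eq_mul, nsmul_eq_mul]
  have hcard : (I.card : ℝ) ≤ y := by
    have h3 : I ⊆ Finset.Icc 1 y := fun p hp => Finset.mem_Icc.2 ⟨(hI p hp).1.pos, (hI p hp).2⟩
    have h4 := Finset.card_le_card h3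
    rw [Nat.card_Icc, Nat.add_sub_cancel] at h4
    exact_mod_cast h4
  have hc0 : (0 : ℝ) ≤ I.card := Nat.cast_nonneg _
  have h5 : (I.card : ℝ) * (I.card * (2 ^ n * B * ((y : ℝ) ^ 2 / (2 * H + 1)))) ≤ 2 ^ (n + 1) * B := by
    have h6 : (I.card : ℝ) * I.card ≤ y ^ 2 := by
      rw [sq]
      exact mul_le_mul hcard hcard hc0 (by linarith)
    have h7 : (I.card : ℝ) * I.card * ((y : ℝ) ^ 2 / (2 * H + 1)) ≤ 1 := by
      rw [mul_div_assoc', div_le_one hH1]
      have h8 : (I.card : ℝ) * I.card * (y : ℝ) ^ 2 ≤ y ^ 2 * y ^ 2 := mul_le_mul_of_nonneg_right h6 (by positivity)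
      have e : (y : ℝ) ^ 2 * y ^ 2 = y ^ 4 := by ring
      linarith
    calc (I.card : ℝ) * (I.card * (2 ^ n * B * ((y : ℝ) ^ 2 / (2 * H + 1)))) =
        2 ^ n * B * (I.card * I.card * ((y : ℝ) ^ 2 / (2 * H + 1))) := by ring
      _ ≤ 2 ^ n * B * 1 := mul_le_mul_of_nonneg_left h7 (by positivity)
      _ ≤ 2 ^ (n + 1) * B := by
          rw [pow_succ]
          have : 0 ≤ (2 : ℝ) ^ n * B := by positivity
          linarith
  nlinarith

/-- Functions of the residues. -/
theorem lmean_red {n : ℕ} (p : ℕ) [NeZero p] (g : (Fin n → ZMod p) → ℝ) :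
    lmean (fun c => g (red p c)) p = EM p g := by
  rw [← EM_evF (fun _ c => g (red p c)) p]
  congr 1
  funext x
  show g (fun i => (((x i).val : ℤ) : ZMod p)) = g x
  congr 1
  funext i
  rw [Int.cast_natCast, ZMod.natCast_zmod_val]

theorem perF_red {n : ℕ} (p : ℕ) (g : (Fin n → ZMod p) → ℝ) : PerF (fun c => g (red p c)) p := by
  intro c c' h
  show g (red p c) = g (red p c')
  congr 1
  funext i
  unfold red
  exact (ZMod.intCast_eq_intCast_iff_dvd_sub _ _ _).2 (by
    have := h i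
    rw [← dvd_neg]
    rwa [neg_sub])

end Pool.Agent.U62.RB
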