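import Pool.Agent.U62.RB.Gen

/-!
# The joint normal law for unbounded local functions with bounded fourth moments and general weights
-/

set_option autoImplicit false
set_option linter.unusedSectionVars false

namespace Pool.Agent.U62.RB

open Finset Filter Topology Pool.Agent.Y722.HS Pool.Agent.X280.BP Pool.Agent.X280.UC
  Pool.Agent.X280.HG Pool.Agent.U62.BM MeasureTheory ProbabilityTheory

/-- Local data: means `μ`, covariances `g`, bounded fourth moments. -/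
structure LDk {n k : ℕ} (U : Fin k → ∀ p : ℕ, (Fin n → ZMod p) → ℝ) (μ : Fin k → ℝ) (g : Fin k → Fin k → ℝ) (C : ℝ) :
    Prop where
  C1 : 1 ≤ C
  m1 : ∀ i p, p.Prime → ∀ [NeZero p], |EM p (U i p) - μ i| ≤ C / p
  m2 : ∀ i j p, p.Prime → ∀ [NeZero p], |EM p (fun c => U i p c * U j p c) - (μ i * μ j + g i j)| ≤ C / p
  m4 : ∀ i p, p.Prime → ∀ [NeZero p], EM p (fun c => U i p c ^ 4) ≤ C

variable {n k : ℕ} {U : Fin k → ∀ p : ℕ, (Fin n → ZMod p) → ℝ} {μ : Fin k → ℝ} {g : Fin k → Fin k → ℝ} {C : ℝ}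

theorem EM_nonneg' (p : ℕ) [NeZero p] (f : (Fin n → ZMod p) → ℝ) (h : ∀ c, 0 ≤ f c) : 0 ≤ EM p f := by
  have := Pool.Agent.X280.BP.EM_mono' p (fun _ => (0 : ℝ)) f h
  rwa [EM_const'] at this

theorem LDk.mean_le (h : LDk U μ g C) (i : Fin k) (p : ℕ) (hp : p.Prime) [NeZero p] : |EM p (U i p)| ≤ C := by
  have hC := h.C1
  have h1 : |EM p (U i p)| ≤ EM p (fun c => (U i p c ^ 4 + 3) / 4) := by
    refine Pool.Agent.X280.BP.EM_abs_le p _ _ fun c => ?_
    set x := U i p c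
    have h2 : 0 ≤ |x| := abs_nonneg x
    have h3 : x ^ 4 = |x| ^ 4 := by rw [← abs_pow, abs_of_nonneg (by positivity)]
    rw [h3]
    nlinarith [sq_nonneg (|x| ^ 2 - 1), sq_nonneg (|x| - 1)]
  have e : (fun c => (U i p c ^ 4 + 3) / 4) = fun c => 1 / 4 * U i p c ^ 4 + 3 / 4 := by funext c; ring
  rw [e, Pool.Agent.X280.BP.EM_add' p (fun c => 1 / 4 * U i p c ^ 4) (fun _ => 3 / 4), EM_mul' p (1 / 4) (fun c => U i p c ^ 4),
    EM_const'] at h1
  have := h.m4 i p hp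
  linarith

/-- The truncated local functions. -/
noncomputable def TT (U : Fin k → ∀ p : ℕ, (Fin n → ZMod p) → ℝ) (A : ℝ) (i : Fin k) (p : ℕ) (c : Fin n → ZMod p) : ℝ :=
  trunc A (U i p c)

theorem LDk.tmean (h : LDk U μ g C) {A : ℝ} (hA : 1 ≤ A) (i : Fin k) (p : ℕ) (hp : p.Prime) [NeZero p] :
    |EM p (TT U A i p) - EM p (U i p)| ≤ C / A ^ 2 := by
  have hA0 : 0 < A := by linarith
  rw [← Pool.Agent.X280.BP.EM_sub' p (TT U A i p) (U i p)]
  refine (Pool.Agent.X280.BP.EM_abs_le p _ (fun c => 1 / A ^ 2 * U i p c ^ 4) fun c => ?_).trans ?_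
  · refine (trunc_diff hA0 (U i p c)).trans ?_
    have h1 : A ^ 2 ≤ A ^ 3 := pow_le_pow_right₀ hA (by norm_num)
    have h2 : 0 ≤ U i p c ^ 4 := by positivity
    calc U i p c ^ 4 / A ^ 3 ≤ U i p c ^ 4 / A ^ 2 := div_le_div_of_nonneg_left h2 (by positivity) h1
      _ = _ := by ring
  · rw [EM_mul' p (1 / A ^ 2) (fun c => U i p c ^ 4)]
    have := h.m4 i p hp
    calc 1 / A ^ 2 * EM p (fun c => U i p c ^ 4) ≤ 1 / A ^ 2 * C := mul_le_mul_of_nonneg_left this (by positivity)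
      _ = _ := by ring

theorem LDk.tcov (h : LDk U μ g C) {A : ℝ} (hA : 1 ≤ A) (i j : Fin k) (p : ℕ) (hp : p.Prime) [NeZero p] :
    |(EM p (fun c => TT U A i p c * TT U A j p c) - EM p (TT U A i p) * EM p (TT U A j p)) - g i j| ≤
      6 * C ^ 2 / A ^ 2 + 6 * C ^ 2 / p := by
  have hC := h.C1
  have hA0 : 0 < A := by linarith
  have hp1 : (1 : ℝ) ≤ p := by exact_mod_cast hp.one_lt.le
  have hp0 : (0 : ℝ) < p := by linarith
  have hA2 : 1 ≤ A ^ 2 := one_le_pow₀ hA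
  -- products
  have a1 : |EM p (fun c => TT U A i p c * TT U A j p c) - EM p (fun c => U i p c * U j p c)| ≤ 2 * C / A ^ 2 := by
    rw [← Pool.Agent.X280.BP.EM_sub' p (fun c => TT U A i p c * TT U A j p c) (fun c => U i p c * U j p c)]
    refine (Pool.Agent.X280.BP.EM_abs_le p _ (fun c => 1 / A ^ 2 * (U i p c ^ 4 + U j p c ^ 4)) fun c => ?_).trans ?_
    · refine (trunc_mul hA (U i p c) (U j p c)).trans (le_of_eq ?_)
      ring
    · rw [EM_mul' p (1 / A ^ 2) (fun c => U i p c ^ 4 + U j p c ^ 4),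
        Pool.Agent.X280.BP.EM_add' p (fun c => U i p c ^ 4) (fun c => U j p c ^ 4)]
      have h1 := h.m4 i p hp
      have h2 := h.m4 j p hp
      calc 1 / A ^ 2 * (EM p (fun c => U i p c ^ 4) + EM p (fun c => U j p c ^ 4)) ≤ 1 / A ^ 2 * (C + C) :=
            mul_le_mul_of_nonneg_left (by linarith) (by positivity)
        _ = _ := by ring
  obtain ⟨x, hx⟩ : ∃ x, x = EM p (U i p) := ⟨_, rfl⟩
  obtain ⟨y, hy⟩ : ∃ y, y = EM p (U j p) := ⟨_, rfl⟩
  obtain ⟨x', hx'⟩ : ∃ x', x' = EM p (TT U A i p) := ⟨_, rfl⟩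
  obtain ⟨y', hy'⟩ : ∃ y', y' = EM p (TT U A j p) := ⟨_, rfl⟩
  obtain ⟨z, hz⟩ : ∃ z, z = EM p (fun c => U i p c * U j p c) := ⟨_, rfl⟩
  obtain ⟨z', hz'⟩ : ∃ z', z' = EM p (fun c => TT U A i p c * TT U A j p c) := ⟨_, rfl⟩
  have b1 : |x| ≤ C := hx ▸ h.mean_le i p hp
  have b2 : |y| ≤ C := hy ▸ h.mean_le j p hp
  have b3 : |x' - x| ≤ C / A ^ 2 := by rw [hx, hx']; exact h.tmean hA i p hp
  have b4 : |y' - y| ≤ C / A ^ 2 := by rw [hy, hy']; exact h.tmean hA j p hp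
  have b5 : |x - μ i| ≤ C / p := hx ▸ h.m1 i p hp
  have b6 : |y - μ j| ≤ C / p := hy ▸ h.m1 j p hp
  have b7 : |z - (μ i * μ j + g i j)| ≤ C / p := hz ▸ h.m2 i j p hp
  rw [← hz, ← hz'] at a1
  rw [← hz', ← hx', ← hy']
  have hCA : C / A ^ 2 ≤ C := div_le_self (by linarith) hA2
  have hCp : C / p ≤ C := div_le_self (by linarith) hp1
  have c1 : |x'| ≤ 2 * C := by
    have : x' = (x' - x) + x := by ring
    rw [this]
    exact (abs_add_le _ _).trans (by linarith)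
  have c2 : |μ j| ≤ 2 * C := by
    have : μ j = y - (y - μ j) := by ring
    rw [this]
    exact (abs_sub _ _).trans (by linarith)
  have d1 : |x' * y' - x * y| ≤ 3 * C ^ 2 / A ^ 2 := by
    have e : x' * y' - x * y = x' * (y' - y) + (x' - x) * y := by ring
    rw [e]
    refine (abs_add_le _ _).trans ?_
    rw [abs_mul, abs_mul]
    have t1 : |x'| * |y' - y| ≤ 2 * C * (C / A ^ 2) := mul_le_mul c1 b4 (abs_nonneg _) (by linarith)
    have t2 : |x' - x| * |y| ≤ C / A ^ 2 * C := mul_le_mul b3 b2 (abs_nonneg _) (by positivity)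
    have e2 : 3 * C ^ 2 / A ^ 2 = 2 * C * (C / A ^ 2) + C / A ^ 2 * C := by ring
    rw [e2]
    exact add_le_add t1 t2
  have d2 : |x * y - μ i * μ j| ≤ 3 * C ^ 2 / p := by
    have e : x * y - μ i * μ j = x * (y - μ j) + (x - μ i) * μ j := by ring
    rw [e]
    refine (abs_add_le _ _).trans ?_
    rw [abs_mul, abs_mul]
    have t1 : |x| * |y - μ j| ≤ C * (C / p) := mul_le_mul b1 b6 (abs_nonneg _) (by linarith)
    have t2 : |x - μ i| * |μ j| ≤ C / p * (2 * C) := mul_le_mul b5 c2 (abs_nonneg _) (by positivity)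
    have e2 : 3 * C ^ 2 / p = C * (C / p) + C / p * (2 * C) := by ring
    rw [e2]
    exact add_le_add t1 t2
  have e : z' - x' * y' - g i j = (z' - z) + (z - (μ i * μ j + g i j)) - (x' * y' - x * y) - (x * y - μ i * μ j) := by ring
  rw [e]
  have f1 : |(z' - z) + (z - (μ i * μ j + g i j)) - (x' * y' - x * y) - (x * y - μ i * μ j)| ≤
      2 * C / A ^ 2 + C / p + 3 * C ^ 2 / A ^ 2 + 3 * C ^ 2 / p := by
    refine (abs_sub _ _).trans ?_
    refine add_le_add ?_ d2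
    refine (abs_sub _ _).trans ?_
    refine add_le_add ?_ d1
    exact (abs_add_le _ _).trans (add_le_add a1 b7)
  refine f1.trans ?_
  have g1 : 2 * C / A ^ 2 ≤ 3 * C ^ 2 / A ^ 2 := div_le_div_of_nonneg_right (by nlinarith) (by positivity)
  have g2 : C / p ≤ 3 * C ^ 2 / p := div_le_div_of_nonneg_right (by nlinarith) hp0.le
  have e3 : 6 * C ^ 2 / A ^ 2 + 6 * C ^ 2 / p = 3 * C ^ 2 / A ^ 2 + 3 * C ^ 2 / p + 3 * C ^ 2 / A ^ 2 + 3 * C ^ 2 / p := by ring
  rw [e3]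
  linarith

/-- The centred residuals. -/
noncomputable def YY (U : Fin k → ∀ p : ℕ, (Fin n → ZMod p) → ℝ) (A : ℝ) (i : Fin k) (p : ℕ) (c : Fin n → ZMod p) : ℝ :=
  (U i p c - TT U A i p c) - (if h : p = 0 then 0 else haveI : NeZero p := ⟨h⟩; EM p (fun c => U i p c - TT U A i p c))

theorem YY_eq (A : ℝ) (i : Fin k) (p : ℕ) [hp : NeZero p] (c : Fin n → ZMod p) :
    YY U A i p c = (U i p c - TT U A i p c) - EM p (fun c => U i p c - TT U A i p c) := by
  unfold YY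
  rw [dif_neg hp.out]

theorem YY_mean (A : ℝ) (i : Fin k) (p : ℕ) [hp : NeZero p] : EM p (YY U A i p) = 0 := by
  have e : YY U A i p = fun c => (U i p c - TT U A i p c) - EM p (fun c => U i p c - TT U A i p c) := by
    funext c
    exact YY_eq A i p c
  rw [e, Pool.Agent.X280.BP.EM_sub' p (fun c => U i p c - TT U A i p c) (fun _ => _), EM_const', sub_self]

theorem LDk.YY_sq (h : LDk U μ g C) {A : ℝ} (hA : 1 ≤ A) (i : Fin k) (p : ℕ) (hp : p.Prime) [NeZero p] :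
    EM p (fun c => YY U A i p c ^ 2) ≤ C / A ^ 2 := by
  have hA0 : 0 < A := by linarith
  obtain ⟨m, hm⟩ : ∃ m, m = EM p (fun c => U i p c - TT U A i p c) := ⟨_, rfl⟩
  have e : (fun c => YY U A i p c ^ 2) = fun c => (U i p c - TT U A i p c) ^ 2 - 2 * m * (U i p c - TT U A i p c) + m ^ 2 := by
    funext c
    rw [YY_eq, ← hm]
    ring
  rw [e, Pool.Agent.X280.BP.EM_add' p (fun c => (U i p c - TT U A i p c) ^ 2 - 2 * m * (U i p c - TT U A i p c)) (fun _ => m ^ 2),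
    Pool.Agent.X280.BP.EM_sub' p (fun c => (U i p c - TT U A i p c) ^ 2) (fun c => 2 * m * (U i p c - TT U A i p c)),
    EM_mul' p (2 * m) (fun c => U i p c - TT U A i p c), EM_const', ← hm]
  have h1 : EM p (fun c => (U i p c - TT U A i p c) ^ 2) ≤ C / A ^ 2 := by
    have h2 := Pool.Agent.X280.BP.EM_mono' p (fun c => (U i p c - TT U A i p c) ^ 2) (fun c => 1 / A ^ 2 * U i p c ^ 4)
      fun c => (resid_sq hA (U i p c)).trans (le_of_eq (by ring))
    rw [EM_mul' p (1 / A ^ 2) (fun c => U i p c ^ 4)] at h2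
    have := h.m4 i p hp
    calc EM p (fun c => (U i p c - TT U A i p c) ^ 2) ≤ 1 / A ^ 2 * EM p (fun c => U i p c ^ 4) := h2
      _ ≤ 1 / A ^ 2 * C := mul_le_mul_of_nonneg_left this (by positivity)
      _ = _ := by ring
  nlinarith [sq_nonneg m]

end Pool.Agent.U62.RB
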