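import Pool.Agent.U62.RB.Gen2

/-!
# The joint normal law for unbounded local functions with bounded fourth moments and general weights
-/

set_option autoImplicit false
set_option linter.unusedSectionVars false

namespace Pool.Agent.U62.RB

open Finset Filter Topology Pool.Agent.Y722.HS Pool.Agent.X280.BP Pool.Agent.X280.UC
  Pool.Agent.X280.HG Pool.Agent.U62.BM MeasureTheory ProbabilityTheory

/-- Sums with `1 / p`. -/
theorem sum_div_le (P : Finset ℕ) (a : ℕ → ℝ) {W S : ℝ} (ha : ∀ p ∈ P, 0 ≤ a p ∧ a p ≤ 1) (hW : ∑ p ∈ P, a p ≤ W)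
    (hP : ∀ p ∈ P, p.Prime) {T : ℕ} (hT : 1 ≤ T) (hS : (T : ℝ) + W / T ≤ S) : ∑ p ∈ P, a p / p ≤ S := by
  have hT0 : (0 : ℝ) < T := by exact_mod_cast hT
  calc ∑ p ∈ P, a p / p ≤ ∑ p ∈ P, ((if p < T then (1 : ℝ) else 0) + a p * (1 / T)) := by
        refine Finset.sum_le_sum fun p hp => ?_
        have hp1 : (1 : ℝ) ≤ p := by exact_mod_cast (hP p hp).one_lt.le
        obtain ⟨h0, h1⟩ := ha p hp
        split_ifs with h
        · have h2 : a p / p ≤ 1 := by
            rw [div_le_one (by linarith)]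
            linarith
          have h3 : (0 : ℝ) ≤ a p * (1 / T) := by positivity
          linarith
        · have h2 : (T : ℝ) ≤ p := by
            push Not at h
            exact_mod_cast h
          rw [zero_add, div_eq_mul_one_div]
          exact mul_le_mul_of_nonneg_left (one_div_le_one_div_of_le hT0 h2) h0
    _ ≤ T + W / T := by
        rw [Finset.sum_add_distrib, ← Finset.sum_mul]
        have h1 : ∑ p ∈ P, (if p < T then (1 : ℝ) else 0) ≤ T := by
          rw [← Finset.sum_filter, Finset.sum_const, nsmul_eq_mul, mul_one]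
          have : (P.filter fun p => p < T).card ≤ T := by
            calc (P.filter fun p => p < T).card ≤ (range T).card := by
                  refine Finset.card_le_card fun p hp => ?_
                  rw [Finset.mem_filter] at hp
                  exact Finset.mem_range.2 hp.2
              _ = T := Finset.card_range T
          exact_mod_cast this
        have h2 : (∑ p ∈ P, a p) * (1 / T) ≤ W / T := by
          rw [mul_one_div]
          exact div_le_div_of_nonneg_right hW hT0.le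
        exact add_le_add h1 h2
    _ ≤ S := hS

/-- The sum of `1 / p ^ 2` over numbers `≥ T`. -/
theorem sum_sq_tail (P : Finset ℕ) {T : ℕ} (hT : 2 ≤ T) (hP : ∀ p ∈ P, T ≤ p) : ∑ p ∈ P, (1 : ℝ) / (p : ℝ) ^ 2 ≤ 1 / (T - 1) := by
  obtain ⟨N, hN⟩ : ∃ N : ℕ, ∀ p ∈ P, p < N := ⟨P.sup id + 1, fun p hp => Nat.lt_succ_of_le (Finset.le_sup (f := id) hp)⟩
  have h1 : ∑ p ∈ P, (1 : ℝ) / (p : ℝ) ^ 2 ≤ ∑ p ∈ Finset.Ico T N, (1 : ℝ) / (p : ℝ) ^ 2 :=
    Finset.sum_le_sum_of_subset_of_nonneg (fun p hp => Finset.mem_Ico.2 ⟨hP p hp, hN p hp⟩) fun _ _ _ => by positivity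
  have hT1 : (1 : ℝ) < T := by exact_mod_cast (by omega : 1 < T)
  rcases le_or_gt N T with h | h
  · rw [Finset.Ico_eq_empty (by omega), Finset.sum_empty] at h1
    exact h1.trans (by
      have : (0 : ℝ) < T - 1 := by linarith
      positivity)
  · have h2 : ∀ M : ℕ, T ≤ M → ∑ p ∈ Finset.Ico T M, (1 : ℝ) / (p : ℝ) ^ 2 ≤ 1 / ((T : ℝ) - 1) - 1 / ((M : ℝ) - 1) := by
      intro M hM
      induction M, hM using Nat.le_induction with
      | base => simp
      | succ M hM ih =>
        rw [Finset.sum_Ico_succ_top hM]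
        have hM1 : (1 : ℝ) < M := by exact_mod_cast (by omega : 1 < M)
        have h3 : (1 : ℝ) / (M : ℝ) ^ 2 ≤ 1 / ((M : ℝ) - 1) - 1 / (((M + 1 : ℕ) : ℝ) - 1) := by
          push_cast
          have e : (1 : ℝ) / ((M : ℝ) - 1) - 1 / ((M : ℝ) + 1 - 1) = 1 / (((M : ℝ) - 1) * M) := by
            have : (M : ℝ) - 1 ≠ 0 := by linarith
            have : (M : ℝ) ≠ 0 := by linarith
            rw [add_sub_cancel_right]
            field_simp
            ring
          rw [e]
          refine one_div_le_one_div_of_le ?_ ?_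
          · have : (0 : ℝ) < M - 1 := by linarith
            positivity
          · nlinarith
        linarith
    have h3 := h2 N h.le
    have h4 : (0 : ℝ) ≤ 1 / ((N : ℝ) - 1) := by
      have : (1 : ℝ) < N := by
        have : (T : ℝ) < N := by exact_mod_cast h
        linarith
      have : (0 : ℝ) < N - 1 := by linarith
      positivity
    linarith

/-- Weighted sums with `1 / p`. -/
theorem sum_abs_div (P : Finset ℕ) (w : ℕ → ℝ) {V C : ℝ} (hV : 0 < V) (hC : 1 ≤ C) (hw : ∀ p ∈ P, |w p| ≤ 1)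
    (hW : ∑ p ∈ P, w p ^ 2 ≤ C * V) (hP : ∀ p ∈ P, p.Prime) {T : ℕ} (hT : 2 ≤ T) :
    ∑ p ∈ P, |w p| / p ≤ T + C * √V / √((T : ℝ) - 1) := by
  have hT1 : (0 : ℝ) < (T : ℝ) - 1 := by
    have : (1 : ℝ) < T := by exact_mod_cast (by omega : 1 < T)
    linarith
  rw [← Finset.sum_filter_add_sum_filter_not P (fun p => p < T)]
  have h1 : ∑ p ∈ P.filter (fun p => p < T), |w p| / p ≤ T := by
    calc ∑ p ∈ P.filter (fun p => p < T), |w p| / p ≤ ∑ _p ∈ P.filter (fun p => p < T), (1 : ℝ) := by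
          refine Finset.sum_le_sum fun p hp => ?_
          have hp := (Finset.mem_filter.1 hp).1
          have hp1 : (1 : ℝ) ≤ p := by exact_mod_cast (hP p hp).one_lt.le
          rw [div_le_one (by linarith)]
          exact (hw p hp).trans hp1
      _ ≤ T := by
          rw [Finset.sum_const, nsmul_eq_mul, mul_one]
          have : (P.filter fun p => p < T).card ≤ T := by
            calc (P.filter fun p => p < T).card ≤ (range T).card := by
                  refine Finset.card_le_card fun p hp => ?_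
                  rw [Finset.mem_filter] at hp
                  exact Finset.mem_range.2 hp.2
              _ = T := Finset.card_range T
          exact_mod_cast this
  have hs : 0 < √V := Real.sqrt_pos.2 hV
  have hs2 : √V ^ 2 = V := Real.sq_sqrt hV.le
  have ht : 0 < √((T : ℝ) - 1) := Real.sqrt_pos.2 hT1
  have ht2 : √((T : ℝ) - 1) ^ 2 = (T : ℝ) - 1 := Real.sq_sqrt hT1.le
  have h2 : ∑ p ∈ P.filter (fun p => ¬ p < T), |w p| / p ≤ C * √V / √((T : ℝ) - 1) := by
    obtain ⟨l, hl⟩ : ∃ l : ℝ, l = 1 / (√V * √((T : ℝ) - 1)) := ⟨_, rfl⟩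
    have hl0 : 0 < l := by rw [hl]; positivity
    have h3 : ∀ p ∈ P.filter (fun p => ¬ p < T), |w p| / p ≤ l / 2 * w p ^ 2 + 1 / (2 * l) * (1 / (p : ℝ) ^ 2) := by
      intro p hp
      have hp := (Finset.mem_filter.1 hp).1
      have hp0 : (0 : ℝ) < p := by exact_mod_cast (hP p hp).pos
      have h4 : 0 ≤ (l * |w p| - 1 / p) ^ 2 := sq_nonneg _
      have e : l / 2 * w p ^ 2 + 1 / (2 * l) * (1 / (p : ℝ) ^ 2) - |w p| / p = (l * |w p| - 1 / p) ^ 2 / (2 * l) := by
        rw [sub_sq, mul_pow, sq_abs]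
        field_simp
        ring
      have h5 : 0 ≤ (l * |w p| - 1 / p) ^ 2 / (2 * l) := by positivity
      linarith
    refine (Finset.sum_le_sum h3).trans ?_
    rw [Finset.sum_add_distrib, ← Finset.mul_sum, ← Finset.mul_sum]
    have h4 : ∑ p ∈ P.filter (fun p => ¬ p < T), w p ^ 2 ≤ C * V :=
      (Finset.sum_le_sum_of_subset_of_nonneg (Finset.filter_subset _ _) fun _ _ _ => sq_nonneg _).trans hW
    have h5 : ∑ p ∈ P.filter (fun p => ¬ p < T), (1 : ℝ) / (p : ℝ) ^ 2 ≤ 1 / (T - 1) :=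
      sum_sq_tail _ hT fun p hp => by
        have := (Finset.mem_filter.1 hp).2
        omega
    have h6 : l / 2 * ∑ p ∈ P.filter (fun p => ¬ p < T), w p ^ 2 ≤ l / 2 * (C * V) :=
      mul_le_mul_of_nonneg_left h4 (by positivity)
    have h7 : 1 / (2 * l) * ∑ p ∈ P.filter (fun p => ¬ p < T), (1 : ℝ) / (p : ℝ) ^ 2 ≤ 1 / (2 * l) * (1 / (T - 1)) :=
      mul_le_mul_of_nonneg_left h5 (by positivity)
    have e1 : l / 2 * (C * V) = C / 2 * (√V / √((T : ℝ) - 1)) := by
      rw [hl]
      nth_rewrite 2 [← hs2]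
      field_simp
    have e2 : 1 / (2 * l) * (1 / ((T : ℝ) - 1)) = 1 / 2 * (√V / √((T : ℝ) - 1)) := by
      have h8 : 1 / ((T : ℝ) - 1) = 1 / √((T : ℝ) - 1) ^ 2 := by rw [ht2]
      rw [h8, hl]
      field_simp
    have hq : 0 ≤ √V / √((T : ℝ) - 1) := by positivity
    have e3 : C * √V / √((T : ℝ) - 1) = C * (√V / √((T : ℝ) - 1)) := by ring
    rw [e1] at h6
    rw [e2] at h7
    rw [e3]
    nlinarith
  exact add_le_add h1 h2

open scoped Classical in
/-- **The joint normal law for unbounded local functions with bounded fourth moments and general weights.** -/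
theorem joint_gen (n k : ℕ) (C : ℝ) (u : Fin k → ℝ) {ε : ℝ} (hε : 0 < ε) : ∃ K : ℕ, 1 ≤ K ∧
    ∀ (U : Fin k → ∀ p : ℕ, (Fin n → ZMod p) → ℝ) (μ : Fin k → ℝ) (g : Fin k → Fin k → ℝ), LDk U μ g C →
    ∀ (P : Finset ℕ) (w : Fin k → ℕ → ℝ) (V : ℝ) (y H : ℕ),
    (∀ p ∈ P, p.Prime ∧ p ≤ y) → 1 ≤ y → (∀ i, ∀ p ∈ P, |w i p| ≤ 1) → K ≤ V →
    (∀ i, ∑ p ∈ P, w i p ^ 2 ≤ C * V) →
    (∀ i j, |∑ p ∈ P, w i p * w j p * g i j - if i = j then V else 0| ≤ V / K) → y ^ K ≤ H →
    |prop H (fun c => ∀ i, ∑ p ∈ P, w i p * (U i p (red p c) - μ i) ≤ u i * √V) -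
      ∏ i, (gaussianReal 0 1).real (Set.Iic (u i))| ≤ ε := by
  by_cases hC1 : 1 ≤ C
  swap
  · exact ⟨1, le_rfl, fun U μ g h => absurd h.C1 hC1⟩
  obtain ⟨K1, hK1⟩ := joint_near n k (orth u) (orth_closed u).measurableSet (orth_frontier u) hε
  set L : ℝ := (K1 : ℝ) + 1 with hL
  have hL1 : 1 ≤ L := by
    rw [hL]
    have : (0 : ℝ) ≤ K1 := Nat.cast_nonneg K1
    linarith
  have hL0 : 0 < L := by linarith
  have hC0 : 0 < C := by linarith
  -- the level of truncation
  obtain ⟨A, hA1, hA2, hA3⟩ : ∃ A : ℝ, 1 ≤ A ∧ 6 * C ^ 3 / A ^ 2 ≤ 1 / (8 * L) ∧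
      2 ^ (n + 1) * (C / A ^ 2) * (C + 1) * (4 * L ^ 2) ≤ 1 / L := by
    obtain ⟨N, hN⟩ := exists_nat_ge (1 + 48 * C ^ 3 * L + 2 ^ (n + 1) * C * (C + 1) * (4 * L ^ 2) * L)
    have t1 : 0 ≤ 48 * C ^ 3 * L := by positivity
    have t2 : 0 ≤ 2 ^ (n + 1) * C * (C + 1) * (4 * L ^ 2) * L := by positivity
    have hN1 : (1 : ℝ) ≤ N := by linarith
    have hNN : (N : ℝ) ≤ (N : ℝ) ^ 2 := by nlinarith
    refine ⟨N, hN1, ?_, ?_⟩
    · rw [div_le_div_iff₀ (by positivity) (by positivity)]
      nlinarith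
    · have e : 2 ^ (n + 1) * (C / (N : ℝ) ^ 2) * (C + 1) * (4 * L ^ 2) = 2 ^ (n + 1) * C * (C + 1) * (4 * L ^ 2) / (N : ℝ) ^ 2 := by
        ring
      rw [e, div_le_div_iff₀ (by positivity) hL0]
      nlinarith
  have hA0 : 0 < A := by linarith
  -- the cut
  obtain ⟨T, hT2, hT3, hT4⟩ : ∃ T : ℕ, 2 ≤ T ∧ 6 * C ^ 3 / T ≤ 1 / (8 * L) ∧ C ^ 2 / √((T : ℝ) - 1) ≤ 1 / (4 * L) := by
    obtain ⟨T, hT⟩ := exists_nat_ge (2 + 48 * C ^ 3 * L + (4 * C ^ 2 * L) ^ 2)
    have t1 : 0 ≤ 48 * C ^ 3 * L := by positivity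
    have t2 : 0 ≤ (4 * C ^ 2 * L) ^ 2 := by positivity
    have hT1 : (2 : ℝ) ≤ T := by linarith
    refine ⟨T, by exact_mod_cast hT1, ?_, ?_⟩
    · rw [div_le_div_iff₀ (by linarith) (by positivity)]
      nlinarith
    · have h1 : 4 * C ^ 2 * L ≤ √((T : ℝ) - 1) := by
        apply Real.le_sqrt_of_sq_le
        linarith
      have h2 : 0 < √((T : ℝ) - 1) := lt_of_lt_of_le (by positivity) h1
      rw [div_le_div_iff₀ h2 (by positivity)]
      nlinarith
  have hT0 : (0 : ℝ) < T := by exact_mod_cast (by omega : 0 < T)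
  obtain ⟨K, hK⟩ := exists_nat_ge (K1 * A ^ 2 + 8 * L + 48 * C ^ 2 * T * L + (4 * C * T * L) ^ 2 + K1 + 4)
  have s1 : 0 ≤ K1 * A ^ 2 := by positivity
  have s2 : 0 ≤ 48 * C ^ 2 * T * L := by positivity
  have s3 : 0 ≤ (4 * C * T * L) ^ 2 := by positivity
  have s4 : (0 : ℝ) ≤ K1 := Nat.cast_nonneg K1
  refine ⟨K, by
    have : (1 : ℝ) ≤ K := by linarith
    exact_mod_cast this, fun U μ g h P w V y H hP hy hw hV hW hcov hH => ?_⟩
  have hV1 : 1 ≤ V := by linarith
  have hV0 : 0 < V := by linarith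
  have hK0 : (0 : ℝ) < K := by linarith
  have hsV : 0 < √V := Real.sqrt_pos.2 hV0
  have hPp : ∀ p ∈ P, p.Prime := fun p hp => (hP p hp).1
  -- the data
  set D : JD n k := ⟨fun i p c => w i p * TT U A i p (red p c) / A, P, V / A ^ 2, y, H⟩ with hD
  have hmean : ∀ i, ∀ p ∈ P, lmean (D.F i p) p = w i p * (if h : p = 0 then 0 else haveI : NeZero p := ⟨h⟩; EM p (TT U A i p)) / A := by
    intro i p hp
    have hne : NeZero p := ⟨(hPp p hp).ne_zero⟩
    rw [dif_neg hne.out]
    obtain ⟨G, hG⟩ : ∃ G : (Fin n → ZMod p) → ℝ, G = fun x => w i p / A * TT U A i p x := ⟨_, rfl⟩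
    have e : D.F i p = fun c => G (red p c) := by
      funext c
      rw [hD, hG]
      ring
    rw [e, lmean_red, hG, EM_mul' p (w i p / A) (TT U A i p)]
    ring
  have hOk : D.Ok K1 := by
    refine ⟨hP, ?_, ?_, ?_, ?_, ?_, hy⟩
    · intro i p hp
      exact perF_red p (fun x => w i p * TT U A i p x / A)
    · intro i p hp c
      show |w i p * TT U A i p (red p c) / A| ≤ 1
      rw [abs_div, abs_mul, abs_of_pos hA0, div_le_one hA0]
      have h1 := hw i p hp
      have h2 : |TT U A i p (red p c)| ≤ A := trunc_abs hA0.le _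
      have := abs_nonneg (w i p)
      have := abs_nonneg (TT U A i p (red p c))
      nlinarith
    · show (K1 : ℝ) ≤ V / A ^ 2
      rw [le_div_iff₀ (by positivity)]
      linarith
    · intro i j
      show |∑ p ∈ P, lcov (D.F i p) (D.F j p) p - if i = j then V / A ^ 2 else 0| ≤ V / A ^ 2 / (K1 + 1)
      have e1 : ∀ p ∈ P, lcov (D.F i p) (D.F j p) p = 1 / A ^ 2 * (w i p * w j p *
          (if h : p = 0 then 0 else haveI : NeZero p := ⟨h⟩;
            EM p (fun c => TT U A i p c * TT U A j p c) - EM p (TT U A i p) * EM p (TT U A j p))) := by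
        intro p hp
        have hne : NeZero p := ⟨(hPp p hp).ne_zero⟩
        unfold lcov
        rw [hmean i p hp, hmean j p hp, dif_neg hne.out, dif_neg hne.out, dif_neg hne.out]
        obtain ⟨G, hG⟩ : ∃ G : (Fin n → ZMod p) → ℝ, G = fun x => w i p * w j p / A ^ 2 * (TT U A i p x * TT U A j p x) :=
          ⟨_, rfl⟩
        have e : (fun c => D.F i p c * D.F j p c) = fun c => G (red p c) := by
          funext c
          rw [hD, hG]
          ring
        rw [e, lmean_red, hG, EM_mul' p (w i p * w j p / A ^ 2) (fun x => TT U A i p x * TT U A j p x)]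
        ring
      rw [Finset.sum_congr rfl e1, ← Finset.mul_sum]
      obtain ⟨Q, hQ⟩ : ∃ Q : ℕ → ℝ, Q = fun p => (if h : p = 0 then 0 else haveI : NeZero p := ⟨h⟩;
            EM p (fun c => TT U A i p c * TT U A j p c) - EM p (TT U A i p) * EM p (TT U A j p)) := ⟨_, rfl⟩
      have hQb : ∀ p ∈ P, |Q p - g i j| ≤ 6 * C ^ 2 / A ^ 2 + 6 * C ^ 2 / p := by
        intro p hp
        have hne : NeZero p := ⟨(hPp p hp).ne_zero⟩
        rw [hQ]
        simp only
        rw [dif_neg hne.out]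
        exact h.tcov hA1 i j p (hPp p hp)
      have e2 : ∀ p, (w i p * w j p * (if h : p = 0 then 0 else haveI : NeZero p := ⟨h⟩;
            EM p (fun c => TT U A i p c * TT U A j p c) - EM p (TT U A i p) * EM p (TT U A j p))) = w i p * w j p * Q p := by
        intro p
        rw [hQ]
      simp only [e2]
      have hww : ∑ p ∈ P, |w i p * w j p| ≤ C * V := by
        calc ∑ p ∈ P, |w i p * w j p| ≤ ∑ p ∈ P, (1 / 2 * w i p ^ 2 + 1 / 2 * w j p ^ 2) := by
              refine Finset.sum_le_sum fun p _ => ?_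
              rw [abs_mul]
              have e3 : w i p ^ 2 = |w i p| ^ 2 := (sq_abs _).symm
              have e4 : w j p ^ 2 = |w j p| ^ 2 := (sq_abs _).symm
              rw [e3, e4]
              nlinarith [sq_nonneg (|w i p| - |w j p|)]
          _ = 1 / 2 * ∑ p ∈ P, w i p ^ 2 + 1 / 2 * ∑ p ∈ P, w j p ^ 2 := by
              rw [Finset.sum_add_distrib, ← Finset.mul_sum, ← Finset.mul_sum]
          _ ≤ _ := by
              have := hW i
              have := hW j
              linarith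
      have hww1 : ∀ p ∈ P, 0 ≤ |w i p * w j p| ∧ |w i p * w j p| ≤ 1 := by
        intro p hp
        refine ⟨abs_nonneg _, ?_⟩
        rw [abs_mul]
        have := hw i p hp
        have := hw j p hp
        have := abs_nonneg (w i p)
        have := abs_nonneg (w j p)
        nlinarith
      have hdiv := sum_div_le P (fun p => |w i p * w j p|) hww1 hww hPp (T := T) (by omega) le_rfl
      have h3 : |∑ p ∈ P, w i p * w j p * Q p - ∑ p ∈ P, w i p * w j p * g i j| ≤
          6 * C ^ 2 / A ^ 2 * (C * V) + 6 * C ^ 2 * (T + C * V / T) := by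
        rw [← Finset.sum_sub_distrib]
        refine (Finset.abs_sum_le_sum_abs _ _).trans ?_
        calc ∑ p ∈ P, |w i p * w j p * Q p - w i p * w j p * g i j| ≤
            ∑ p ∈ P, (6 * C ^ 2 / A ^ 2 * |w i p * w j p| + 6 * C ^ 2 * (|w i p * w j p| / p)) := by
              refine Finset.sum_le_sum fun p hp => ?_
              have e5 : w i p * w j p * Q p - w i p * w j p * g i j = w i p * w j p * (Q p - g i j) := by ring
              rw [e5, abs_mul]
              calc |w i p * w j p| * |Q p - g i j| ≤ |w i p * w j p| * (6 * C ^ 2 / A ^ 2 + 6 * C ^ 2 / p) :=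
                    mul_le_mul_of_nonneg_left (hQb p hp) (abs_nonneg _)
                _ = _ := by ring
          _ = 6 * C ^ 2 / A ^ 2 * ∑ p ∈ P, |w i p * w j p| + 6 * C ^ 2 * ∑ p ∈ P, |w i p * w j p| / p := by
              rw [Finset.sum_add_distrib, ← Finset.mul_sum, ← Finset.mul_sum]
          _ ≤ _ := add_le_add (mul_le_mul_of_nonneg_left hww (by positivity)) (mul_le_mul_of_nonneg_left hdiv (by positivity))
      have h4 : 6 * C ^ 2 / A ^ 2 * (C * V) + 6 * C ^ 2 * (T + C * V / T) ≤ V * (3 / (8 * L)) := by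
        have e5 : 6 * C ^ 2 / A ^ 2 * (C * V) = V * (6 * C ^ 3 / A ^ 2) := by ring
        have e6 : 6 * C ^ 2 * (T + C * V / T) = 6 * C ^ 2 * T + V * (6 * C ^ 3 / T) := by ring
        rw [e5, e6]
        have t1 : V * (6 * C ^ 3 / A ^ 2) ≤ V * (1 / (8 * L)) := mul_le_mul_of_nonneg_left hA2 hV0.le
        have t2 : V * (6 * C ^ 3 / T) ≤ V * (1 / (8 * L)) := mul_le_mul_of_nonneg_left hT3 hV0.le
        have t3 : 6 * C ^ 2 * T ≤ V * (1 / (8 * L)) := by
          rw [mul_one_div, le_div_iff₀ (by positivity)]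
          have e9 : 6 * C ^ 2 * T * (8 * L) = 48 * C ^ 2 * T * L := by ring
          rw [e9]
          linarith
        have e7 : V * (3 / (8 * L)) = V * (1 / (8 * L)) + V * (1 / (8 * L)) + V * (1 / (8 * L)) := by ring
        rw [e7]
        linarith
      have h5 := hcov i j
      have h6 : V / K ≤ V * (1 / (8 * L)) := by
        rw [mul_one_div]
        exact div_le_div_of_nonneg_left hV0.le (by positivity) (by linarith)
      have h7 : |∑ p ∈ P, w i p * w j p * Q p - if i = j then V else 0| ≤ V * (1 / L) := by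
        have e5 : ∑ p ∈ P, w i p * w j p * Q p - (if i = j then V else 0) =
            (∑ p ∈ P, w i p * w j p * Q p - ∑ p ∈ P, w i p * w j p * g i j) +
            (∑ p ∈ P, w i p * w j p * g i j - if i = j then V else 0) := by ring
        rw [e5]
        refine (abs_add_le _ _).trans ?_
        have e6 : V * (1 / L) = V * (3 / (8 * L)) + V * (1 / (8 * L)) + V * (1 / (2 * L)) := by
          field_simp
          norm_num
        have : 0 ≤ V * (1 / (2 * L)) := by positivity
        rw [e6]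
        linarith
      have e8 : 1 / A ^ 2 * ∑ p ∈ P, w i p * w j p * Q p - (if i = j then V / A ^ 2 else 0) =
          1 / A ^ 2 * (∑ p ∈ P, w i p * w j p * Q p - if i = j then V else 0) := by
        split_ifs <;> ring
      rw [e8, abs_mul, abs_of_pos (by positivity : (0 : ℝ) < 1 / A ^ 2), ← hL]
      calc 1 / A ^ 2 * |∑ p ∈ P, w i p * w j p * Q p - if i = j then V else 0| ≤ 1 / A ^ 2 * (V * (1 / L)) :=
            mul_le_mul_of_nonneg_left h7 (by positivity)
        _ = _ := by ring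
    · show y ^ K1 ≤ H
      refine (Nat.pow_le_pow_right hy ?_).trans hH
      have : (K1 : ℝ) ≤ K := by nlinarith
      exact_mod_cast this
  -- nearness
  set Q : (Fin n → ℤ) → Fin k → ℝ := fun c i => (∑ p ∈ P, w i p * (U i p (red p c) - μ i)) / √V with hQ
  have hnear : Near D K1 Q := by
    intro i
    rw [← hL]
    obtain ⟨S, hS⟩ : ∃ S : (Fin n → ℤ) → ℝ, S = fun c => ∑ p ∈ P, w i p * YY U A i p (red p c) := ⟨_, rfl⟩
    obtain ⟨m, hm⟩ : ∃ m : ℕ → ℝ, m = fun p => (if h : p = 0 then 0 else haveI : NeZero p := ⟨h⟩; EM p (U i p)) := ⟨_, rfl⟩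
    obtain ⟨s, hs⟩ : ∃ s : ℝ, s = ∑ p ∈ P, w i p * (m p - μ i) := ⟨_, rfl⟩
    have hdiff : ∀ c, Q c i - D.X c i = (S c + s) / √V := by
      intro c
      have e1 : D.X c i = (∑ p ∈ P, w i p * (TT U A i p (red p c) -
          (if h : p = 0 then 0 else haveI : NeZero p := ⟨h⟩; EM p (TT U A i p)))) / √V := by
        unfold JD.X
        show (∑ p ∈ P, w i p * TT U A i p (red p c) / A - ∑ p ∈ P, lmean (D.F i p) p) / √(V / A ^ 2) = _
        rw [Finset.sum_congr rfl fun p hp => hmean i p hp, ← Finset.sum_sub_distrib, Real.sqrt_div' _ (sq_nonneg A),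
          Real.sqrt_sq hA0.le]
        have e2 : ∀ p, w i p * TT U A i p (red p c) / A - w i p *
            (if h : p = 0 then 0 else haveI : NeZero p := ⟨h⟩; EM p (TT U A i p)) / A =
            (w i p * (TT U A i p (red p c) -
            (if h : p = 0 then 0 else haveI : NeZero p := ⟨h⟩; EM p (TT U A i p)))) / A := fun p => by ring
        simp only [e2]
        rw [← Finset.sum_div, div_div_div_cancel_right₀ hA0.ne']
      rw [e1, hQ, hS, hs]
      show _ / √V - _ / √V = _
      rw [← sub_div, ← Finset.sum_sub_distrib, ← Finset.sum_add_distrib]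
      congr 1
      refine Finset.sum_congr rfl fun p hp => ?_
      have hne : NeZero p := ⟨(hPp p hp).ne_zero⟩
      rw [YY_eq, hm, dif_neg hne.out]
      simp only
      rw [dif_neg hne.out, Pool.Agent.X280.BP.EM_sub' p (U i p) (TT U A i p)]
      ring
    have hsb : |s| ≤ √V * (1 / (2 * L)) := by
      have h1 : |s| ≤ C * ∑ p ∈ P, |w i p| / p := by
        rw [hs, Finset.mul_sum]
        refine (Finset.abs_sum_le_sum_abs _ _).trans (Finset.sum_le_sum fun p hp => ?_)
        have hne : NeZero p := ⟨(hPp p hp).ne_zero⟩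
        rw [abs_mul, hm]
        simp only
        rw [dif_neg hne.out]
        have := h.m1 i p (hPp p hp)
        calc |w i p| * |EM p (U i p) - μ i| ≤ |w i p| * (C / p) := mul_le_mul_of_nonneg_left this (abs_nonneg _)
          _ = _ := by ring
      have h2 := sum_abs_div P (w i) hV0 hC1 (hw i) (hW i) hPp hT2
      have h3 : C * (T + C * √V / √((T : ℝ) - 1)) ≤ √V * (1 / (2 * L)) := by
        have e1 : C * (T + C * √V / √((T : ℝ) - 1)) = C * T + √V * (C ^ 2 / √((T : ℝ) - 1)) := by ring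
        rw [e1]
        have t1 : √V * (C ^ 2 / √((T : ℝ) - 1)) ≤ √V * (1 / (4 * L)) := mul_le_mul_of_nonneg_left hT4 hsV.le
        have t2 : C * T ≤ √V * (1 / (4 * L)) := by
          rw [mul_one_div, le_div_iff₀ (by positivity)]
          apply Real.le_sqrt_of_sq_le
          have e2 : C * (T : ℝ) * (4 * L) = 4 * C * T * L := by ring
          rw [e2]
          linarith
        have e2 : √V * (1 / (2 * L)) = √V * (1 / (4 * L)) + √V * (1 / (4 * L)) := by ring
        rw [e2]
        linarith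
      exact h1.trans ((mul_le_mul_of_nonneg_left h2 hC0.le).trans h3)
    have hfar : ∀ c, far (fun c => Q c i) (fun c => D.X c i) (1 / L) c ≤ 4 * L ^ 2 / V * S c ^ 2 := by
      intro c
      unfold far
      split_ifs with hc
      · positivity
      · push Not at hc
        rw [hdiff, abs_div, abs_of_pos hsV, lt_div_iff₀ hsV] at hc
        have h1 : |S c + s| ≤ |S c| + |s| := abs_add_le _ _
        have h2 : √V * (1 / (2 * L)) ≤ |S c| := by
          have e1 : 1 / L * √V = √V * (1 / (2 * L)) + √V * (1 / (2 * L)) := by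
            field_simp
            norm_num
          linarith
        have h3 : (√V * (1 / (2 * L))) ^ 2 ≤ S c ^ 2 := by
          rw [← sq_abs (S c)]
          exact pow_le_pow_left₀ (by positivity) h2 2
        have h4 : (√V * (1 / (2 * L))) ^ 2 = V / (4 * L ^ 2) := by
          rw [mul_pow, Real.sq_sqrt hV0.le]
          field_simp
          norm_num
        rw [h4] at h3
        calc (1 : ℝ) = 4 * L ^ 2 / V * (V / (4 * L ^ 2)) := by field_simp
          _ ≤ _ := mul_le_mul_of_nonneg_left h3 (by positivity)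
    refine (Pool.Agent.X280.BP.EB_mono D.H _ _ hfar).trans ?_
    show EB H (fun c => 4 * L ^ 2 / V * S c ^ 2) ≤ 1 / L
    rw [EB_mul_left]
    have h1 : EB H (fun c => S c ^ 2) ≤ 2 ^ (n + 1) * (C / A ^ 2) * (∑ p ∈ P, w i p ^ 2 + 1) := by
      rw [hS]
      refine EB_sq P (YY U A i) (w i) (by positivity) hP (hw i) (fun p hp _ => YY_mean A i p)
        (fun p hp _ => h.YY_sq hA1 i p (hPp p hp)) ?_
      refine (Nat.pow_le_pow_right hy ?_).trans hH
      have : (4 : ℝ) ≤ K := by nlinarith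
      exact_mod_cast this
    have h2 : ∑ p ∈ P, w i p ^ 2 + 1 ≤ (C + 1) * V := by
      have := hW i
      linarith
    calc 4 * L ^ 2 / V * EB H (fun c => S c ^ 2) ≤ 4 * L ^ 2 / V * (2 ^ (n + 1) * (C / A ^ 2) * ((C + 1) * V)) := by
          refine mul_le_mul_of_nonneg_left (h1.trans ?_) (by positivity)
          exact mul_le_mul_of_nonneg_left h2 (by positivity)
      _ = 2 ^ (n + 1) * (C / A ^ 2) * (C + 1) * (4 * L ^ 2) := by
          field_simp
      _ ≤ 1 / L := hA3
  have hfin := hK1 D hOk Q hnear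
  rw [nor_orth] at hfin
  refine le_trans (le_of_eq ?_) hfin
  congr 2
  rw [measureReal_def, lawE_apply _ _ _ (orth_closed u).measurableSet, ENNReal.toReal_ofReal (by positivity)]
  rw [prop_eq]
  show EB H _ = _
  unfold EB
  congr 1
  dsimp only
  have key : ∀ c, (∀ i, ∑ p ∈ P, w i p * (U i p (red p c) - μ i) ≤ u i * √V) ↔ Q c ∈ orth u := by
    intro c
    unfold orth
    rw [Set.mem_univ_pi]
    refine forall_congr' fun i => ?_
    rw [Set.mem_Iic, hQ]
    dsimp only
    rw [div_le_iff₀ hsV]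
  refine (Finset.sum_congr rfl fun c _ => ?_).trans (Finset.sum_boole (fun c => Q c ∈ orth u) _)
  by_cases hc : Q c ∈ orth u
  · rw [if_pos hc, if_pos ((key c).2 hc)]
  · rw [if_neg hc, if_neg fun h => hc ((key c).1 h)]

end Pool.Agent.U62.RB
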