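import Pool.Agent.U62.RB.Std
import Pool.Agent.V11210.G2.Mean

/-!
# Hyperelliptic curves: the local data
-/

set_option autoImplicit false
set_option linter.unusedSectionVars false

namespace Pool.Agent.U62.RB

open Finset Filter Topology
open Pool.Agent.Y57.FD.HM (tr tr_mod tr_le)
open Pool.Agent.V11210.G2 (A2 A2_mod A2_le mm mean_joint)
open Pool.Agent.Y57.FD.Mom (usp normal)

/-- The residues of an integer vector. -/
def res {d : ℕ} (p : ℕ) (c : Fin d → ℤ) : Fin d → ℕ := fun i => (c i % p).toNat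

theorem res_congr {d p : ℕ} {c c' : Fin d → ℤ} (h : ∀ i, (p : ℤ) ∣ c i - c' i) : res p c = res p c' := by
  funext i
  unfold res
  have h1 : c i % p = c' i % p := Int.modEq_iff_dvd.2 (by
    have h2 := h i
    rw [← neg_sub]
    exact h2.neg_right)
  rw [h1]

theorem res_nat {d p : ℕ} {t : Fin d → ℕ} (h : ∀ i, t i < p) : res p (fun i => (t i : ℤ)) = t := by
  funext i
  unfold res
  rw [← Int.natCast_mod, Int.toNat_natCast, Nat.mod_eq_of_lt (h i)]

/-- The mean over the residue vectors. -/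
theorem lmean_res {d : ℕ} (G : (Fin d → ℕ) → ℝ) (p : ℕ) :
    lmean (fun c : Fin d → ℤ => G (res p c)) p = Pool.Agent.TH894.NE.mean d p G := by
  unfold lmean Pool.Agent.TH894.NE.mean Pool.Agent.TH894.NE.box
  rw [div_eq_inv_mul, one_div]
  congr 1
  refine Finset.sum_congr rfl fun t ht => ?_
  rw [Fintype.mem_piFinset] at ht
  change G (res p fun i => (t i : ℤ)) = G t
  rw [res_nat fun i => Finset.mem_range.1 (ht i)]

/-- The characters of the symplectic group: the standard one, the exterior square without the trivial one, the symmetric square. -/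
noncomputable def chr (i : Fin 3) (t s : ℝ) : ℝ := if i = 0 then t else if i = 1 then s - 1 else t ^ 2 - s

/-- The local functions. -/
noncomputable def FH (g : ℕ) (i : Fin 3) (p : ℕ) (c : Fin (2 * g + 1) → ℤ) : ℝ :=
  chr i (tr g p (res p c)) (A2 g p (res p c))

theorem usp_vals {g : ℕ} (hg : 2 ≤ g) : usp g 0 = 1 ∧ usp g 1 = 0 ∧ usp g 2 = 1 ∧ usp g 3 = 0 ∧ usp g 4 = 3 := by
  unfold usp normal
  refine ⟨?_, ?_, ?_, ?_, ?_⟩
  · rw [if_neg (by omega : ¬ 0 = 2 * g + 2)]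
    simp
  · rw [if_neg (by omega : ¬ 1 = 2 * g + 2)]
    simp
  · rw [if_neg (by omega : ¬ 2 = 2 * g + 2)]
    simp [Nat.doubleFactorial]
  · rw [if_neg (by omega : ¬ 3 = 2 * g + 2), if_neg (by decide)]
    simp
  · rw [if_neg (by omega : ¬ 4 = 2 * g + 2), if_pos (by decide)]
    norm_num [Nat.doubleFactorial]

/-- The mixed moments. -/
noncomputable def MO (g p i j : ℕ) : ℝ := lmean (fun c : Fin (2 * g + 1) → ℤ => tr g p (res p c) ^ i * A2 g p (res p c) ^ j) p

theorem MO_near {g : ℕ} (i j : ℕ) (hij : (j = 0 ∧ i ≤ 2 * g + 3) ∨ (j = 1 ∧ i + 2 ≤ 2 * g + 1) ∨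
    (j = 2 ∧ i + 4 ≤ 2 * g + 1)) : ∃ E : ℝ, 0 ≤ E ∧ ∀ p : ℕ, p.Prime → |MO g p i j - mm g i j| ≤ E / p := by
  obtain ⟨E, hE, h⟩ := mean_joint g i j hij
  refine ⟨E, hE, fun p hp => ?_⟩
  unfold MO
  rw [lmean_res (fun n => tr g p n ^ i * A2 g p n ^ j) p]
  exact h p hp

theorem FH_lmean (g p : ℕ) (hp : 0 < p) (i : Fin 3) : lmean (FH g i p) p =
    if i = 0 then MO g p 1 0 else if i = 1 then MO g p 0 1 - 1 else MO g p 2 0 - MO g p 0 1 := by
  have e1 : (fun c : Fin (2 * g + 1) → ℤ => tr g p (res p c)) = fun c => tr g p (res p c) ^ 1 * A2 g p (res p c) ^ 0 := by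
    funext c; ring
  have e2 : (fun c : Fin (2 * g + 1) → ℤ => A2 g p (res p c)) = fun c => tr g p (res p c) ^ 0 * A2 g p (res p c) ^ 1 := by
    funext c; ring
  have e3 : (fun c : Fin (2 * g + 1) → ℤ => tr g p (res p c) ^ 2) = fun c => tr g p (res p c) ^ 2 * A2 g p (res p c) ^ 0 := by
    funext c; ring
  unfold MO
  fin_cases i
  · change lmean (fun c : Fin (2 * g + 1) → ℤ => tr g p (res p c)) p = _
    rw [e1]
    rfl
  · change lmean (fun c : Fin (2 * g + 1) → ℤ => A2 g p (res p c) - 1) p = _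
    rw [lmean_sub, lmean_const 1 hp, e2]
    rfl
  · change lmean (fun c : Fin (2 * g + 1) → ℤ => tr g p (res p c) ^ 2 - A2 g p (res p c)) p = _
    rw [lmean_sub, e2, e3]
    rfl

/-- The mean of the product of two of the functions. -/
noncomputable def PR (g p : ℕ) (i j : Fin 3) : ℝ := lmean (fun c => FH g i p c * FH g j p c) p

theorem PR_symm (g p : ℕ) (i j : Fin 3) : PR g p i j = PR g p j i := by
  unfold PR
  congr 1
  funext c
  ring

theorem PR_vals (g p : ℕ) (hp : 0 < p) :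
    PR g p 0 0 = MO g p 2 0 ∧ PR g p 1 1 = MO g p 0 2 - 2 * MO g p 0 1 + 1 ∧
    PR g p 2 2 = MO g p 4 0 - 2 * MO g p 2 1 + MO g p 0 2 ∧
    PR g p 0 1 = MO g p 1 1 - MO g p 1 0 ∧ PR g p 0 2 = MO g p 3 0 - MO g p 1 1 ∧
    PR g p 1 2 = MO g p 2 1 - MO g p 0 2 - MO g p 2 0 + MO g p 0 1 := by
  unfold PR MO FH chr
  refine ⟨?_, ?_, ?_, ?_, ?_, ?_⟩
  · simp only [if_true]
    congr 1
    funext c
    ring
  · simp only [Fin.isValue, one_ne_zero, if_false, if_true]
    rw [← lmean_mul, ← lmean_sub]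
    conv_rhs => rw [← lmean_const (n := 2 * g + 1) 1 hp]
    rw [← lmean_add]
    congr 1
    funext c
    ring
  · have h20 : (2 : Fin 3) ≠ 0 := by decide
    have h21 : (2 : Fin 3) ≠ 1 := by decide
    simp only [h20, h21, if_false]
    rw [← lmean_mul, ← lmean_sub, ← lmean_add]
    congr 1
    funext c
    ring
  · simp only [Fin.isValue, one_ne_zero, if_false, if_true]
    rw [← lmean_sub]
    congr 1
    funext c
    ring
  · have h20 : (2 : Fin 3) ≠ 0 := by decide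
    have h21 : (2 : Fin 3) ≠ 1 := by decide
    simp only [h20, h21, if_false, if_true]
    rw [← lmean_sub]
    congr 1
    funext c
    ring
  · have h20 : (2 : Fin 3) ≠ 0 := by decide
    have h21 : (2 : Fin 3) ≠ 1 := by decide
    simp only [h20, h21, Fin.isValue, one_ne_zero, if_false, if_true]
    rw [← lmean_sub, ← lmean_sub, ← lmean_add]
    congr 1
    funext c
    ring

theorem mm_vals {g : ℕ} (hg : 2 ≤ g) : mm g 1 0 = 0 ∧ mm g 2 0 = 1 ∧ mm g 3 0 = 0 ∧ mm g 4 0 = 3 ∧ mm g 0 1 = 1 ∧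
    mm g 1 1 = 0 ∧ mm g 2 1 = 2 ∧ mm g 0 2 = 2 := by
  obtain ⟨h0, h1, h2, h3, h4⟩ := usp_vals hg
  unfold mm
  refine ⟨?_, ?_, ?_, ?_, ?_, ?_, ?_, ?_⟩ <;> norm_num [h0, h1, h2, h3, h4]

theorem arith (m10 m20 m30 m40 m01 m11 m21 m02 x10 x20 x30 x40 x01 x11 x21 x02 : ℝ)
    (h10 : |m10 - 0| ≤ x10) (h20 : |m20 - 1| ≤ x20) (h30 : |m30 - 0| ≤ x30) (h40 : |m40 - 3| ≤ x40)
    (h01 : |m01 - 1| ≤ x01) (h11 : |m11 - 0| ≤ x11) (h21 : |m21 - 2| ≤ x21) (h02 : |m02 - 2| ≤ x02)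
    {e : ℝ} (he : e = x10 + x20 + x30 + x40 + x01 + x11 + 2 * x21 + x02 + 2 * x01) :
    (|m10| ≤ e ∧ |m01 - 1| ≤ e ∧ |m20 - m01| ≤ e) ∧
    (|m20 - 1| ≤ e ∧ |m02 - 2 * m01 + 1 - 1| ≤ e ∧ |m40 - 2 * m21 + m02 - 1| ≤ e) ∧
    (|m11 - m10 - 0| ≤ e ∧ |m30 - m11 - 0| ≤ e ∧ |m21 - m02 - m20 + m01 - 0| ≤ e) := by
  have q10 := (abs_nonneg _).trans h10
  have q20 := (abs_nonneg _).trans h20
  have q30 := (abs_nonneg _).trans h30
  have q40 := (abs_nonneg _).trans h40
  have q01 := (abs_nonneg _).trans h01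
  have q11 := (abs_nonneg _).trans h11
  have q21 := (abs_nonneg _).trans h21
  have q02 := (abs_nonneg _).trans h02
  rw [abs_le] at h10 h20 h30 h40 h01 h11 h21 h02
  refine ⟨⟨?_, ?_, ?_⟩, ⟨?_, ?_, ?_⟩, ⟨?_, ?_, ?_⟩⟩ <;> rw [abs_le] <;> constructor <;> linarith

theorem hyp_local {g : ℕ} (hg : 2 ≤ g) : ∃ C : ℝ, 0 < C ∧ ∀ p : ℕ, p.Prime →
    (∀ i, |lmean (FH g i p) p| ≤ C / p) ∧
    ∀ i j, |lcov (FH g i p) (FH g j p) p - if i = j then 1 else 0| ≤ C / p := by
  obtain ⟨m10, m20, m30, m40, m01, m11, m21, m02⟩ := mm_vals hg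
  obtain ⟨E10, h10', h10⟩ := MO_near (g := g) 1 0 (by omega)
  obtain ⟨E20, h20', h20⟩ := MO_near (g := g) 2 0 (by omega)
  obtain ⟨E30, h30', h30⟩ := MO_near (g := g) 3 0 (by omega)
  obtain ⟨E40, h40', h40⟩ := MO_near (g := g) 4 0 (by omega)
  obtain ⟨E01, h01', h01⟩ := MO_near (g := g) 0 1 (by omega)
  obtain ⟨E11, h11', h11⟩ := MO_near (g := g) 1 1 (by omega)
  obtain ⟨E21, h21', h21⟩ := MO_near (g := g) 2 1 (by omega)
  obtain ⟨E02, h02', h02⟩ := MO_near (g := g) 0 2 (by omega)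
  set E : ℝ := E10 + E20 + E30 + E40 + E01 + E11 + 2 * E21 + E02 + 2 * E01 with hE
  have hE0 : 0 ≤ E := by positivity
  refine ⟨E + E ^ 2 + 1, by positivity, fun p hp => ?_⟩
  have hp0 : (0 : ℝ) < p := by exact_mod_cast hp.pos
  have hp1 : (1 : ℝ) ≤ p := by exact_mod_cast hp.one_lt.le
  have a10 := h10 p hp
  have a20 := h20 p hp
  have a30 := h30 p hp
  have a40 := h40 p hp
  have a01 := h01 p hp
  have a11 := h11 p hp
  have a21 := h21 p hp
  have a02 := h02 p hp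
  rw [m10] at a10
  rw [m20] at a20
  rw [m30] at a30
  rw [m40] at a40
  rw [m01] at a01
  rw [m11] at a11
  rw [m21] at a21
  rw [m02] at a02
  obtain ⟨⟨b1, b2, b3⟩, ⟨b4, b5, b6⟩, ⟨b7, b8, b9⟩⟩ := arith _ _ _ _ _ _ _ _ _ _ _ _ _ _ _ _ a10 a20 a30 a40 a01 a11 a21 a02
    (e := E / p) (by
      rw [hE]
      ring)
  have hmean : ∀ i, |lmean (FH g i p) p| ≤ E / p := by
    intro i
    rw [FH_lmean g p hp.pos]
    split_ifs
    · exact b1
    · exact b2
    · exact b3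
  have hle : E / p ≤ (E + E ^ 2 + 1) / p := by
    gcongr
    nlinarith [sq_nonneg E]
  refine ⟨fun i => (hmean i).trans hle, ?_⟩
  have hpr : ∀ i j, |PR g p i j - if i = j then 1 else 0| ≤ E / p := by
    obtain ⟨v1, v2, v3, v4, v5, v6⟩ := PR_vals g p hp.pos
    have key : ∀ i j : Fin 3, i ≤ j → |PR g p i j - if i = j then 1 else 0| ≤ E / p := by
      intro i j hij
      fin_cases i <;> fin_cases j
      · change |PR g p 0 0 - if (0 : Fin 3) = 0 then 1 else 0| ≤ E / p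
        rw [v1, if_pos rfl]
        exact b4
      · change |PR g p 0 1 - if (0 : Fin 3) = 1 then 1 else 0| ≤ E / p
        rw [v4, if_neg (by decide)]
        exact b7
      · change |PR g p 0 2 - if (0 : Fin 3) = 2 then 1 else 0| ≤ E / p
        rw [v5, if_neg (by decide)]
        exact b8
      · exact absurd hij (by decide)
      · change |PR g p 1 1 - if (1 : Fin 3) = 1 then 1 else 0| ≤ E / p
        rw [v2, if_pos rfl]
        exact b5
      · change |PR g p 1 2 - if (1 : Fin 3) = 2 then 1 else 0| ≤ E / p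
        rw [v6, if_neg (by decide)]
        exact b9
      · exact absurd hij (by decide)
      · exact absurd hij (by decide)
      · change |PR g p 2 2 - if (2 : Fin 3) = 2 then 1 else 0| ≤ E / p
        rw [v3, if_pos rfl]
        exact b6
    intro i j
    rcases le_total i j with h | h
    · exact key i j h
    · have h2 := key j i h
      rw [PR_symm]
      have e : (if j = i then (1 : ℝ) else 0) = if i = j then 1 else 0 := by
        by_cases hij : i = j
        · rw [if_pos hij, if_pos hij.symm]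
        · rw [if_neg hij, if_neg (Ne.symm hij)]
      rw [e] at h2
      exact h2
  intro i j
  have e : lcov (FH g i p) (FH g j p) p - (if i = j then 1 else 0) =
      (PR g p i j - if i = j then 1 else 0) - lmean (FH g i p) p * lmean (FH g j p) p := by
    unfold lcov PR
    ring
  rw [e]
  have h1 := hpr i j
  have h2 : |lmean (FH g i p) p * lmean (FH g j p) p| ≤ E ^ 2 / p := by
    rw [abs_mul]
    have h3 := hmean i
    have h4 := hmean j
    have h5 : 0 ≤ E / p := by positivity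
    calc |lmean (FH g i p) p| * |lmean (FH g j p) p| ≤ E / p * (E / p) := mul_le_mul h3 h4 (abs_nonneg _) h5
      _ = E ^ 2 / p * (1 / p) := by ring
      _ ≤ E ^ 2 / p * 1 := by
        refine mul_le_mul_of_nonneg_left ?_ (by positivity)
        rw [div_le_one hp0]
        exact hp1
      _ = E ^ 2 / p := mul_one _
  calc |(PR g p i j - if i = j then 1 else 0) - lmean (FH g i p) p * lmean (FH g j p) p| ≤
      |PR g p i j - if i = j then 1 else 0| + |lmean (FH g i p) p * lmean (FH g j p) p| := abs_sub _ _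
    _ ≤ E / p + E ^ 2 / p := add_le_add h1 h2
    _ ≤ (E + E ^ 2 + 1) / p := by
      rw [← add_div]
      exact div_le_div_of_nonneg_right (by linarith) hp0.le

/-- A bound for the local functions. -/
noncomputable def BH (g : ℕ) : ℝ := 2 * g + (((2 * (g : ℝ)) ^ 2 + 2 * g) / 2 + 1) + (2 * g) ^ 2

theorem FH_abs (g : ℕ) (i : Fin 3) (p : ℕ) (c : Fin (2 * g + 1) → ℤ) : |FH g i p c| ≤ BH g := by
  have h1 := tr_le g p (res p c)
  have h2 := A2_le g p (res p c)
  have hg : (0 : ℝ) ≤ g := Nat.cast_nonneg g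
  have h3 : |tr g p (res p c) ^ 2| ≤ (2 * g) ^ 2 := by
    rw [abs_pow]
    exact pow_le_pow_left₀ (abs_nonneg _) h1 2
  unfold FH chr BH
  have hq : 0 ≤ ((2 * (g : ℝ)) ^ 2 + 2 * g) / 2 := by positivity
  have hq2 : 0 ≤ (2 * (g : ℝ)) ^ 2 := by positivity
  split_ifs
  · linarith
  · calc |A2 g p (res p c) - 1| ≤ |A2 g p (res p c)| + |(1 : ℝ)| := abs_sub _ _
      _ ≤ _ := by
        rw [abs_one]
        linarith
  · calc |tr g p (res p c) ^ 2 - A2 g p (res p c)| ≤ |tr g p (res p c) ^ 2| + |A2 g p (res p c)| := abs_sub _ _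
      _ ≤ _ := by linarith

open scoped Classical in
theorem hyp_joint {g : ℕ} (hg : 2 ≤ g) (u : Fin 3 → ℝ) {δ ε : ℝ} (hδ : 0 < δ) (hε : 0 < ε) :
    ∃ K : ℕ, ∀ (P : Finset ℕ) (w : ℕ → ℝ) (y H : ℕ),
    (∀ p ∈ P, p.Prime ∧ p ≤ y) → K ≤ P.card → (∀ p ∈ P, |w p| ≤ 1) → δ * P.card ≤ ∑ p ∈ P, w p ^ 2 → y ^ K ≤ H →
    |prop H (fun c => ∀ i, ∑ p ∈ P, w p * FH g i p c ≤ u i * √(∑ p ∈ P, w p ^ 2)) -
      ∏ i, (ProbabilityTheory.gaussianReal 0 1).real (Set.Iic (u i))| ≤ ε := by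
  obtain ⟨C, hC, hl⟩ := hyp_local hg
  have hB : 0 < BH g := by
    unfold BH
    positivity
  obtain ⟨K, hK⟩ := joint_std (2 * g + 1) 3 u hδ hε hB hC
  refine ⟨K, fun P w y H hP hPc hw hws hH => ?_⟩
  refine hK (FH g) P w y H hP hPc hw hws ?_ (fun i p _ c => FH_abs g i p c)
    (fun i p hp => (hl p (hP p hp).1).1 i) (fun i j p hp => (hl p (hP p hp).1).2 i j) hH
  intro i p hp c c' hc
  unfold FH
  rw [res_congr hc]

end Pool.Agent.U62.RB
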