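import Pool.Agent.U62.RB.Poi

/-!
# From the characteristic function to the Poisson law
-/

set_option autoImplicit false
set_option linter.unusedSectionVars false

namespace Pool.Agent.U62.RB

open Finset Filter Topology Pool.Agent.Y722.HS Pool.Agent.X280.BP Pool.Agent.X280.UC MeasureTheory

variable {ι : Type} [Fintype ι] [DecidableEq ι]

/-- The circle of the frequencies. -/
noncomputable abbrev cir : Measure ℝ := volume.restrict (Set.Ioc (-Real.pi) Real.pi)

theorem cir_univ : cir.real Set.univ = 2 * Real.pi := by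
  have hpi := Real.pi_pos
  rw [measureReal_def, Measure.restrict_apply_univ, Real.volume_Ioc]
  rw [ENNReal.toReal_ofReal (by linarith)]
  ring

theorem char_int (n : ℤ) :
    ∫ θ : ℝ, Complex.exp (((θ * n : ℝ) : ℂ) * Complex.I) ∂cir = if n = 0 then 2 * Real.pi else 0 := by
  have hpi := Real.pi_pos
  split_ifs with h
  · subst h
    simp only [Int.cast_zero, mul_zero, Complex.ofReal_zero, zero_mul, Complex.exp_zero]
    rw [integral_const, cir_univ]
    simp
  · rw [← intervalIntegral.integral_of_le (by linarith)]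
    have hc : (n : ℂ) * Complex.I ≠ 0 := by
      simp [h]
    have e : (fun θ : ℝ => Complex.exp (((θ * n : ℝ) : ℂ) * Complex.I)) =
        fun θ : ℝ => Complex.exp (((n : ℂ) * Complex.I) * θ) := by
      funext θ
      congr 1
      push_cast
      ring
    rw [e, integral_exp_mul_complex hc]
    have e2 : Complex.exp ((n : ℂ) * Complex.I * ((Real.pi : ℝ) : ℂ)) =
        Complex.exp ((n : ℂ) * Complex.I * ((-Real.pi : ℝ) : ℂ)) := by
      rw [Complex.exp_eq_exp_iff_exists_int]
      refine ⟨n, ?_⟩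
      push_cast
      ring
    rw [e2, sub_self, zero_div]
    simp

/-- The Poisson weight as a Fourier coefficient. -/
theorem poi_int (μ : ℝ) (k : ℕ) :
    ∫ θ : ℝ, Complex.exp ((μ : ℂ) * (Complex.exp ((θ : ℝ) * Complex.I) - 1)) *
      Complex.exp (((θ * (-(k : ℝ)) : ℝ) : ℂ) * Complex.I) ∂cir =
    ((2 * Real.pi * (Real.exp (-μ) * μ ^ k / k.factorial) : ℝ) : ℂ) := by
  have hpi := Real.pi_pos
  set a : ℕ → ℝ := fun n => Real.exp (-μ) * μ ^ n / n.factorial with ha
  set F : ℕ → ℝ → ℂ := fun n θ => ((a n : ℝ) : ℂ) *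
    Complex.exp (((θ * (((n : ℤ) - (k : ℤ) : ℤ) : ℝ) : ℝ) : ℂ) * Complex.I) with hF
  have hpt : ∀ θ : ℝ, HasSum (fun n => F n θ)
      (Complex.exp ((μ : ℂ) * (Complex.exp ((θ : ℝ) * Complex.I) - 1)) *
      Complex.exp (((θ * (-(k : ℝ)) : ℝ) : ℂ) * Complex.I)) := by
    intro θ
    have h1 := (NormedSpace.expSeries_div_hasSum_exp ((μ : ℂ) * Complex.exp ((θ : ℝ) * Complex.I)))
    rw [← Complex.exp_eq_exp_ℂ] at h1
    have h2 := (h1.mul_left (Complex.exp (-(μ : ℂ)))).mul_right
      (Complex.exp (((θ * (-(k : ℝ)) : ℝ) : ℂ) * Complex.I))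
    have e1 : Complex.exp (-(μ : ℂ)) * Complex.exp ((μ : ℂ) * Complex.exp ((θ : ℝ) * Complex.I)) =
        Complex.exp ((μ : ℂ) * (Complex.exp ((θ : ℝ) * Complex.I) - 1)) := by
      rw [← Complex.exp_add]
      congr 1
      ring
    rw [e1] at h2
    have e2 : (fun n => F n θ) = fun n : ℕ => Complex.exp (-(μ : ℂ)) *
        (((μ : ℂ) * Complex.exp ((θ : ℝ) * Complex.I)) ^ n / (n.factorial : ℂ)) *
        Complex.exp (((θ * (-(k : ℝ)) : ℝ) : ℂ) * Complex.I) := by
      funext n
      rw [hF]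
      dsimp only
      have e3 : Complex.exp (((θ * (((n : ℤ) - (k : ℤ) : ℤ) : ℝ) : ℝ) : ℂ) * Complex.I) =
          Complex.exp ((θ : ℝ) * Complex.I) ^ n * Complex.exp (((θ * (-(k : ℝ)) : ℝ) : ℂ) * Complex.I) := by
        rw [← Complex.exp_nat_mul, ← Complex.exp_add]
        congr 1
        push_cast
        ring
      rw [e3, mul_pow, ha]
      push_cast
      ring
    rw [e2]
    exact h2
  have hcont : ∀ n, Continuous (F n) := by
    intro n
    rw [hF]
    fun_prop
  have hint : ∀ n, Integrable (F n) cir := fun n => (hcont n).integrableOn_Ioc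
  have hnorm : ∀ n, ∫ θ, ‖F n θ‖ ∂cir = |a n| * (2 * Real.pi) := by
    intro n
    have e : (fun θ => ‖F n θ‖) = fun _ => |a n| := by
      funext θ
      rw [hF]
      dsimp only
      rw [norm_mul, Complex.norm_exp_ofReal_mul_I, Complex.norm_real, mul_one, Real.norm_eq_abs]
    rw [e, integral_const, cir_univ, smul_eq_mul]
    ring
  have hsum : Summable fun n => ∫ θ, ‖F n θ‖ ∂cir := by
    simp only [hnorm]
    apply Summable.mul_right
    have h := (Real.summable_pow_div_factorial |μ|).mul_left (Real.exp (-μ))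
    refine h.congr fun n => ?_
    rw [ha]
    dsimp only
    rw [abs_div, abs_mul, abs_pow, abs_of_pos (Real.exp_pos _), Nat.abs_cast]
    ring
  have h := hasSum_integral_of_summable_integral_norm hint hsum
  have e1 : (fun θ => ∑' n, F n θ) = fun θ : ℝ =>
      (Complex.exp ((μ : ℂ) * (Complex.exp ((θ : ℝ) * Complex.I) - 1)) *
      Complex.exp (((θ * (-(k : ℝ)) : ℝ) : ℂ) * Complex.I)) := by
    funext θ
    exact (hpt θ).tsum_eq
  rw [e1] at h
  have e2 : ∀ n : ℕ, ∫ θ, F n θ ∂cir = if n = k then ((2 * Real.pi * a k : ℝ) : ℂ) else 0 := by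
    intro n
    rw [hF]
    dsimp only
    rw [integral_const_mul, char_int]
    by_cases hn : n = k
    · subst hn
      simp
      ring
    · have : (n : ℤ) - (k : ℤ) ≠ 0 := by
        intro h0
        apply hn
        omega
      rw [if_neg this, if_neg hn]
      simp
  have h3 : HasSum (fun n => ∫ θ, F n θ ∂cir) ((2 * Real.pi * a k : ℝ) : ℂ) := by
    have h4 := hasSum_single (f := fun n => ∫ θ, F n θ ∂cir) k (fun n hn => by rw [e2, if_neg hn])
    simpa [e2] using h4
  exact h.unique h3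

/-- The torus of the frequencies. -/
noncomputable abbrev tor (κ : Type) [Fintype κ] : Measure (κ → ℝ) := Measure.pi fun _ => cir

theorem tor_univ (κ : Type) [Fintype κ] : (tor κ).real Set.univ = (2 * Real.pi) ^ Fintype.card κ := by
  rw [measureReal_def, Measure.pi_univ, ENNReal.toReal_prod]
  have : ∀ i ∈ (Finset.univ : Finset κ), (cir Set.univ).toReal = 2 * Real.pi := fun i _ => by
    rw [← measureReal_def]
    exact cir_univ
  rw [Finset.prod_congr rfl this, Finset.prod_const, Finset.card_univ]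

theorem tor_mem (κ : Type) [Fintype κ] : ∀ᵐ θ ∂(tor κ), ∀ i, |θ i| ≤ Real.pi := by
  rw [ae_all_iff]
  intro i
  have h : ∀ᵐ x ∂cir, |x| ≤ Real.pi := by
    filter_upwards [ae_restrict_mem measurableSet_Ioc] with x hx
    exact abs_le.2 ⟨hx.1.le, hx.2⟩
  exact (Measure.tendsto_eval_ae_ae (μ := fun _ : κ => cir) (i := i)).eventually h

theorem char_pi {κ : Type} [Fintype κ] (n : κ → ℤ) [Decidable (∀ i, n i = 0)] :
    ∫ θ : κ → ℝ, ∏ i, Complex.exp (((θ i * n i : ℝ) : ℂ) * Complex.I) ∂(tor κ) =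
      (((2 * Real.pi) ^ Fintype.card κ * (if ∀ i, n i = 0 then 1 else 0) : ℝ) : ℂ) := by
  classical
  rw [integral_fintype_prod_eq_prod (fun i (x : ℝ) => Complex.exp (((x * n i : ℝ) : ℂ) * Complex.I))]
  simp only [char_int]
  by_cases h : ∀ i, n i = 0
  · rw [if_pos h]
    have : ∀ i ∈ (Finset.univ : Finset κ), (((if n i = 0 then 2 * Real.pi else 0 : ℝ)) : ℂ) =
        ((2 * Real.pi : ℝ) : ℂ) := fun i _ => by rw [if_pos (h i)]
    rw [Finset.prod_congr rfl this, Finset.prod_const, Finset.card_univ]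
    push_cast
    ring
  · rw [if_neg h]
    push Not at h
    obtain ⟨i, hi⟩ := h
    rw [Finset.prod_eq_zero (Finset.mem_univ i) (by rw [if_neg hi]; simp)]
    simp

open scoped Classical in
/-- **The Poisson law.** -/
theorem poi_law (κ : Type) [Fintype κ] (M : ℝ) {ε : ℝ} (hε : 0 < ε) : ∃ K : ℕ,
    ∀ (P : Finset ℕ) (y H : ℕ) (A : κ → ∀ p : ℕ, (ι → ZMod p) → Prop),
    (∀ p ∈ P, p.Prime ∧ p ≤ y) → (∀ p ∈ P, ∀ i j, i ≠ j → ∀ c, ¬ (A i p c ∧ A j p c)) →
    (∀ p ∈ P, ∀ i, pr (A i) p * K ≤ 1) → (∀ i, mu (A i) P ≤ M) → y ^ K ≤ H →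
    ∀ k : κ → ℕ,
    |EB H (fun c => if ∀ i, cnt (A i) P c = k i then 1 else 0) -
      ∏ i, Real.exp (-mu (A i) P) * mu (A i) P ^ k i / (k i).factorial| ≤ ε := by
  obtain ⟨K, hK⟩ := poi_char (ι := ι) κ M hε
  refine ⟨K, fun P y H A hP hdis hpr hmu hH k => ?_⟩
  have hc := hK P y H A hP hdis hpr hmu hH
  have hpi := Real.pi_pos
  set r := Fintype.card κ with hr
  set C : ℝ := (2 * Real.pi) ^ r with hC
  have hC0 : 0 < C := by positivity
  set m : κ → ℝ := fun i => mu (A i) P with hm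
  have hm0 : ∀ i, 0 ≤ m i := fun i => Finset.sum_nonneg fun p _ => pr_nonneg _ _
  -- the two functions on the torus
  set F : (ι → ℤ) → (κ → ℝ) → ℂ := fun c θ =>
    ∏ i, Complex.exp (((θ i * (((cnt (A i) P c : ℤ) - (k i : ℤ) : ℤ) : ℝ) : ℝ) : ℂ) * Complex.I) with hF
  set g : (κ → ℝ) → ℂ := fun θ => EBc H (fun c => F c θ) with hg
  set h : (κ → ℝ) → ℂ := fun θ => ∏ i, (Complex.exp ((m i : ℂ) * (Complex.exp ((θ i : ℝ) * Complex.I) - 1)) *
      Complex.exp (((θ i * (-(k i : ℝ)) : ℝ) : ℂ) * Complex.I)) with hh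
  have hFc : ∀ c, Continuous (F c) := by
    intro c
    rw [hF]
    fun_prop
  have hF1 : ∀ c θ, ‖F c θ‖ = 1 := by
    intro c θ
    rw [hF]
    dsimp only
    rw [norm_prod]
    exact Finset.prod_eq_one fun i _ => Complex.norm_exp_ofReal_mul_I _
  have hFi : ∀ c, Integrable (F c) (tor κ) := fun c =>
    Integrable.of_bound (hFc c).aestronglyMeasurable 1 (Filter.Eventually.of_forall fun θ => (hF1 c θ).le)
  have hhc : Continuous h := by
    rw [hh]
    fun_prop
  have hh1 : ∀ θ, ‖h θ‖ ≤ 1 := by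
    intro θ
    rw [hh]
    dsimp only
    rw [norm_prod]
    refine Finset.prod_le_one (fun i _ => norm_nonneg _) fun i _ => ?_
    rw [norm_mul, Complex.norm_exp_ofReal_mul_I, mul_one, Complex.norm_exp]
    apply Real.exp_le_one_iff.mpr
    rw [Complex.re_ofReal_mul, Complex.sub_re, Complex.exp_ofReal_mul_I_re, Complex.one_re]
    have := Real.cos_le_one (θ i)
    have := hm0 i
    nlinarith
  have hhi : Integrable h (tor κ) :=
    Integrable.of_bound hhc.aestronglyMeasurable 1 (Filter.Eventually.of_forall hh1)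
  have hgi : Integrable g (tor κ) := by
    rw [hg]
    unfold EBc
    exact (integrable_finset_sum _ fun c _ => hFi c).div_const _
  -- the integrals
  have hgI : ∫ θ, g θ ∂(tor κ) = ((C * EB H (fun c => if ∀ i, cnt (A i) P c = k i then 1 else 0) : ℝ) : ℂ) := by
    rw [hg]
    unfold EBc EB
    rw [integral_div, integral_finset_sum _ fun c _ => hFi c]
    have e : ∀ c ∈ Pool.Agent.Y722.HS.box ι H, ∫ θ, F c θ ∂(tor κ) =
        ((C * (if ∀ i, cnt (A i) P c = k i then 1 else 0) : ℝ) : ℂ) := by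
      intro c _
      have h1 := char_pi (κ := κ) (fun i => (cnt (A i) P c : ℤ) - (k i : ℤ))
      rw [hF]
      dsimp only
      rw [h1, hC, hr]
      congr 2
      by_cases h2 : ∀ i, cnt (A i) P c = k i
      · rw [if_pos h2, if_pos]
        intro i
        rw [h2 i, sub_self]
      · rw [if_neg h2, if_neg]
        intro h3
        exact h2 fun i => by have := h3 i; omega
    rw [Finset.sum_congr rfl e, ← Complex.ofReal_sum, ← Complex.ofReal_div, ← Finset.mul_sum, mul_div_assoc]
  have hhI : ∫ θ, h θ ∂(tor κ) = ((C * ∏ i, Real.exp (-m i) * m i ^ k i / (k i).factorial : ℝ) : ℂ) := by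
    rw [hh]
    dsimp only
    rw [integral_fintype_prod_eq_prod (fun i (x : ℝ) =>
      (Complex.exp ((m i : ℂ) * (Complex.exp ((x : ℝ) * Complex.I) - 1)) *
      Complex.exp (((x * (-(k i : ℝ)) : ℝ) : ℂ) * Complex.I)))]
    simp only [poi_int]
    rw [← Complex.ofReal_prod, Finset.prod_mul_distrib, Finset.prod_const, Finset.card_univ]
  -- the difference
  have hle : ∀ᵐ θ ∂(tor κ), ‖g θ - h θ‖ ≤ ε := by
    filter_upwards [tor_mem κ] with θ hθ
    refine le_trans (le_of_eq ?_) (hc θ hθ)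
    set w : ℂ := Complex.exp (((∑ i, θ i * (-(k i : ℝ)) : ℝ) : ℂ) * Complex.I) with hw
    have hw1 : ‖w‖ = 1 := Complex.norm_exp_ofReal_mul_I _
    have e1 : g θ = w * EBc H (fun c => Complex.exp (((∑ i, θ i * cnt (A i) P c : ℝ) : ℂ) * Complex.I)) := by
      rw [hg, ← EBc_mul]
      dsimp only
      congr 1
      funext c
      rw [hF, hw, ← Complex.exp_add, ← add_mul, ← Complex.ofReal_add, ← Finset.sum_add_distrib]
      dsimp only
      rw [← Complex.exp_sum, ← Finset.sum_mul, ← Complex.ofReal_sum]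
      congr 3
      refine Finset.sum_congr rfl fun i _ => ?_
      push_cast
      ring
    have e2 : h θ = w * ∏ i, Complex.exp ((mu (A i) P : ℂ) * (Complex.exp ((θ i : ℝ) * Complex.I) - 1)) := by
      rw [hh]
      dsimp only
      rw [Finset.prod_mul_distrib, mul_comm]
      congr 1
      rw [hw, ← Complex.exp_sum, ← Finset.sum_mul, ← Complex.ofReal_sum]
    rw [e1, e2, ← mul_sub, norm_mul, hw1, one_mul]
  have hfin := norm_integral_le_of_norm_le_const hle
  rw [integral_sub hgi hhi, hgI, hhI, tor_univ, ← Complex.ofReal_sub, Complex.norm_real,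
    Real.norm_eq_abs, ← mul_sub, abs_mul, abs_of_pos hC0] at hfin
  have h3 : C * |EB H (fun c => if ∀ i, cnt (A i) P c = k i then 1 else 0) -
      ∏ i, Real.exp (-m i) * m i ^ k i / (k i).factorial| ≤ C * ε := by
    rw [mul_comm C ε]
    exact hfin
  exact le_of_mul_le_mul_left h3 hC0

end Pool.Agent.U62.RB
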