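import Pool.Agent.U62.RB.Fun
import Pool.Agent.U62.BM.Far

/-!
# The joint normal law for several bounded periodic functions
-/

set_option autoImplicit false
set_option linter.unusedSectionVars false

namespace Pool.Agent.U62.RB

open Finset Filter Topology Pool.Agent.Y722.HS Pool.Agent.X280.BP Pool.Agent.X280.UC
  Pool.Agent.X280.HG Pool.Agent.U62.BM MeasureTheory ProbabilityTheory

section
variable {ι : Type} [Fintype ι] [DecidableEq ι] {k : ℕ}

/-- **The law from the characteristic functions**, for a sequence. -/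
theorem law_seq (X : ℕ → (ι → ℤ) → (Fin k → ℝ)) (Hs : ℕ → ℕ)
    (hchar : ∀ (w : Fin k → ℝ) (ε : ℝ), 0 < ε → ∀ᶠ j : ℕ in atTop,
      ‖EBc (Hs j) (fun c => Complex.exp ((∑ i, w i * X j c i : ℝ) * Complex.I)) -
        (Real.exp (-((∑ i, w i ^ 2) / 2)) : ℝ)‖ ≤ ε)
    (S : Set (Fin k → ℝ)) (hS : MeasurableSet S) (hS0 : nor k (frontier S) = 0) :
    Tendsto (fun j => (lawE (Hs j) (X j)).real S) atTop (𝓝 ((nor k).real S)) := by
  set E := EuclideanSpace ℝ (Fin k) with hE
  set Y : ℕ → (ι → ℤ) → E := fun y c => WithLp.toLp 2 (X y c) with hY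
  set μ : ℕ → ProbabilityMeasure E := fun j => ⟨lawE (Hs j) (Y j), inferInstance⟩
    with hμ
  set ν' : ProbabilityMeasure E := ⟨stdGaussian E, inferInstance⟩ with hν
  have hconv : Tendsto μ atTop (𝓝 ν') := by
    rw [ProbabilityMeasure.tendsto_iff_tendsto_charFun]
    intro t
    rw [hν]
    change Tendsto (fun j => charFun (lawE (Hs j) (Y j)) t) atTop
      (𝓝 (charFun (stdGaussian E) t))
    rw [Metric.tendsto_atTop]
    intro δ hδ
    have hK := hchar (fun i => t i) (δ / 2) (half_pos hδ)
    rw [eventually_atTop] at hK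
    obtain ⟨N, hN⟩ := hK
    refine ⟨N, fun j hj => ?_⟩
    rw [lawE_char, dist_eq_norm]
    have h4 := hN j hj
    have e : charFun (stdGaussian E) t = ((Real.exp (-((∑ i, (t i) ^ 2) / 2)) : ℝ) : ℂ) := by
      rw [charFun_stdGaussian, ← Complex.ofReal_pow, EuclideanSpace.real_norm_sq_eq]
      push_cast
      congr 1
      ring
    rw [e]
    exact lt_of_le_of_lt h4 (by linarith)
  -- the set
  set Φ : E ≃ₜ (Fin k → ℝ) := (PiLp.continuousLinearEquiv 2 ℝ (fun _ : Fin k => ℝ)).toHomeomorph
    with hΦ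
  set S' : Set E := Φ ⁻¹' S with hS'
  have hS'm : MeasurableSet S' := Φ.continuous.measurable hS
  have hstd : ∀ A : Set (Fin k → ℝ), MeasurableSet A → stdGaussian E (Φ ⁻¹' A) = nor k A := by
    intro A hA
    have h8 := map_pi_eq_stdGaussian (ι := Fin k)
    have h9 : (Measure.map (WithLp.toLp 2) (nor k)) (Φ ⁻¹' A) = nor k A := by
      rw [Measure.map_apply (by fun_prop) (Φ.continuous.measurable hA)]
      rfl
    rw [← h9]
    exact (congrArg (fun m : Measure (EuclideanSpace ℝ (Fin k)) => m (Φ ⁻¹' A)) h8).symm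
  have hfr : (ν' : Measure E) (frontier S') = 0 := by
    rw [hS', ← Φ.preimage_frontier]
    change stdGaussian E (Φ ⁻¹' frontier S) = 0
    rw [hstd _ isClosed_frontier.measurableSet, hS0]
  have h4 := ProbabilityMeasure.tendsto_measure_of_null_frontier_of_tendsto' hconv hfr
  have h5 : Tendsto (fun j => (lawE (Hs j) (Y j)).real S') atTop
      (𝓝 ((stdGaussian E).real S')) :=
    (ENNReal.tendsto_toReal (measure_ne_top _ _)).comp h4
  have e1 : ∀ j, (lawE (Hs j) (Y j)).real S' = (lawE (Hs j) (X j)).real S := by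
    classical
    intro j
    rw [measureReal_def, measureReal_def, lawE_apply _ _ _ hS'm, lawE_apply _ _ _ hS]
    rfl
  have e2 : (stdGaussian E).real S' = (nor k).real S := by
    rw [measureReal_def, measureReal_def, hstd S hS]
  simp only [e1, e2] at h5
  exact h5

end

/-- The local covariance. -/
noncomputable def lcov {n : ℕ} (f g : (Fin n → ℤ) → ℝ) (p : ℕ) : ℝ :=
  lmean (fun c => f c * g c) p - lmean f p * lmean g p

theorem lmean_sum {n k : ℕ} (w : Fin k → ℝ) (f : Fin k → (Fin n → ℤ) → ℝ) (p : ℕ) :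
    lmean (fun c => ∑ i, w i * f i c) p = ∑ i, w i * lmean (f i) p := by
  unfold lmean
  rw [Finset.sum_comm, Finset.sum_div]
  refine Finset.sum_congr rfl fun i _ => ?_
  rw [← Finset.mul_sum]
  ring

theorem lvar_sum {n k : ℕ} (w : Fin k → ℝ) (f : Fin k → (Fin n → ℤ) → ℝ) (p : ℕ) :
    lvar (fun c => ∑ i, w i * f i c) p = ∑ i, ∑ j, w i * w j * lcov (f i) (f j) p := by
  unfold lvar lcov
  have e : (fun c => (∑ i, w i * f i c) ^ 2) = fun c => ∑ i, w i * (∑ j, w j * (f i c * f j c)) := by
    funext c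
    rw [sq, Finset.sum_mul]
    refine Finset.sum_congr rfl fun i _ => ?_
    rw [Finset.mul_sum, Finset.mul_sum]
    refine Finset.sum_congr rfl fun j _ => ?_
    ring
  rw [e, lmean_sum w (fun i c => ∑ j, w j * (f i c * f j c)), lmean_sum, sq, Finset.sum_mul,
    ← Finset.sum_sub_distrib]
  refine Finset.sum_congr rfl fun i _ => ?_
  rw [lmean_sum w (fun j c => f i c * f j c), Finset.mul_sum, Finset.mul_sum, ← Finset.sum_sub_distrib]
  refine Finset.sum_congr rfl fun j _ => ?_
  ring

/-- The data of the joint law. -/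
structure JD (n k : ℕ) where
  F : Fin k → ℕ → (Fin n → ℤ) → ℝ
  P : Finset ℕ
  V : ℝ
  y : ℕ
  H : ℕ

/-- Admissible data of level `K`. -/
structure JD.Ok {n k : ℕ} (D : JD n k) (K : ℕ) : Prop where
  prime : ∀ p ∈ D.P, p.Prime ∧ p ≤ D.y
  per : ∀ i, ∀ p ∈ D.P, PerF (D.F i p) p
  bound : ∀ i, ∀ p ∈ D.P, ∀ c, |D.F i p c| ≤ 1
  large : K ≤ D.V
  cov : ∀ i j, |∑ p ∈ D.P, lcov (D.F i p) (D.F j p) p - if i = j then D.V else 0| ≤ D.V / (K + 1)
  high : D.y ^ K ≤ D.H
  ypos : 1 ≤ D.y

/-- The normalised vector. -/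
noncomputable def JD.X {n k : ℕ} (D : JD n k) (c : Fin n → ℤ) (i : Fin k) : ℝ :=
  (∑ p ∈ D.P, D.F i p c - ∑ p ∈ D.P, lmean (D.F i p) p) / √D.V

theorem char_joint (n k : ℕ) (w : Fin k → ℝ) {ε : ℝ} (hε : 0 < ε) : ∃ K : ℕ, ∀ D : JD n k, D.Ok K →
    ‖EBc D.H (fun c => Complex.exp ((∑ i, w i * D.X c i : ℝ) * Complex.I)) -
        (Real.exp (-((∑ i, w i ^ 2) / 2)) : ℝ)‖ ≤ ε := by
  set W2 : ℝ := ∑ i, w i ^ 2 with hW2
  have hW20 : 0 ≤ W2 := Finset.sum_nonneg fun i _ => sq_nonneg _
  rcases eq_or_lt_of_le hW20 with h0 | hpos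
  · -- all the weights vanish
    refine ⟨0, fun D _ => ?_⟩
    have hw : ∀ i, w i = 0 := by
      intro i
      have h1 : w i ^ 2 ≤ ∑ i, w i ^ 2 := Finset.single_le_sum (f := fun i => w i ^ 2) (fun i _ => sq_nonneg _) (Finset.mem_univ i)
      have h2 : w i ^ 2 ≤ 0 := by
        rw [← hW2, ← h0] at h1
        exact h1
      exact pow_eq_zero_iff (two_ne_zero) |>.1 (le_antisymm h2 (sq_nonneg _))
    have e : (fun c => Complex.exp ((∑ i, w i * D.X c i : ℝ) * Complex.I)) = fun _ => 1 := by
      funext c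
      simp [hw]
    rw [e, ← h0]
    have e3 : EBc D.H (fun _ : Fin n → ℤ => (1 : ℂ)) = 1 := EBc_one D.H
    rw [e3]
    simp [hε.le]
  · set W : ℝ := √W2 with hW
    have hW0 : 0 < W := Real.sqrt_pos.2 hpos
    have hWW : W ^ 2 = W2 := Real.sq_sqrt hW20
    set A : ℝ := ∑ i, |w i| with hA
    have hA0 : 0 ≤ A := Finset.sum_nonneg fun i _ => abs_nonneg _
    obtain ⟨m, hm⟩ := unif_char2 (ι := Fin n) W hε
    -- the level
    have hm0 : (0 : ℝ) ≤ m := Nat.cast_nonneg m
    set L1 : ℝ := (2 * A * ((m : ℝ) + 1) / W) ^ 2 with hL1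
    set L2 : ℝ := A ^ 2 * ((m : ℝ) + 1) / W2 with hL2
    have hL10 : 0 ≤ L1 := sq_nonneg _
    have hL20 : 0 ≤ L2 := by positivity
    obtain ⟨K, hK1⟩ := exists_nat_ge (L1 + L2 + 2 * ((m : ℝ) + 1))
    refine ⟨K, fun D hD => ?_⟩
    have hKm : 2 * ((m : ℝ) + 1) ≤ K := by linarith
    have hK2 : L1 ≤ K := by linarith
    have hK3 : L2 ≤ K := by linarith
    have hV0 : 0 < D.V := by
      have := hD.large
      linarith
    have hsV : 0 < √D.V := Real.sqrt_pos.2 hV0
    set G : ℕ → (Fin n → ℤ) → ℝ := fun p c => ∑ i, w i * D.F i p c with hG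
    set Z : ∀ p : ℕ, (Fin n → ZMod p) → ℝ := fun p x => evF G p x - lmean (G p) p with hZ
    have hGb : ∀ p ∈ D.P, ∀ c, |G p c| ≤ A := by
      intro p hp c
      rw [hG, hA]
      refine (Finset.abs_sum_le_sum_abs _ _).trans (Finset.sum_le_sum fun i _ => ?_)
      rw [abs_mul]
      calc |w i| * |D.F i p c| ≤ |w i| * 1 := mul_le_mul_of_nonneg_left (hD.bound i p hp c) (abs_nonneg _)
        _ = |w i| := mul_one _
    have hper : ∀ p ∈ D.P, PerF (G p) p := by
      intro p hp c c' hc
      rw [hG]
      refine Finset.sum_congr rfl fun i _ => ?_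
      rw [hD.per i p hp c c' hc]
    have hvv : ∀ p ∈ D.P, vv Z p = lvar (G p) p := by
      intro p hp
      have : NeZero p := ⟨(hD.prime p hp).1.ne_zero⟩
      rw [vv_eq]
      have e : (fun x => Z p x ^ 2) = fun x => (evF (fun q c => G q c ^ 2) p x - 2 * lmean (G p) p * evF G p x) +
          lmean (G p) p ^ 2 := by
        funext x
        rw [hZ]
        unfold evF
        ring
      rw [e, EM_add', EM_sub', EM_mul', EM_const', EM_evF, EM_evF]
      unfold lvar
      ring
    have hVP : |VP Z D.P - W2 * D.V| ≤ A ^ 2 * (D.V / (K + 1)) := by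
      have e1 : VP Z D.P = ∑ i, ∑ j, w i * w j * ∑ p ∈ D.P, lcov (D.F i p) (D.F j p) p := by
        unfold VP
        rw [Finset.sum_congr rfl hvv]
        have e2 : ∀ p ∈ D.P, lvar (G p) p = ∑ i, ∑ j, w i * w j * lcov (D.F i p) (D.F j p) p := by
          intro p _
          exact lvar_sum w (fun i => D.F i p) p
        rw [Finset.sum_congr rfl e2, Finset.sum_comm]
        refine Finset.sum_congr rfl fun i _ => ?_
        rw [Finset.sum_comm]
        refine Finset.sum_congr rfl fun j _ => ?_
        rw [Finset.mul_sum]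
      have e3 : W2 * D.V = ∑ i, ∑ j, w i * w j * (if i = j then D.V else 0) := by
        rw [hW2, Finset.sum_mul]
        refine Finset.sum_congr rfl fun i _ => ?_
        simp only [mul_ite, mul_zero, Finset.sum_ite_eq, Finset.mem_univ, if_true]
        ring
      have e4 : VP Z D.P - W2 * D.V = ∑ i, ∑ j, w i * w j *
          (∑ p ∈ D.P, lcov (D.F i p) (D.F j p) p - if i = j then D.V else 0) := by
        rw [e1, e3, ← Finset.sum_sub_distrib]
        refine Finset.sum_congr rfl fun i _ => ?_
        rw [← Finset.sum_sub_distrib]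
        refine Finset.sum_congr rfl fun j _ => ?_
        ring
      rw [e4]
      have e5 : A ^ 2 * (D.V / (K + 1)) = ∑ i, ∑ j, |w i| * |w j| * (D.V / (K + 1)) := by
        rw [hA, sq, Finset.sum_mul, Finset.sum_mul]
        refine Finset.sum_congr rfl fun i _ => ?_
        rw [Finset.mul_sum, Finset.sum_mul]
      rw [e5]
      refine (Finset.abs_sum_le_sum_abs _ _).trans (Finset.sum_le_sum fun i _ => ?_)
      refine (Finset.abs_sum_le_sum_abs _ _).trans (Finset.sum_le_sum fun j _ => ?_)
      rw [abs_mul, abs_mul]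
      exact mul_le_mul_of_nonneg_left (hD.cov i j) (by positivity)
    have hSP : ∀ c, SP Z D.P c = √D.V * ∑ i, w i * D.X c i := by
      intro c
      unfold SP
      rw [hZ]
      dsimp only
      rw [Finset.sum_sub_distrib]
      have e1 : ∑ p ∈ D.P, evF G p (red p c) = ∑ p ∈ D.P, G p c := by
        refine Finset.sum_congr rfl fun p hp => ?_
        have : NeZero p := ⟨(hD.prime p hp).1.ne_zero⟩
        exact evF_red (hper p hp) c
      rw [e1]
      have e2 : ∑ p ∈ D.P, G p c = ∑ i, w i * ∑ p ∈ D.P, D.F i p c := by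
        rw [hG]
        dsimp only
        rw [Finset.sum_comm]
        refine Finset.sum_congr rfl fun i _ => ?_
        rw [Finset.mul_sum]
      have e3 : ∑ p ∈ D.P, lmean (G p) p = ∑ i, w i * ∑ p ∈ D.P, lmean (D.F i p) p := by
        have e4 : ∀ p ∈ D.P, lmean (G p) p = ∑ i, w i * lmean (D.F i p) p := by
          intro p _
          exact lmean_sum w (fun i => D.F i p) p
        rw [Finset.sum_congr rfl e4, Finset.sum_comm]
        refine Finset.sum_congr rfl fun i _ => ?_
        rw [Finset.mul_sum]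
      rw [e2, e3, ← Finset.sum_sub_distrib, Finset.mul_sum]
      refine Finset.sum_congr rfl fun i _ => ?_
      unfold JD.X
      field_simp
    set σ : ℝ := √D.V * W with hσ
    have hσ0 : 0 < σ := by positivity
    have hσ2 : σ ^ 2 = W2 * D.V := by
      rw [hσ, mul_pow, hWW, Real.sq_sqrt hV0.le]
      ring
    set D2 : Dat2 (Fin n) := ⟨D.P, D.y, D.H, Z, fun c => SP Z D.P c / σ, σ⟩ with hD2
    have hKV : (K : ℝ) ≤ D.V := hD.large
    have hcardV : D.V ≤ 2 * D.P.card + 0 ∨ k = 0 := by
      rcases Nat.eq_zero_or_pos k with hk | hk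
      · exact Or.inr hk
      · left
        have h1 := hD.cov ⟨0, hk⟩ ⟨0, hk⟩
        rw [if_pos rfl] at h1
        have h2 : ∑ p ∈ D.P, lcov (D.F ⟨0, hk⟩ p) (D.F ⟨0, hk⟩ p) p ≤ D.P.card := by
          calc ∑ p ∈ D.P, lcov (D.F ⟨0, hk⟩ p) (D.F ⟨0, hk⟩ p) p ≤ ∑ _p ∈ D.P, (1 : ℝ) := by
                refine Finset.sum_le_sum fun p hp => ?_
                have : NeZero p := ⟨(hD.prime p hp).1.ne_zero⟩
                have h3 := lvar_le (D.F ⟨0, hk⟩ p) (p := p) (B := 1) (hD.bound ⟨0, hk⟩ p hp)
                have e : lcov (D.F ⟨0, hk⟩ p) (D.F ⟨0, hk⟩ p) p = lvar (D.F ⟨0, hk⟩ p) p := by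
                  unfold lcov lvar
                  rw [sq]
                  congr 2
                  funext c
                  rw [sq]
                rw [e]
                linarith
            _ = D.P.card := by rw [Finset.sum_const, nsmul_eq_mul, mul_one]
        have h3 := (abs_le.1 h1).1
        have h4 : D.V / (K + 1) ≤ D.V / 2 := by
          refine div_le_div_of_nonneg_left hV0.le (by norm_num) ?_
          linarith
        linarith
    have hy : m ≤ D.y := by
      rcases hcardV with h | h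
      · have hcard : D.P.card ≤ D.y := by
          have h1 : D.P ⊆ Finset.Icc 1 D.y := by
            intro p hp
            rw [Finset.mem_Icc]
            exact ⟨(hD.prime p hp).1.pos, (hD.prime p hp).2⟩
          have h2 := Finset.card_le_card h1
          rwa [Nat.card_Icc, Nat.add_sub_cancel] at h2
        have h4 : (D.P.card : ℝ) ≤ D.y := by exact_mod_cast hcard
        have h5 : (m : ℝ) ≤ D.y := by linarith
        exact_mod_cast h5
      · exfalso
        subst h
        simp at hW2
        linarith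
    have hOk : D2.Ok m := by
      refine ⟨fun p hp => (hD.prime p hp).1, fun p hp => (hD.prime p hp).2, hσ0, ?_, ?_, ?_, hy, ?_, ?_⟩
      · intro p hp x
        change |Z p x| ≤ σ / (m + 1)
        have : NeZero p := ⟨(hD.prime p hp).1.ne_zero⟩
        have h1 : |Z p x| ≤ 2 * A := by
          rw [hZ]
          dsimp only
          have h2 : |evF G p x| ≤ A := hGb p hp _
          have h3 : |lmean (G p) p| ≤ A := lmean_abs_le _ (hGb p hp)
          calc |evF G p x - lmean (G p) p| ≤ |evF G p x| + |lmean (G p) p| := abs_sub _ _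
            _ ≤ 2 * A := by linarith
        refine h1.trans ?_
        rw [le_div_iff₀ (by positivity)]
        have h4 : 2 * A * ((m : ℝ) + 1) / W ≤ √D.V := by
          refine Real.le_sqrt_of_sq_le ?_
          rw [← hL1]
          linarith
        rw [div_le_iff₀ hW0] at h4
        exact h4
      · intro p hp _
        change EM p (Z p) = 0
        have e : Z p = fun x => evF G p x - lmean (G p) p := rfl
        rw [e, EM_sub', EM_const', EM_evF, sub_self]
      · change |VP Z D.P - σ ^ 2| ≤ σ ^ 2 / (m + 1)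
        rw [hσ2]
        refine hVP.trans ?_
        rw [le_div_iff₀ (by positivity)]
        have h1 : A ^ 2 * (D.V / (K + 1)) * (m + 1) = (A ^ 2 * (m + 1)) * (D.V / (K + 1)) := by ring
        have h2 : A ^ 2 * ((m : ℝ) + 1) = L2 * W2 := by
          rw [hL2]
          field_simp
        have h3 : D.V / ((K : ℝ) + 1) * (K + 1) = D.V := by
          have : (0 : ℝ) ≤ K := Nat.cast_nonneg K
          field_simp
        rw [h1, h2]
        have h4 : 0 ≤ D.V / ((K : ℝ) + 1) := by positivity
        have h5 : L2 * (D.V / ((K : ℝ) + 1)) ≤ (K + 1) * (D.V / (K + 1)) :=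
          mul_le_mul_of_nonneg_right (by linarith) h4
        calc L2 * W2 * (D.V / ((K : ℝ) + 1)) = W2 * (L2 * (D.V / (K + 1))) := by ring
          _ ≤ W2 * ((K + 1) * (D.V / (K + 1))) := mul_le_mul_of_nonneg_left h5 hW20
          _ = W2 * D.V := by
            rw [mul_comm ((K : ℝ) + 1) (D.V / (K + 1)), h3]
      · change D.y ^ m ≤ D.H
        refine le_trans ?_ hD.high
        have h1 : m ≤ K := by
          have : (m : ℝ) ≤ K := by linarith
          exact_mod_cast this
        rcases Nat.eq_zero_or_pos D.y with h0 | h0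
        · have hm' : m = 0 := by omega
          subst hm'
          rcases hcardV with h | h
          · exfalso
            have hPe : D.P = ∅ := by
              rw [Finset.eq_empty_iff_forall_notMem]
              intro p hp
              have := (hD.prime p hp).1.pos
              have := (hD.prime p hp).2
              omega
            rw [hPe] at h
            simp at h
            linarith
          · exfalso
            subst h
            simp at hW2
            linarith
        · exact Nat.pow_le_pow_right h0 h1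
      · change EB D.H (far (fun c => SP Z D.P c / σ) (fun c => SP Z D.P c / σ) (1 / (m + 1))) ≤ 1 / (m + 1)
        have e : far (fun c => SP Z D.P c / σ) (fun c => SP Z D.P c / σ) (1 / ((m : ℝ) + 1)) =
            fun _ : Fin n → ℤ => (0 : ℝ) := by
          funext c
          unfold far
          rw [sub_self, abs_zero, if_pos (by positivity)]
        rw [e, Pool.Agent.X280.BP.EB_const]
        positivity
    have h := hm D2 hOk
    have e1 : (fun c => Complex.exp ((W * D2.Q c : ℝ) * Complex.I)) =
        fun c => Complex.exp ((∑ i, w i * D.X c i : ℝ) * Complex.I) := by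
      funext c
      have e2 : W * D2.Q c = ∑ i, w i * D.X c i := by
        change W * (SP Z D.P c / σ) = _
        rw [hSP, hσ]
        field_simp
      rw [e2]
    rw [e1, hWW] at h
    exact h

/-- **The joint normal law.** -/
theorem joint_law (n k : ℕ) (S : Set (Fin k → ℝ)) (hS : MeasurableSet S) (hS0 : nor k (frontier S) = 0)
    {ε : ℝ} (hε : 0 < ε) : ∃ K : ℕ, ∀ D : JD n k, D.Ok K →
    |(lawE D.H D.X).real S - (nor k).real S| ≤ ε := by
  by_contra hcon
  push Not at hcon
  choose Ds h1 h2 using hcon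
  have h3 := law_seq (fun j => (Ds j).X) (fun j => (Ds j).H) (fun w e he => by
    obtain ⟨K, hK⟩ := char_joint n k w he
    filter_upwards [eventually_ge_atTop K] with j hj
    refine hK (Ds j) ?_
    have ho := h1 j
    have hjr : (K : ℝ) ≤ j := by exact_mod_cast hj
    have hK0 : (0 : ℝ) ≤ K := Nat.cast_nonneg K
    refine ⟨ho.prime, ho.per, ho.bound, hjr.trans ho.large, fun i i' => (ho.cov i i').trans ?_,
      (Nat.pow_le_pow_right ho.ypos hj).trans ho.high, ho.ypos⟩
    refine div_le_div_of_nonneg_left ?_ (by linarith) (by linarith)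
    exact (Nat.cast_nonneg j).trans ho.large) S hS hS0
  rw [Metric.tendsto_atTop] at h3
  obtain ⟨N, hN⟩ := h3 ε hε
  have h4 := hN N le_rfl
  rw [Real.dist_eq] at h4
  exact absurd h4 (not_lt.2 (h2 N).le)

/-- The orthants. -/
def orth {k : ℕ} (u : Fin k → ℝ) : Set (Fin k → ℝ) := Set.pi Set.univ fun i => Set.Iic (u i)

theorem orth_closed {k : ℕ} (u : Fin k → ℝ) : IsClosed (orth u) :=
  isClosed_set_pi fun _ _ => isClosed_Iic

theorem orth_frontier {k : ℕ} (u : Fin k → ℝ) : nor k (frontier (orth u)) = 0 := by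
  have h1 : frontier (orth u) ⊆ ⋃ i : Fin k, {x | ∑ j, (if j = i then (1 : ℝ) else 0) * x j = u i} := by
    intro x hx
    have h2 : x ∈ orth u := (orth_closed u).frontier_subset hx
    by_contra hcon
    rw [Set.mem_iUnion] at hcon
    push Not at hcon
    have h3 : ∀ i, x i < u i := by
      intro i
      refine lt_of_le_of_ne (h2 i (Set.mem_univ i)) ?_
      intro h4
      refine hcon i ?_
      simp [h4]
    have h5 : IsOpen (Set.pi Set.univ fun i => Set.Iio (u i)) :=
      isOpen_set_pi Set.finite_univ fun i _ => isOpen_Iio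
    have h6 : (Set.pi Set.univ fun i => Set.Iio (u i)) ⊆ orth u := by
      intro z hz i hi
      exact le_of_lt (show z i < u i from hz i hi)
    have h7 : x ∈ interior (orth u) := by
      rw [mem_interior]
      exact ⟨_, h6, h5, fun i _ => h3 i⟩
    exact hx.2 h7
  refine measure_mono_null h1 (measure_iUnion_null fun i => ?_)
  exact nor_hyper (fun j => if j = i then (1 : ℝ) else 0) ⟨i, by simp⟩ (u i)

theorem nor_orth {k : ℕ} (u : Fin k → ℝ) :
    (nor k).real (orth u) = ∏ i, (gaussianReal 0 1).real (Set.Iic (u i)) := by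
  unfold nor orth
  rw [measureReal_def, Measure.pi_pi, ENNReal.toReal_prod]
  rfl

open scoped Classical in
/-- **The joint normal law**, for the distribution functions. -/
theorem joint_orth (n k : ℕ) (u : Fin k → ℝ) {ε : ℝ} (hε : 0 < ε) : ∃ K : ℕ, ∀ D : JD n k, D.Ok K →
    |prop D.H (fun c => ∀ i, ∑ p ∈ D.P, D.F i p c ≤ ∑ p ∈ D.P, lmean (D.F i p) p + u i * √D.V) -
      ∏ i, (gaussianReal 0 1).real (Set.Iic (u i))| ≤ ε := by
  obtain ⟨K, hK⟩ := joint_law n k (orth u) (orth_closed u).measurableSet (orth_frontier u) hε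
  refine ⟨K + 1, fun D hD => ?_⟩
  have hV : 0 < D.V := by
    have := hD.large
    push_cast at this
    have h0 : (0 : ℝ) ≤ K := Nat.cast_nonneg K
    linarith
  have hsV : 0 < √D.V := Real.sqrt_pos.2 hV
  have hD2 : D.Ok K := by
    refine ⟨hD.prime, hD.per, hD.bound, ?_, fun i j => (hD.cov i j).trans ?_, ?_, hD.ypos⟩
    · have := hD.large
      push_cast at this
      linarith
    · refine div_le_div_of_nonneg_left hV.le (by positivity) ?_
      push_cast
      linarith
    · exact (Nat.pow_le_pow_right hD.ypos (by omega)).trans hD.high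
  have h := hK D hD2
  rw [nor_orth] at h
  refine le_trans (le_of_eq ?_) h
  congr 2
  rw [measureReal_def, lawE_apply _ _ _ (orth_closed u).measurableSet, ENNReal.toReal_ofReal (by positivity)]
  rw [prop_eq]
  unfold EB
  congr 1
  dsimp only
  have key : ∀ c, (∀ i, ∑ p ∈ D.P, D.F i p c ≤ ∑ p ∈ D.P, lmean (D.F i p) p + u i * √D.V) ↔ D.X c ∈ orth u := by
    intro c
    unfold orth
    rw [Set.mem_univ_pi]
    refine forall_congr' fun i => ?_
    rw [Set.mem_Iic]
    unfold JD.X
    rw [div_le_iff₀ hsV]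
    constructor
    · intro h; linarith
    · intro h; linarith
  refine (Finset.sum_congr rfl fun c _ => ?_).trans (Finset.sum_boole (fun c => D.X c ∈ orth u) _)
  by_cases hc : D.X c ∈ orth u
  · rw [if_pos hc, if_pos ((key c).2 hc)]
  · rw [if_neg hc, if_neg fun h' => hc ((key c).1 h')]

end Pool.Agent.U62.RB
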