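import Pool.Agent.U62.RB.Joint
import Pool.Agent.TH894.NF3
import Pool.Agent.H498R2.KlWeil

/-!
# Kloosterman sums: the local data
-/

set_option autoImplicit false
set_option linter.unusedSectionVars false

namespace Pool.Agent.U62.RB

open Finset Filter Topology Pool.Agent.Y722.HS Pool.Agent.X280.BP
open Pool.Agent.TH375.KL (rk KK rk_eq KK_conj prim m1 m2 sign_mean)

/-- The Kloosterman sum `S(a, 1; p)`. -/
noncomputable def kl (p : ℕ) (a : ℤ) : ℝ :=
  ∑ x ∈ Ico 1 p, Real.cos (2 * Real.pi * ((((a : ZMod p) * (x : ZMod p) + (x : ZMod p)⁻¹).val : ℕ) : ℝ) / (p : ℝ))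

theorem kl_congr {p : ℕ} {a b : ℤ} (h : (p : ℤ) ∣ a - b) : kl p a = kl p b := by
  have e : (a : ZMod p) = b := by
    rw [← sub_eq_zero, ← Int.cast_sub, ZMod.intCast_zmod_eq_zero_iff_dvd]
    exact h
  unfold kl
  rw [e]

theorem kl_eq {p : ℕ} [hp : Fact p.Prime] (a : ℤ) : kl p a = rk p (a : ZMod p) 1 := by
  have h := Pool.Agent.TH894.NF.kls_eq (p := p) (a : ZMod p).val
  rw [ZMod.natCast_zmod_val] at h
  rw [← h]
  unfold kl Pool.Agent.TH894.NF.kls
  rw [ZMod.natCast_zmod_val]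

/-- **Weil's bound.** -/
theorem kl_weil {p : ℕ} [hp : Fact p.Prime] (a : ℤ) : |kl p a| ≤ 2 * √p := by
  have hp1 : (1 : ℝ) ≤ p := by exact_mod_cast hp.out.one_lt.le
  have hs1 : (1 : ℝ) ≤ √p := Real.one_le_sqrt.2 hp1
  by_cases h2 : p = 2
  · have h1 : |kl p a| ≤ 1 := by
      unfold kl
      refine (Finset.abs_sum_le_sum_abs _ _).trans ?_
      calc ∑ x ∈ Ico 1 p, |Real.cos (2 * Real.pi * ((((a : ZMod p) * (x : ZMod p) + (x : ZMod p)⁻¹).val : ℕ) : ℝ) / (p : ℝ))|
          ≤ ∑ _x ∈ Ico 1 p, (1 : ℝ) := Finset.sum_le_sum fun x _ => Real.abs_cos_le_one _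
        _ = 1 := by
          rw [Finset.sum_const, nsmul_eq_mul, mul_one, Nat.card_Ico, h2]
          norm_num
    linarith
  · rw [kl_eq]
    by_cases ha : (a : ZMod p) = 0
    · rw [ha]
      have h3 : KK p 0 1 = -1 := by
        unfold KK Pool.Agent.Helper916.Kl
        simp only [zero_mul, zero_add, one_mul]
        have h1 : ∑ z : ZMod p, ZMod.stdAddChar z = (0 : ℂ) := by
          have := AddChar.sum_mulShift (1 : ZMod p) (prim (p := p))
          rw [if_neg one_ne_zero, Nat.cast_zero] at this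
          rw [← this]
          exact sum_congr rfl fun z _ => by rw [mul_one]
        have h2 : ∑ z ∈ univ.erase (0 : ZMod p), ZMod.stdAddChar z⁻¹ = ∑ z ∈ univ.erase (0 : ZMod p), (ZMod.stdAddChar z : ℂ) := by
          refine Finset.sum_bij (fun z _ => z⁻¹) ?_ ?_ ?_ ?_
          · intro z hz
            rw [mem_erase] at hz ⊢
            exact ⟨inv_ne_zero hz.1, mem_univ _⟩
          · intro x _ y _ hxy
            exact inv_injective hxy
          · intro y hy
            rw [mem_erase] at hy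
            exact ⟨y⁻¹, mem_erase.2 ⟨inv_ne_zero hy.1, mem_univ _⟩, inv_inv y⟩
          · intro z _
            rfl
        rw [h2]
        rw [← add_sum_erase _ _ (mem_univ (0 : ZMod p)), AddChar.map_zero_eq_one] at h1
        linear_combination h1
      unfold rk
      rw [h3]
      simp only [Complex.neg_re, Complex.one_re, abs_neg, abs_one]
      linarith
    · have hF : ringChar (ZMod p) ≠ 2 := by
        rw [ZMod.ringChar_zmod_n]
        exact h2
      have h3 := Pool.Agent.H498R2.Kl.kloosterman_le hF (prim (p := p)) ha (one_ne_zero)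
      rw [ZMod.card] at h3
      have h4 : ∑ x : ZMod p, (if x = 0 then (0 : ℂ) else ZMod.stdAddChar ((a : ZMod p) * x + 1 * x⁻¹)) = KK p a 1 := by
        unfold KK Pool.Agent.Helper916.Kl
        rw [← add_sum_erase _ _ (mem_univ (0 : ZMod p)), if_pos rfl, zero_add]
        refine sum_congr rfl fun x hx => ?_
        rw [if_neg (mem_erase.1 hx).1]
      rw [h4] at h3
      exact (Complex.abs_re_le_norm _).trans h3

/-- The correlation of the Kloosterman sums with a shift. -/
theorem corr_shift {p : ℕ} [hp : Fact p.Prime] {u : ZMod p} (hu : u ≠ 0) :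
    ∑ a : ZMod p, rk p a 1 * rk p (a + u) 1 = -(p : ℝ) := by
  have h : ((∑ a : ZMod p, rk p a 1 * rk p (a + u) 1 : ℝ) : ℂ) = -(p : ℂ) := by
    push_cast
    simp only [rk_eq]
    have e1 : ∀ a : ZMod p, KK p a 1 * KK p (a + u) 1 = ∑ x ∈ univ.erase (0 : ZMod p),
        ∑ y ∈ univ.erase (0 : ZMod p),
        ZMod.stdAddChar (u * y + x⁻¹ + y⁻¹) * ZMod.stdAddChar (a * (x + y)) := by
      intro a
      unfold KK Pool.Agent.Helper916.Kl
      rw [sum_mul_sum]
      refine sum_congr rfl fun x _ => sum_congr rfl fun y _ => ?_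
      rw [← AddChar.map_add_eq_mul, ← AddChar.map_add_eq_mul]
      congr 1
      ring
    rw [sum_congr rfl fun a _ => e1 a, sum_comm]
    have e2 : ∀ x ∈ univ.erase (0 : ZMod p), ∑ a : ZMod p, ∑ y ∈ univ.erase (0 : ZMod p),
        (ZMod.stdAddChar (u * y + x⁻¹ + y⁻¹) : ℂ) * ZMod.stdAddChar (a * (x + y)) =
        (p : ℂ) * ZMod.stdAddChar (u * (-x)) := by
      intro x hx
      have hx0 : x ≠ 0 := (mem_erase.1 hx).1
      rw [sum_comm]
      have e3 : ∀ y ∈ univ.erase (0 : ZMod p), ∑ a : ZMod p,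
          (ZMod.stdAddChar (u * y + x⁻¹ + y⁻¹) : ℂ) * ZMod.stdAddChar (a * (x + y)) =
          if y = -x then (p : ℂ) * ZMod.stdAddChar (u * (-x)) else 0 := by
        intro y _
        rw [← mul_sum, AddChar.sum_mulShift _ (prim (p := p)), ZMod.card]
        by_cases hxy : x + y = 0
        · have hy : y = -x := by linear_combination hxy
          rw [if_pos hxy, if_pos hy, hy, inv_neg]
          rw [mul_comm]
          congr 2
          ring
        · have hy : y ≠ -x := fun h => hxy (by rw [h]; ring)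
          rw [if_neg hxy, if_neg hy, Nat.cast_zero, mul_zero]
      rw [sum_congr rfl e3, Finset.sum_ite_eq' , if_pos]
      rw [mem_erase]
      exact ⟨neg_ne_zero.2 hx0, mem_univ _⟩
    rw [sum_congr rfl e2, ← mul_sum]
    have h1 : ∑ z : ZMod p, ZMod.stdAddChar (u * (-z)) = (0 : ℂ) := by
      have := AddChar.sum_mulShift (-u) (prim (p := p))
      rw [if_neg (neg_ne_zero.2 hu), Nat.cast_zero] at this
      rw [← this]
      exact sum_congr rfl fun z _ => by
        congr 1
        ring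
    rw [← add_sum_erase _ _ (mem_univ (0 : ZMod p))] at h1
    rw [neg_zero, mul_zero, AddChar.map_zero_eq_one] at h1
    linear_combination (p : ℂ) * h1
  exact_mod_cast h

theorem lmean_one {p : ℕ} [NeZero p] (G : ZMod p → ℝ) :
    lmean (fun c : Fin 1 → ℤ => G ((c 0 : ℤ) : ZMod p)) p = (∑ a : ZMod p, G a) / p := by
  have h := EM_evF (fun _ (c : Fin 1 → ℤ) => G ((c 0 : ℤ) : ZMod p)) p
  rw [← h]
  unfold EM
  rw [Fintype.card_fin, pow_one]
  congr 1
  refine Fintype.sum_equiv (Equiv.funUnique (Fin 1) (ZMod p)) _ _ fun x => ?_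
  unfold evF
  have e : (((x 0).val : ℤ) : ZMod p) = x 0 := by
    push_cast
    exact ZMod.natCast_zmod_val _
  change G (((x 0).val : ℤ) : ZMod p) = G (x 0)
  rw [e]

/-! ### The covariances of the shifts -/

/-- The local function: the normalised sum at a shifted argument. -/
noncomputable def FK (h : ℤ) (w : ℝ) (p : ℕ) (c : Fin 1 → ℤ) : ℝ := w * (kl p (c 0 + h) / (2 * √p))

theorem FK_abs {h : ℤ} {w : ℝ} (hw : |w| ≤ 1) {p : ℕ} (hp : p.Prime) (c : Fin 1 → ℤ) : |FK h w p c| ≤ 1 := by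
  have : Fact p.Prime := ⟨hp⟩
  have hs : 0 < √(p : ℝ) := Real.sqrt_pos.2 (by exact_mod_cast hp.pos)
  unfold FK
  rw [abs_mul, abs_div, abs_of_pos (by positivity : (0 : ℝ) < 2 * √p)]
  have h1 : |kl p (c 0 + h)| / (2 * √p) ≤ 1 := by
    rw [div_le_one (by positivity)]
    exact kl_weil _
  have h2 : 0 ≤ |kl p (c 0 + h)| / (2 * √p) := by positivity
  have h3 := abs_nonneg w
  nlinarith

theorem FK_per (h : ℤ) (w : ℝ) (p : ℕ) : PerF (FK h w p) p := by
  intro c c' hc
  unfold FK
  rw [kl_congr (a := c 0 + h) (b := c' 0 + h) (by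
    have e : c 0 + h - (c' 0 + h) = c 0 - c' 0 := by ring
    rw [e]
    exact hc 0)]

theorem FK_eq (h : ℤ) (w : ℝ) {p : ℕ} [hp : Fact p.Prime] : FK h w p =
    fun c : Fin 1 → ℤ => (fun a : ZMod p => w * (rk p (a + (h : ZMod p)) 1 / (2 * √p))) ((c 0 : ℤ) : ZMod p) := by
  funext c
  unfold FK
  rw [kl_eq]
  push_cast
  rfl

theorem FK_mean (h : ℤ) (w : ℝ) {p : ℕ} (hp : p.Prime) : lmean (FK h w p) p = 0 := by
  have : Fact p.Prime := ⟨hp⟩
  have : NeZero p := ⟨hp.ne_zero⟩
  rw [FK_eq, lmean_one (fun a : ZMod p => w * (rk p (a + (h : ZMod p)) 1 / (2 * √p))), ← mul_sum, ← sum_div]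
  have h1 : ∑ a : ZMod p, rk p (a + (h : ZMod p)) 1 = ∑ a : ZMod p, rk p a 1 :=
    Equiv.sum_comp (Equiv.addRight (h : ZMod p)) fun a => rk p a 1
  rw [h1, m1]
  simp

theorem FK_cov (h h' : ℤ) (w : ℝ) {p : ℕ} (hp : p.Prime) :
    lcov (FK h w p) (FK h' w p) p = w ^ 2 / 4 * (if (p : ℤ) ∣ h - h' then 1 - 1 / (p : ℝ) else -(1 / (p : ℝ))) := by
  have : Fact p.Prime := ⟨hp⟩
  have : NeZero p := ⟨hp.ne_zero⟩
  have hp0 : (0 : ℝ) < p := by exact_mod_cast hp.pos
  have hs : √(p : ℝ) * √p = p := Real.mul_self_sqrt hp0.le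
  have hs0 : √(p : ℝ) ≠ 0 := (Real.sqrt_pos.2 hp0).ne'
  unfold lcov
  rw [FK_mean h w hp, FK_mean h' w hp, mul_zero, sub_zero, FK_eq, FK_eq]
  have e : (fun c : Fin 1 → ℤ => (fun a : ZMod p => w * (rk p (a + (h : ZMod p)) 1 / (2 * √p))) ((c 0 : ℤ) : ZMod p) *
      (fun a : ZMod p => w * (rk p (a + (h' : ZMod p)) 1 / (2 * √p))) ((c 0 : ℤ) : ZMod p)) =
      fun c : Fin 1 → ℤ => (fun a : ZMod p => w ^ 2 / 4 / p * (rk p (a + (h : ZMod p)) 1 * rk p (a + (h' : ZMod p)) 1))
        ((c 0 : ℤ) : ZMod p) := by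
    funext c
    dsimp only
    have e2 : (p : ℝ) = √p * √p := hs.symm
    field_simp
    rw [Real.sq_sqrt hp0.le]
    ring
  rw [e, lmean_one (fun a : ZMod p => w ^ 2 / 4 / p * (rk p (a + (h : ZMod p)) 1 * rk p (a + (h' : ZMod p)) 1)), ← mul_sum]
  have h1 : ∑ a : ZMod p, rk p (a + (h : ZMod p)) 1 * rk p (a + (h' : ZMod p)) 1 =
      ∑ a : ZMod p, rk p a 1 * rk p (a + ((h' : ZMod p) - (h : ZMod p))) 1 := by
    refine Fintype.sum_equiv (Equiv.addRight (h : ZMod p)) _ _ fun a => ?_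
    rw [Equiv.coe_addRight]
    congr 2
    ring
  rw [h1]
  by_cases hd : (p : ℤ) ∣ h - h'
  · rw [if_pos hd]
    have h2 : (h' : ZMod p) - (h : ZMod p) = 0 := by
      rw [← ZMod.intCast_zmod_eq_zero_iff_dvd] at hd
      push_cast at hd
      linear_combination -hd
    rw [h2]
    simp only [add_zero]
    have h3 := m2 (p := p)
    have h4 : ∑ a : ZMod p, rk p a 1 * rk p a 1 = p * ((p : ℝ) - 1) := by
      rw [← h3]
      exact sum_congr rfl fun a _ => by ring
    rw [h4]
    field_simp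
  · rw [if_neg hd]
    have h2 : (h' : ZMod p) - (h : ZMod p) ≠ 0 := by
      intro h3
      refine hd ?_
      rw [← ZMod.intCast_zmod_eq_zero_iff_dvd]
      push_cast
      linear_combination -h3
    rw [corr_shift h2]
    field_simp

/-- few primes divide a nonzero integer -/
theorem few_dvd {m : ℤ} (hm : m ≠ 0) (P : Finset ℕ) (hP : ∀ p ∈ P, p.Prime) :
    (P.filter fun p : ℕ => (p : ℤ) ∣ m).card ≤ m.natAbs := by
  have h1 : P.filter (fun p : ℕ => (p : ℤ) ∣ m) ⊆ Finset.Icc 1 m.natAbs := by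
    intro p hp
    rw [Finset.mem_filter] at hp
    rw [Finset.mem_Icc]
    refine ⟨(hP p hp.1).pos, ?_⟩
    have h2 : p ∣ m.natAbs := Int.natCast_dvd.1 hp.2
    exact Nat.le_of_dvd (Int.natAbs_pos.2 hm) h2
  have h2 := Finset.card_le_card h1
  rwa [Nat.card_Icc, Nat.add_sub_cancel] at h2

/-- the reciprocals of the members of a large set -/
theorem sum_inv_le (P : Finset ℕ) (hP : ∀ p ∈ P, p.Prime) {T : ℕ} (hT : 1 ≤ T) :
    ∑ p ∈ P, (1 : ℝ) / p ≤ T + P.card / T := by
  have hT0 : (0 : ℝ) < T := by exact_mod_cast hT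
  calc ∑ p ∈ P, (1 : ℝ) / p ≤ ∑ p ∈ P, ((if p < T then (1 : ℝ) else 0) + 1 / T) := by
        refine Finset.sum_le_sum fun p hp => ?_
        have hp1 : (1 : ℝ) ≤ p := by exact_mod_cast (hP p hp).one_lt.le
        split_ifs with h
        · have h1 : (1 : ℝ) / p ≤ 1 := by
            rw [div_le_one (by linarith)]
            exact hp1
          have h2 : (0 : ℝ) ≤ 1 / T := by positivity
          linarith
        · have h1 : (T : ℝ) ≤ p := by
            push Not at h
            exact_mod_cast h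
          rw [zero_add]
          exact one_div_le_one_div_of_le hT0 h1
    _ ≤ T + P.card / T := by
        rw [Finset.sum_add_distrib, Finset.sum_const, nsmul_eq_mul]
        have h1 : ∑ p ∈ P, (if p < T then (1 : ℝ) else 0) ≤ T := by
          rw [← Finset.sum_filter, Finset.sum_const, nsmul_eq_mul, mul_one]
          have : (P.filter fun p => p < T).card ≤ T := by
            calc (P.filter fun p => p < T).card ≤ (range T).card := by
                  refine Finset.card_le_card fun p hp => ?_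
                  rw [Finset.mem_filter] at hp
                  exact Finset.mem_range.2 hp.2
              _ = T := Finset.card_range T
          exact_mod_cast this
        have h2 : (P.card : ℝ) * (1 / T) = P.card / T := by ring
        linarith

/-- **White noise.** -/
theorem kl_joint (k : ℕ) (h : Fin k → ℤ) (hh : Function.Injective h) (u : Fin k → ℝ) {δ ε : ℝ} (hδ : 0 < δ)
    (hε : 0 < ε) : ∃ K : ℕ, ∀ (P : Finset ℕ) (w : ℕ → ℝ) (y H : ℕ), (∀ p ∈ P, p.Prime ∧ p ≤ y) → K ≤ P.card →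
    (∀ p ∈ P, |w p| ≤ 1) → δ * P.card ≤ ∑ p ∈ P, w p ^ 2 → y ^ K ≤ H →
    |prop H (fun c : Fin 1 → ℤ => ∀ i, ∑ p ∈ P, w p * (kl p (c 0 + h i) / √p) ≤ u i * √(∑ p ∈ P, w p ^ 2)) -
      ∏ i, (ProbabilityTheory.gaussianReal 0 1).real (Set.Iic (u i))| ≤ ε := by
  classical
  obtain ⟨K, hK⟩ := joint_orth 1 k u hε
  set A : ℝ := ∑ i, ∑ j, ((h i - h j).natAbs : ℝ) with hA
  have hA0 : 0 ≤ A := Finset.sum_nonneg fun i _ => Finset.sum_nonneg fun j _ => Nat.cast_nonneg _
  obtain ⟨T, hT⟩ := exists_nat_ge (2 * ((K : ℝ) + 1) / δ + 1)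
  have hK0 : (0 : ℝ) ≤ K := Nat.cast_nonneg K
  have hTd : 0 ≤ 2 * ((K : ℝ) + 1) / δ := by positivity
  have hT1 : 1 ≤ T := by
    have : (1 : ℝ) ≤ T := by linarith
    exact_mod_cast this
  have hT0 : (0 : ℝ) < T := by exact_mod_cast hT1
  obtain ⟨L, hL⟩ := exists_nat_ge (2 * ((K : ℝ) + 1) * (A + T) / δ + 4 * K / δ + K + 1)
  refine ⟨L, fun P w y H hP hPc hw hws hH => ?_⟩
  have hn : (L : ℝ) ≤ P.card := by exact_mod_cast hPc
  have hx1 : 0 ≤ 2 * ((K : ℝ) + 1) * (A + T) / δ := by positivity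
  have hx2 : 0 ≤ 4 * (K : ℝ) / δ := by positivity
  have hn1 : 2 * ((K : ℝ) + 1) * (A + T) / δ ≤ P.card := by linarith
  have hn2 : 4 * (K : ℝ) / δ ≤ P.card := by linarith
  have hn3 : (1 : ℝ) ≤ P.card := by linarith
  rw [div_le_iff₀ hδ] at hn1 hn2
  set S2 : ℝ := ∑ p ∈ P, w p ^ 2 with hS2
  have hS2pos : 0 < S2 := lt_of_lt_of_le (by positivity) hws
  have hy1 : 1 ≤ y := by
    have h0 : 0 < P.card := by exact_mod_cast (by linarith : (0 : ℝ) < P.card)
    obtain ⟨p, hp⟩ := Finset.card_pos.1 h0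
    have := (hP p hp).1.pos
    have := (hP p hp).2
    omega
  set D : JD 1 k := ⟨fun i p => FK (h i) (w p) p, P, S2 / 4, y, H⟩ with hD
  have hOk : D.Ok K := by
    refine ⟨hP, fun i p _ => FK_per _ _ _, fun i p hp c => FK_abs (hw p hp) (hP p hp).1 c, ?_, ?_, ?_, hy1⟩
    · change (K : ℝ) ≤ S2 / 4
      nlinarith
    · intro i j
      change |∑ p ∈ P, lcov (FK (h i) (w p) p) (FK (h j) (w p) p) p - if i = j then S2 / 4 else 0| ≤
        S2 / 4 / (K + 1)
      have h1 : ∑ p ∈ P, lcov (FK (h i) (w p) p) (FK (h j) (w p) p) p =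
          ∑ p ∈ P, w p ^ 2 / 4 * (if (p : ℤ) ∣ h i - h j then 1 - 1 / (p : ℝ) else -(1 / (p : ℝ))) :=
        Finset.sum_congr rfl fun p hp => FK_cov _ _ _ (hP p hp).1
      rw [h1]
      have h2 : |∑ p ∈ P, w p ^ 2 / 4 * (if (p : ℤ) ∣ h i - h j then 1 - 1 / (p : ℝ) else -(1 / (p : ℝ))) -
          if i = j then S2 / 4 else 0| ≤ (∑ p ∈ P, 1 / (p : ℝ) + A) / 4 := by
        by_cases hij : i = j
        · rw [if_pos hij, hij, hS2, Finset.sum_div, ← Finset.sum_sub_distrib]
          calc |∑ p ∈ P, (w p ^ 2 / 4 * (if (p : ℤ) ∣ h j - h j then 1 - 1 / (p : ℝ) else -(1 / (p : ℝ))) - w p ^ 2 / 4)|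
              ≤ ∑ p ∈ P, 1 / (p : ℝ) / 4 := by
                refine (Finset.abs_sum_le_sum_abs _ _).trans (Finset.sum_le_sum fun p hp => ?_)
                rw [sub_self, if_pos (dvd_zero _)]
                have e : w p ^ 2 / 4 * (1 - 1 / (p : ℝ)) - w p ^ 2 / 4 = -(w p ^ 2 / 4 * (1 / p)) := by ring
                have hw1 : w p ^ 2 ≤ 1 := by
                  rw [← sq_abs]
                  have := hw p hp
                  have := abs_nonneg (w p)
                  nlinarith
                have h3 : (0 : ℝ) ≤ 1 / p := by positivity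
                rw [e, abs_neg, abs_of_nonneg (by positivity)]
                nlinarith
            _ = (∑ p ∈ P, 1 / (p : ℝ)) / 4 := by rw [Finset.sum_div]
            _ ≤ (∑ p ∈ P, 1 / (p : ℝ) + A) / 4 := by linarith
        · rw [if_neg hij, sub_zero]
          have hne : h i - h j ≠ 0 := sub_ne_zero.2 fun e => hij (hh e)
          have h3 : ((P.filter fun p : ℕ => (p : ℤ) ∣ h i - h j).card : ℝ) ≤ A := by
            have h4 := few_dvd hne P fun p hp => (hP p hp).1
            have h5 : ((h i - h j).natAbs : ℝ) ≤ A := by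
              rw [hA]
              refine le_trans ?_ (Finset.single_le_sum (f := fun i => ∑ j, ((h i - h j).natAbs : ℝ))
                (fun i _ => Finset.sum_nonneg fun j _ => Nat.cast_nonneg _) (Finset.mem_univ i))
              exact Finset.single_le_sum (f := fun j => ((h i - h j).natAbs : ℝ))
                (fun j _ => Nat.cast_nonneg _) (Finset.mem_univ j)
            have h6 : ((P.filter fun p : ℕ => (p : ℤ) ∣ h i - h j).card : ℝ) ≤ (h i - h j).natAbs := by exact_mod_cast h4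
            linarith
          calc |∑ p ∈ P, w p ^ 2 / 4 * (if (p : ℤ) ∣ h i - h j then 1 - 1 / (p : ℝ) else -(1 / (p : ℝ)))|
              ≤ ∑ p ∈ P, ((1 / (p : ℝ) + if (p : ℤ) ∣ h i - h j then 1 else 0) / 4) := by
                refine (Finset.abs_sum_le_sum_abs _ _).trans (Finset.sum_le_sum fun p hp => ?_)
                have hw1 : w p ^ 2 ≤ 1 := by
                  rw [← sq_abs]
                  have := hw p hp
                  have := abs_nonneg (w p)
                  nlinarith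
                have h3 : (0 : ℝ) ≤ 1 / p := by positivity
                have hp1 : (1 : ℝ) ≤ p := by exact_mod_cast (hP p hp).1.one_lt.le
                have h7 : (1 : ℝ) / p ≤ 1 := by
                  rw [div_le_one (by linarith)]
                  exact hp1
                have h8 := sq_nonneg (w p)
                rw [abs_mul, abs_of_nonneg (by positivity : (0 : ℝ) ≤ w p ^ 2 / 4)]
                split_ifs
                · rw [abs_of_nonneg (by linarith)]
                  nlinarith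
                · rw [abs_neg, abs_of_nonneg h3]
                  nlinarith
            _ = (∑ p ∈ P, 1 / (p : ℝ) + ((P.filter fun p : ℕ => (p : ℤ) ∣ h i - h j).card : ℝ)) / 4 := by
                rw [← Finset.sum_div, Finset.sum_add_distrib, Finset.sum_boole]
            _ ≤ (∑ p ∈ P, 1 / (p : ℝ) + A) / 4 := by linarith
      refine h2.trans ?_
      have h3 := sum_inv_le P (fun p hp => (hP p hp).1) hT1
      rw [div_div, div_le_div_iff₀ (by norm_num) (by positivity)]
      have h4 : (P.card : ℝ) / T * (2 * (K + 1)) ≤ δ * P.card := by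
        rw [div_mul_eq_mul_div, div_le_iff₀ hT0]
        have h5 : 2 * ((K : ℝ) + 1) ≤ T * δ := by
          have h6 : 2 * ((K : ℝ) + 1) / δ ≤ T := by linarith
          rwa [div_le_iff₀ hδ] at h6
        have h7 : (0 : ℝ) ≤ P.card := Nat.cast_nonneg _
        nlinarith
      nlinarith
    · change y ^ K ≤ H
      refine (Nat.pow_le_pow_right hy1 ?_).trans hH
      have : (K : ℝ) ≤ L := by linarith
      exact_mod_cast this
  have h1 := hK D hOk
  have e : ∀ c : Fin 1 → ℤ, (∀ i, ∑ p ∈ P, w p * (kl p (c 0 + h i) / √p) ≤ u i * √S2) ↔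
      (∀ i, ∑ p ∈ D.P, D.F i p c ≤ ∑ p ∈ D.P, lmean (D.F i p) p + u i * √D.V) := by
    intro c
    refine forall_congr' fun i => ?_
    change _ ↔ ∑ p ∈ P, FK (h i) (w p) p c ≤ ∑ p ∈ P, lmean (FK (h i) (w p) p) p + u i * √(S2 / 4)
    have e1 : ∑ p ∈ P, lmean (FK (h i) (w p) p) p = 0 :=
      Finset.sum_eq_zero fun p hp => FK_mean _ _ (hP p hp).1
    have e2 : ∑ p ∈ P, FK (h i) (w p) p c = (∑ p ∈ P, w p * (kl p (c 0 + h i) / √p)) / 2 := by
      rw [Finset.sum_div]
      refine Finset.sum_congr rfl fun p _ => ?_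
      unfold FK
      ring
    have e3 : √(S2 / 4) = √S2 / 2 := by
      rw [Real.sqrt_div hS2pos.le, show (4 : ℝ) = 2 ^ 2 by norm_num, Real.sqrt_sq (by norm_num)]
    rw [e1, e2, e3, zero_add]
    constructor
    · intro h; linarith
    · intro h; linarith
  have e4 : (fun c : Fin 1 → ℤ => ∀ i, ∑ p ∈ P, w p * (kl p (c 0 + h i) / √p) ≤ u i * √S2) =
      (fun c => ∀ i, ∑ p ∈ D.P, D.F i p c ≤ ∑ p ∈ D.P, lmean (D.F i p) p + u i * √D.V) := by
    funext c
    exact propext (e c)
  rw [e4]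
  exact h1

end Pool.Agent.U62.RB
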