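import Pool.Agent.U62.RB.Inv

/-!
# The laws for properties which are periodic modulo `p`
-/

set_option autoImplicit false
set_option linter.unusedSectionVars false

namespace Pool.Agent.U62.RB

open Finset Filter Topology Pool.Agent.Y722.HS Pool.Agent.X280.BP Pool.Agent.X280.UC
  MeasureTheory ProbabilityTheory

/-- The proportion of the vectors with coordinates of absolute value at most `H` which have the property `Q`. -/
noncomputable def prop {n : ℕ} (H : ℕ) (Q : (Fin n → ℤ) → Prop) : ℝ :=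
  ({c : Fin n → ℤ | (∀ i, |c i| ≤ H) ∧ Q c}.ncard : ℝ) / (2 * H + 1 : ℝ) ^ n

open Classical in
/-- The proportion of the vectors of residues modulo `p` with the property `R`. -/
noncomputable def dens {n : ℕ} (R : (Fin n → ℤ) → Prop) (p : ℕ) : ℝ :=
  (((Fintype.piFinset fun _ : Fin n => range p).filter fun t => R fun l => (t l : ℤ)).card : ℝ) / (p : ℝ) ^ n

/-- The property depends only on the residues modulo `p`. -/
def Per {n : ℕ} (R : (Fin n → ℤ) → Prop) (p : ℕ) : Prop :=
  ∀ c c' : Fin n → ℤ, (∀ i, (p : ℤ) ∣ c i - c' i) → R c → R c'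

/-- The local event belonging to a property. -/
def ev {n : ℕ} (R : ℕ → (Fin n → ℤ) → Prop) (p : ℕ) (x : Fin n → ZMod p) : Prop :=
  R p fun i => ((x i).val : ℤ)

theorem val_dvd (p : ℕ) [NeZero p] (z : ℤ) : (p : ℤ) ∣ (((z : ZMod p).val : ℤ) - z) := by
  rw [← ZMod.intCast_zmod_eq_zero_iff_dvd]
  push_cast
  rw [ZMod.natCast_zmod_val, sub_self]

theorem ev_red {n : ℕ} {R : ℕ → (Fin n → ℤ) → Prop} {p : ℕ} [NeZero p] (h : Per (R p) p)
    (c : Fin n → ℤ) : ev R p (red p c) ↔ R p c := by
  unfold ev red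
  constructor
  · exact h _ _ fun i => val_dvd p (c i)
  · refine h _ _ fun i => ?_
    have := val_dvd p (c i)
    rw [← neg_sub]
    exact this.neg_right

theorem pr_ev {n : ℕ} (R : ℕ → (Fin n → ℤ) → Prop) (p : ℕ) [NeZero p] :
    pr (ev R) p = dens (R p) p := by
  classical
  rw [pr_eq]
  unfold EM dens
  rw [Fintype.card_fin]
  congr 1
  have e : ∑ x : Fin n → ZMod p, ind (ev R) p x =
      (((Finset.univ : Finset (Fin n → ZMod p)).filter fun x => ev R p x).card : ℝ) := by
    rw [Finset.card_filter]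
    push_cast
    refine Finset.sum_congr rfl fun x _ => ?_
    unfold ind
    split_ifs <;> simp
  rw [e]
  congr 1
  refine Finset.card_bij (fun x _ => fun l => (x l).val) ?_ ?_ ?_
  · intro x hx
    rw [Finset.mem_filter] at hx ⊢
    refine ⟨?_, hx.2⟩
    rw [Fintype.mem_piFinset]
    intro l
    rw [Finset.mem_range]
    exact ZMod.val_lt _
  · intro x _ x' _ h
    funext l
    exact ZMod.val_injective p (congrFun h l)
  · intro t ht
    rw [Finset.mem_filter, Fintype.mem_piFinset] at ht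
    refine ⟨fun l => (t l : ZMod p), ?_, ?_⟩
    · rw [Finset.mem_filter]
      refine ⟨Finset.mem_univ _, ?_⟩
      unfold ev
      have e2 : (fun i => (((t i : ZMod p)).val : ℤ)) = fun l => (t l : ℤ) := by
        funext i
        rw [ZMod.val_natCast_of_lt (Finset.mem_range.1 (ht.1 i))]
      rw [e2]
      exact ht.2
    · funext l
      exact ZMod.val_natCast_of_lt (Finset.mem_range.1 (ht.1 l))

theorem dens_nonneg {n : ℕ} (R : (Fin n → ℤ) → Prop) (p : ℕ) : 0 ≤ dens R p := by
  unfold dens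
  positivity

open scoped Classical in
theorem prop_eq {n : ℕ} (H : ℕ) (Q : (Fin n → ℤ) → Prop) :
    prop H Q = EB H (fun c => if Q c then 1 else 0) := by
  unfold prop EB
  rw [Fintype.card_fin]
  congr 1
  rw [← Finset.sum_filter, Finset.sum_const, nsmul_eq_mul, mul_one, ← Set.ncard_coe_finset]
  congr 2
  ext c
  rw [Finset.coe_filter]
  simp only [Set.mem_ofPred_eq]
  refine and_congr_left fun _ => ?_
  unfold Pool.Agent.Y722.HS.box IH
  rw [Fintype.mem_piFinset]
  refine forall_congr' fun i => ?_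
  rw [Finset.mem_Icc, abs_le]

open scoped Classical in
/-- **The Poisson law for periodic properties.** -/
theorem poisson_per (n k : ℕ) (M : ℝ) {ε : ℝ} (hε : 0 < ε) : ∃ K : ℕ,
    ∀ (R : Fin k → ℕ → (Fin n → ℤ) → Prop) (P : Fin k → Finset ℕ) (y H : ℕ),
    (∀ i, ∀ p ∈ P i, p.Prime ∧ p ≤ y) → (∀ i, ∀ p ∈ P i, Per (R i p) p) →
    (∀ i j, i ≠ j → ∀ p, p ∈ P i → p ∈ P j → ∀ c, ¬ (R i p c ∧ R j p c)) →
    (∀ i, ∀ p ∈ P i, K * dens (R i p) p ≤ 1) → (∀ i, ∑ p ∈ P i, dens (R i p) p ≤ M) → y ^ K ≤ H →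
    ∀ m : Fin k → ℕ,
    |prop H (fun c => ∀ i, ((P i).filter fun p => R i p c).card = m i) -
      ∏ i, Real.exp (-∑ p ∈ P i, dens (R i p) p) * (∑ p ∈ P i, dens (R i p) p) ^ m i /
        (m i).factorial| ≤ ε := by
  obtain ⟨K, hK⟩ := poi_law (ι := Fin n) (Fin k) M hε
  refine ⟨K, fun R P y H hP hper hdis hd hμ hH m => ?_⟩
  set A : Fin k → ∀ p : ℕ, (Fin n → ZMod p) → Prop := fun i p x => p ∈ P i ∧ ev (R i) p x with hA
  set U : Finset ℕ := Finset.univ.biUnion P with hU
  have hUm : ∀ p ∈ U, ∃ i, p ∈ P i := by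
    intro p hp
    rw [hU, Finset.mem_biUnion] at hp
    obtain ⟨i, _, hi⟩ := hp
    exact ⟨i, hi⟩
  have hPU : ∀ i, P i ⊆ U := fun i => Finset.subset_biUnion_of_mem P (Finset.mem_univ i)
  have hUp : ∀ p ∈ U, p.Prime ∧ p ≤ y := by
    intro p hp
    obtain ⟨i, hi⟩ := hUm p hp
    exact hP i p hi
  have hpr : ∀ i, ∀ p ∈ U, pr (A i) p = if p ∈ P i then dens (R i p) p else 0 := by
    intro i p hp
    have : NeZero p := ⟨(hUp p hp).1.ne_zero⟩
    split_ifs with h
    · rw [← pr_ev, pr_eq, pr_eq]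
      congr 1
      funext x
      unfold ind
      rw [hA]
      simp [h]
    · rw [pr_eq]
      have e : ind (A i) p = fun _ => 0 := by
        funext x
        unfold ind
        rw [hA]
        simp [h]
      rw [e, EM_const']
  have hmu : ∀ i, mu (A i) U = ∑ p ∈ P i, dens (R i p) p := by
    intro i
    unfold mu
    rw [Finset.sum_congr rfl (hpr i), ← Finset.sum_filter]
    congr 1
    ext p
    rw [Finset.mem_filter]
    exact ⟨fun h => h.2, fun h => ⟨hPU i h, h⟩⟩
  have hcnt : ∀ i c, cnt (A i) U c = ((P i).filter fun p => R i p c).card := by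
    intro i c
    unfold cnt
    congr 1
    ext p
    simp only [Finset.mem_filter]
    constructor
    · rintro ⟨h1, h2, h3⟩
      have : NeZero p := ⟨(hUp p h1).1.ne_zero⟩
      exact ⟨h2, (ev_red (hper i p h2) c).1 h3⟩
    · rintro ⟨h1, h2⟩
      have : NeZero p := ⟨(hP i p h1).1.ne_zero⟩
      exact ⟨hPU i h1, h1, (ev_red (hper i p h1) c).2 h2⟩
  have h := hK U y H A hUp (by
    rintro p _ i j hij x ⟨⟨h1, h2⟩, h3, h4⟩
    exact hdis i j hij p h1 h3 _ ⟨h2, h4⟩) (by
    intro p hp i
    rw [hpr i p hp]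
    split_ifs with h
    · rw [mul_comm]
      exact hd i p h
    · simp) (fun i => by rw [hmu]; exact hμ i) hH m
  rw [prop_eq]
  simp only [hmu, hcnt] at h
  convert h

open Pool.Agent.X280.HG in
open scoped Classical in
/-- **The normal law for periodic properties.** -/
theorem normal_per (n : ℕ) (u : ℝ) {ε : ℝ} (hε : 0 < ε) : ∃ K : ℕ,
    ∀ (R : ℕ → (Fin n → ℤ) → Prop) (P : Finset ℕ) (y H : ℕ),
    (∀ p ∈ P, p.Prime ∧ p ≤ y) → (∀ p ∈ P, Per (R p) p) →
    K ≤ ∑ p ∈ P, dens (R p) p * (1 - dens (R p) p) → y ^ K ≤ H →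
    |prop H (fun c => (((P.filter fun p => R p c).card : ℝ)) ≤ ∑ p ∈ P, dens (R p) p +
      u * √(∑ p ∈ P, dens (R p) p * (1 - dens (R p) p))) - (gaussianReal 0 1).real (Set.Iic u)| ≤ ε := by
  obtain ⟨k, hk⟩ := unif_law2 (ι := Fin n) u hε
  refine ⟨(k + 1) ^ 2, fun R P y H hP hper hV hH => ?_⟩
  set V : ℝ := ∑ p ∈ P, dens (R p) p * (1 - dens (R p) p) with hVdef
  have hk1 : (1 : ℝ) ≤ ((k : ℝ) + 1) ^ 2 := by
    have : (0 : ℝ) ≤ k := Nat.cast_nonneg k
    nlinarith
  have hV2 : ((k : ℝ) + 1) ^ 2 ≤ V := by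
    have := hV
    push_cast at this
    exact this
  have hV0 : 0 < V := by linarith
  set σ : ℝ := √V with hσ
  have hσ0 : 0 < σ := Real.sqrt_pos.2 hV0
  have hσk : (k : ℝ) + 1 ≤ σ := Real.le_sqrt_of_sq_le hV2
  have hσ2 : σ ^ 2 = V := Real.sq_sqrt hV0.le
  have hden : ∀ p ∈ P, 0 ≤ dens (R p) p ∧ dens (R p) p ≤ 1 := by
    intro p hp
    have : NeZero p := ⟨(hP p hp).1.ne_zero⟩
    rw [← pr_ev]
    exact ⟨pr_nonneg _ _, pr_le _ _⟩
  set Z : ∀ p : ℕ, (Fin n → ZMod p) → ℝ := fun p x => ind (ev R) p x - pr (ev R) p with hZ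
  have hvv : ∀ p ∈ P, vv Z p = dens (R p) p * (1 - dens (R p) p) := by
    intro p hp
    have : NeZero p := ⟨(hP p hp).1.ne_zero⟩
    rw [vv_eq, ← pr_ev]
    have e : (fun x => Z p x ^ 2) = fun x => (1 - 2 * pr (ev R) p) * ind (ev R) p x + pr (ev R) p ^ 2 := by
      funext x
      rw [hZ]
      rcases ind_01 (ev R) p x with h | h <;> simp only [h] <;> ring
    rw [e, EM_add', EM_mul', EM_const']
    change (1 - 2 * pr (ev R) p) * EM p (ind (ev R) p) + _ = _
    rw [← pr_eq]
    ring
  have hVP : VP Z P = V := by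
    unfold VP
    rw [hVdef]
    exact Finset.sum_congr rfl hvv
  have hcardV : V ≤ P.card := by
    rw [hVdef]
    calc ∑ p ∈ P, dens (R p) p * (1 - dens (R p) p) ≤ ∑ _p ∈ P, (1 : ℝ) := by
          refine Finset.sum_le_sum fun p hp => ?_
          have := hden p hp
          nlinarith
      _ = P.card := by rw [Finset.sum_const, nsmul_eq_mul, mul_one]
  have hcard : P.card ≤ y := by
    have h1 : P ⊆ Finset.Icc 1 y := by
      intro p hp
      rw [Finset.mem_Icc]
      exact ⟨(hP p hp).1.pos, (hP p hp).2⟩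
    have h2 := Finset.card_le_card h1
    rwa [Nat.card_Icc, Nat.add_sub_cancel] at h2
  have hky : k ≤ y := by
    have h1 : (k : ℝ) ≤ y := by
      have h2 : (P.card : ℝ) ≤ y := by exact_mod_cast hcard
      have h3 : (k : ℝ) ≤ ((k : ℝ) + 1) ^ 2 := by
        have : (0 : ℝ) ≤ k := Nat.cast_nonneg k
        nlinarith
      linarith
    exact_mod_cast h1
  have hSP : ∀ c, SP Z P c = ((P.filter fun p => R p c).card : ℝ) - ∑ p ∈ P, dens (R p) p := by
    intro c
    unfold SP
    rw [hZ]
    dsimp only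
    rw [Finset.sum_sub_distrib, ← cnt_eq]
    congr 1
    · unfold cnt
      congr 2
      ext p
      rw [Finset.mem_filter, Finset.mem_filter]
      refine and_congr_right fun hp => ?_
      have : NeZero p := ⟨(hP p hp).1.ne_zero⟩
      exact ev_red (hper p hp) c
    · refine Finset.sum_congr rfl fun p hp => ?_
      have : NeZero p := ⟨(hP p hp).1.ne_zero⟩
      exact pr_ev R p
  set D : Dat2 (Fin n) := ⟨P, y, H, Z, fun c => SP Z P c / σ, σ⟩ with hD
  have hOk : D.Ok k := by
    refine ⟨fun p hp => (hP p hp).1, fun p hp => (hP p hp).2, hσ0, ?_, ?_, ?_, hky, ?_, ?_⟩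
    · intro p hp x
      change |Z p x| ≤ σ / (k + 1)
      have h1 : |Z p x| ≤ 1 := by
        rw [hZ, abs_le]
        have := ind_nonneg (ev R) p x
        have := ind_le (ev R) p x
        have := pr_nonneg (ev R) p
        have := pr_le (ev R) p
        constructor <;> dsimp only <;> linarith
      refine h1.trans ?_
      rw [le_div_iff₀ (by positivity)]
      linarith
    · intro p hp _
      change EM p (Z p) = 0
      have e : Z p = fun x => ind (ev R) p x - pr (ev R) p := rfl
      rw [e, EM_sub', EM_const']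
      change EM p (ind (ev R) p) - _ = 0
      rw [← pr_eq, sub_self]
    · change |VP Z P - σ ^ 2| ≤ σ ^ 2 / (k + 1)
      rw [hVP, hσ2, sub_self, abs_zero]
      positivity
    · change y ^ k ≤ H
      refine le_trans ?_ hH
      rcases Nat.eq_zero_or_pos y with hy | hy
      · have hk0 : k = 0 := by omega
        subst hk0
        subst hy
        exfalso
        have : P.card = 0 := by omega
        rw [this] at hcardV
        norm_num at hcardV
        linarith
      · exact Nat.pow_le_pow_right hy (by nlinarith)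
    · change EB H (far (fun c => SP Z P c / σ) (fun c => SP Z P c / σ) (1 / (k + 1))) ≤ 1 / (k + 1)
      have e : far (fun c => SP Z P c / σ) (fun c => SP Z P c / σ) (1 / ((k : ℝ) + 1)) =
          fun _ : Fin n → ℤ => (0 : ℝ) := by
        funext c
        unfold far
        rw [sub_self, abs_zero, if_pos (by positivity)]
      rw [e, Pool.Agent.X280.BP.EB_const]
      positivity
  have h := hk D hOk
  refine le_trans (le_of_eq ?_) h
  congr 2
  change _ = (law H fun c => SP Z P c / σ).real (Set.Iic u)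
  rw [measureReal_def, law_apply _ _ _ measurableSet_Iic, ENNReal.toReal_ofReal (by positivity)]
  rw [prop_eq]
  unfold EB
  congr 1
  rw [← Finset.sum_filter, Finset.sum_const, nsmul_eq_mul, mul_one]
  congr 2
  ext c
  rw [Finset.mem_filter, Finset.mem_filter]
  refine and_congr_right fun _ => ?_
  rw [Set.mem_Iic, div_le_iff₀ hσ0, hSP]
  constructor
  · intro h; linarith
  · intro h; linarith

end Pool.Agent.U62.RB
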