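import Pool.Agent.U62.RB.Eng

/-!
# The Poisson law for rare local events
-/

set_option autoImplicit false
set_option linter.unusedSectionVars false

namespace Pool.Agent.U62.RB

open Finset Filter Topology Pool.Agent.Y722.HS Pool.Agent.X280.BP Pool.Agent.X280.UC

variable {ι : Type} [Fintype ι] [DecidableEq ι]

open scoped Classical in
/-- The indicator function of a local event. -/
noncomputable def ind (A : ∀ p : ℕ, (ι → ZMod p) → Prop) (p : ℕ) (c : ι → ZMod p) : ℝ :=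
  if A p c then 1 else 0

/-- The proportion of the residue classes modulo `p` which belong to the event. -/
noncomputable def pr (A : ∀ p : ℕ, (ι → ZMod p) → Prop) (p : ℕ) : ℝ :=
  if h : p = 0 then 0 else (haveI : NeZero p := ⟨h⟩; EM p (ind A p))

open scoped Classical in
/-- The number of the primes in `P` at which the event takes place. -/
noncomputable def cnt (A : ∀ p : ℕ, (ι → ZMod p) → Prop) (P : Finset ℕ) (c : ι → ℤ) : ℕ :=
  (P.filter fun p => A p (red p c)).card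

/-- The expected number of the primes in `P` at which the event takes place. -/
noncomputable def mu (A : ∀ p : ℕ, (ι → ZMod p) → Prop) (P : Finset ℕ) : ℝ := ∑ p ∈ P, pr A p

theorem ind_01 (A : ∀ p : ℕ, (ι → ZMod p) → Prop) (p : ℕ) (c : ι → ZMod p) :
    ind A p c = 0 ∨ ind A p c = 1 := by
  unfold ind
  split_ifs <;> simp

theorem ind_nonneg (A : ∀ p : ℕ, (ι → ZMod p) → Prop) (p : ℕ) (c : ι → ZMod p) : 0 ≤ ind A p c := by
  rcases ind_01 A p c with h | h <;> rw [h]; norm_num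

theorem ind_le (A : ∀ p : ℕ, (ι → ZMod p) → Prop) (p : ℕ) (c : ι → ZMod p) : ind A p c ≤ 1 := by
  rcases ind_01 A p c with h | h <;> rw [h]; norm_num

theorem pr_eq (A : ∀ p : ℕ, (ι → ZMod p) → Prop) (p : ℕ) [NeZero p] : pr A p = EM p (ind A p) := by
  unfold pr
  rw [dif_neg (NeZero.ne p)]

theorem pr_nonneg (A : ∀ p : ℕ, (ι → ZMod p) → Prop) (p : ℕ) : 0 ≤ pr A p := by
  unfold pr
  split_ifs with h
  · exact le_rfl
  · have : NeZero p := ⟨h⟩
    unfold EM
    have h1 : 0 ≤ ∑ c, ind A p c := Finset.sum_nonneg fun c _ => ind_nonneg A p c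
    positivity

theorem pr_le (A : ∀ p : ℕ, (ι → ZMod p) → Prop) (p : ℕ) : pr A p ≤ 1 := by
  unfold pr
  split_ifs with h
  · norm_num
  · have : NeZero p := ⟨h⟩
    exact EM_le_of_le p _ _ fun c => ind_le A p c

theorem cnt_eq (A : ∀ p : ℕ, (ι → ZMod p) → Prop) (P : Finset ℕ) (c : ι → ℤ) :
    (cnt A P c : ℝ) = ∑ p ∈ P, ind A p (red p c) := by
  classical
  unfold cnt ind
  rw [Finset.card_filter]
  push_cast
  refine Finset.sum_congr rfl fun p _ => ?_
  split_ifs <;> simp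

theorem EM_sumK {κ : Type*} (s : Finset κ) (p : ℕ) [NeZero p] (f : κ → (ι → ZMod p) → ℝ) :
    EM p (fun c => ∑ i ∈ s, f i c) = ∑ i ∈ s, EM p (f i) := by
  unfold EM
  rw [Finset.sum_comm, Finset.sum_div]

theorem EMc_sumK {κ : Type*} (s : Finset κ) (p : ℕ) [NeZero p] (f : κ → (ι → ZMod p) → ℂ) :
    EMc p (fun c => ∑ i ∈ s, f i c) = ∑ i ∈ s, EMc p (f i) := by
  unfold EMc
  rw [Finset.sum_comm, Finset.sum_div]

section

variable {κ : Type} [Fintype κ] (A : κ → ∀ p : ℕ, (ι → ZMod p) → Prop) (θ : κ → ℝ)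

/-- The centred local data belonging to the frequencies `θ`. -/
noncomputable def ZA (p : ℕ) (c : ι → ZMod p) : ℝ := ∑ i, θ i * (ind (A i) p c - pr (A i) p)

theorem ZA_le {T : ℝ} (hθ : ∀ i, |θ i| ≤ T) (p : ℕ) (c : ι → ZMod p) :
    |ZA A θ p c| ≤ Fintype.card κ * T := by
  unfold ZA
  refine (Finset.abs_sum_le_sum_abs _ _).trans ?_
  have h : ∀ i ∈ (Finset.univ : Finset κ), |θ i * (ind (A i) p c - pr (A i) p)| ≤ T := by
    intro i _
    rw [abs_mul]
    have h1 : |ind (A i) p c - pr (A i) p| ≤ 1 := by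
      rw [abs_le]
      have := ind_nonneg (A i) p c
      have := ind_le (A i) p c
      have := pr_nonneg (A i) p
      have := pr_le (A i) p
      constructor <;> linarith
    calc |θ i| * |ind (A i) p c - pr (A i) p| ≤ T * 1 :=
          mul_le_mul (hθ i) h1 (abs_nonneg _) ((abs_nonneg _).trans (hθ i))
      _ = T := mul_one T
  refine (Finset.sum_le_sum h).trans (le_of_eq ?_)
  rw [Finset.sum_const, nsmul_eq_mul, Finset.card_univ]

theorem ZA_mean (p : ℕ) [NeZero p] : EM p (ZA A θ p) = 0 := by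
  have e : ZA A θ p = fun c => ∑ i, θ i * (ind (A i) p c - pr (A i) p) := rfl
  rw [e, EM_sumK]
  refine Finset.sum_eq_zero fun i _ => ?_
  rw [EM_mul', EM_sub', EM_const']
  change θ i * (EM p (ind (A i) p) - pr (A i) p) = 0
  rw [← pr_eq, sub_self, mul_zero]

theorem ZA_var {T : ℝ} (hT : 0 ≤ T) (hθ : ∀ i, |θ i| ≤ T) (p : ℕ) :
    vv (ZA A θ) p ≤ 2 * Fintype.card κ * T ^ 2 * ∑ i, pr (A i) p := by
  unfold vv
  split_ifs with h
  · have : 0 ≤ ∑ i, pr (A i) p := Finset.sum_nonneg fun i _ => pr_nonneg _ _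
    positivity
  · have : NeZero p := ⟨h⟩
    have h1 : EM p (fun c => ZA A θ p c ^ 2) ≤
        EM p (fun c => (Fintype.card κ * T ^ 2) * ∑ i, (ind (A i) p c + pr (A i) p)) := by
      unfold EM
      gcongr with c
      have h2 := ZA_le A θ hθ p c
      have h3 : |ZA A θ p c| ≤ T * ∑ i, (ind (A i) p c + pr (A i) p) := by
        unfold ZA
        refine (Finset.abs_sum_le_sum_abs _ _).trans ?_
        rw [Finset.mul_sum]
        refine Finset.sum_le_sum fun i _ => ?_
        rw [abs_mul]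
        have h4 : |ind (A i) p c - pr (A i) p| ≤ ind (A i) p c + pr (A i) p := by
          rw [abs_le]
          have := ind_nonneg (A i) p c
          have := pr_nonneg (A i) p
          constructor <;> linarith
        exact mul_le_mul (hθ i) h4 (abs_nonneg _) hT
      calc ZA A θ p c ^ 2 = |ZA A θ p c| * |ZA A θ p c| := by rw [← sq, sq_abs]
        _ ≤ (Fintype.card κ * T) * (T * ∑ i, (ind (A i) p c + pr (A i) p)) :=
            mul_le_mul h2 h3 (abs_nonneg _) (by positivity)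
        _ = _ := by ring
    refine h1.trans (le_of_eq ?_)
    rw [EM_mul', EM_sumK]
    have h5 : ∀ i ∈ (Finset.univ : Finset κ), EM p (fun c => ind (A i) p c + pr (A i) p) =
        2 * pr (A i) p := by
      intro i _
      rw [EM_add', EM_const']
      rw [← pr_eq]
      ring
    rw [Finset.sum_congr rfl h5, ← Finset.mul_sum]
    ring

theorem SP_ZA (P : Finset ℕ) (c : ι → ℤ) :
    SP (ZA A θ) P c = (∑ i, θ i * cnt (A i) P c) - ∑ i, θ i * mu (A i) P := by
  unfold SP ZA mu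
  rw [Finset.sum_comm, ← Finset.sum_sub_distrib]
  refine Finset.sum_congr rfl fun i _ => ?_
  rw [cnt_eq, ← mul_sub, ← Finset.sum_sub_distrib, Finset.mul_sum]

/-- The local factor. -/
noncomputable def ww (p : ℕ) : ℂ := ∑ i, (pr (A i) p : ℂ) * (Complex.exp ((θ i : ℝ) * Complex.I) - 1)

theorem one_ww (p : ℕ) [NeZero p] (hdis : ∀ i j, i ≠ j → ∀ c, ¬ (A i p c ∧ A j p c)) :
    Ep p (fun c => Complex.exp ((ZA A θ p c : ℝ) * Complex.I)) =
      Complex.exp (((-∑ i, θ i * pr (A i) p : ℝ) : ℂ) * Complex.I) * (1 + ww A θ p) := by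
  classical
  rw [Ep_eq]
  have e : (fun c => Complex.exp ((ZA A θ p c : ℝ) * Complex.I)) = fun c =>
      Complex.exp (((-∑ i, θ i * pr (A i) p : ℝ) : ℂ) * Complex.I) *
        (((1 : ℝ) : ℂ) + ∑ i, (Complex.exp ((θ i : ℝ) * Complex.I) - 1) * ((ind (A i) p c : ℝ) : ℂ)) := by
    funext c
    have e1 : ((ZA A θ p c : ℝ) : ℂ) * Complex.I =
        ((-∑ i, θ i * pr (A i) p : ℝ) : ℂ) * Complex.I + ((∑ i, θ i * ind (A i) p c : ℝ) : ℂ) * Complex.I := by
      unfold ZA
      rw [← add_mul, ← Complex.ofReal_add]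
      congr 2
      simp only [mul_sub]
      rw [Finset.sum_sub_distrib]
      ring
    rw [e1, Complex.exp_add]
    congr 1
    by_cases hex : ∃ j, A j p c
    · obtain ⟨j, hj⟩ := hex
      have h0 : ∀ i, i ≠ j → ind (A i) p c = 0 := by
        intro i hi
        unfold ind
        rw [if_neg]
        exact fun hA => hdis i j hi c ⟨hA, hj⟩
      have h1 : ind (A j) p c = 1 := by
        unfold ind
        rw [if_pos hj]
      rw [Finset.sum_eq_single j (fun i _ hi => by rw [h0 i hi, mul_zero]) (by simp),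
        Finset.sum_eq_single j (fun i _ hi => by rw [h0 i hi]; simp) (by simp), h1]
      push_cast
      ring_nf
    · push Not at hex
      have h0 : ∀ i, ind (A i) p c = 0 := by
        intro i
        unfold ind
        rw [if_neg (hex i)]
      simp [h0]
  rw [e, EMc_mul, EMc_add, EMc_ofReal, EM_const', EMc_sumK]
  congr 2
  unfold ww
  refine Finset.sum_congr rfl fun i _ => ?_
  rw [EMc_mul, EMc_ofReal, pr_eq]
  ring

theorem phiP_ZA (P : Finset ℕ) (hP : ∀ p ∈ P, p.Prime)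
    (hdis : ∀ p ∈ P, ∀ i j, i ≠ j → ∀ c, ¬ (A i p c ∧ A j p c)) :
    phiP (ZA A θ) P = Complex.exp (((-∑ i, θ i * mu (A i) P : ℝ) : ℂ) * Complex.I) *
      ∏ p ∈ P, (1 + ww A θ p) := by
  unfold phiP
  rw [Finset.prod_congr rfl fun p hp => (by
    have : NeZero p := ⟨(hP p hp).ne_zero⟩
    exact one_ww A θ p (hdis p hp)), Finset.prod_mul_distrib]
  congr 1
  rw [← Complex.exp_sum, ← Finset.sum_mul, ← Complex.ofReal_sum]
  congr 3
  rw [Finset.sum_neg_distrib, Finset.sum_comm]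
  congr 1
  refine Finset.sum_congr rfl fun i _ => ?_
  unfold mu
  rw [Finset.mul_sum]

theorem norm_ww_le (p : ℕ) : ‖ww A θ p‖ ≤ 2 * ∑ i, pr (A i) p := by
  unfold ww
  refine (norm_sum_le _ _).trans ?_
  rw [Finset.mul_sum]
  refine Finset.sum_le_sum fun i _ => ?_
  rw [norm_mul, Complex.norm_real, Real.norm_eq_abs, abs_of_nonneg (pr_nonneg _ _), mul_comm]
  refine mul_le_mul_of_nonneg_right ?_ (pr_nonneg _ _)
  refine (norm_sub_le _ _).trans ?_
  rw [Complex.norm_exp_ofReal_mul_I, norm_one]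
  norm_num

theorem re_ww_le (p : ℕ) : (ww A θ p).re ≤ 0 := by
  unfold ww
  rw [Complex.re_sum]
  refine Finset.sum_nonpos fun i _ => ?_
  rw [Complex.re_ofReal_mul, Complex.sub_re, Complex.exp_ofReal_mul_I_re, Complex.one_re]
  have := Real.cos_le_one (θ i)
  have := pr_nonneg (A i) p
  nlinarith

theorem norm_one_ww (p : ℕ) [NeZero p] (hdis : ∀ i j, i ≠ j → ∀ c, ¬ (A i p c ∧ A j p c)) :
    ‖1 + ww A θ p‖ ≤ 1 := by
  have h := one_ww A θ p hdis
  have h1 : ‖Ep p (fun c => Complex.exp ((ZA A θ p c : ℝ) * Complex.I))‖ ≤ 1 := by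
    rw [Ep_eq]
    exact norm_EMc_le p _ _ fun c => le_of_eq (Complex.norm_exp_ofReal_mul_I _)
  rw [h, norm_mul, Complex.norm_exp_ofReal_mul_I, one_mul] at h1
  exact h1

end

/-- **The characteristic function of the numbers of the primes with rare local properties.** -/
theorem poi_char (κ : Type) [Fintype κ] (M : ℝ) {ε : ℝ} (hε : 0 < ε) : ∃ K : ℕ,
    ∀ (P : Finset ℕ) (y H : ℕ) (A : κ → ∀ p : ℕ, (ι → ZMod p) → Prop),
    (∀ p ∈ P, p.Prime ∧ p ≤ y) → (∀ p ∈ P, ∀ i j, i ≠ j → ∀ c, ¬ (A i p c ∧ A j p c)) →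
    (∀ p ∈ P, ∀ i, pr (A i) p * K ≤ 1) → (∀ i, mu (A i) P ≤ M) → y ^ K ≤ H →
    ∀ θ : κ → ℝ, (∀ i, |θ i| ≤ Real.pi) →
    ‖EBc H (fun c => Complex.exp (((∑ i, θ i * cnt (A i) P c : ℝ) : ℂ) * Complex.I)) -
      ∏ i, Complex.exp ((mu (A i) P : ℂ) * (Complex.exp ((θ i : ℝ) * Complex.I) - 1))‖ ≤ ε := by
  classical
  set k : ℝ := (Fintype.card κ : ℝ) with hk
  have hk0 : 0 ≤ k := Nat.cast_nonneg _
  obtain ⟨K1, hK1⟩ := compare (ι := ι) (k * Real.pi) (2 * k * Real.pi ^ 2 * (k * M)) (half_pos hε)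
  obtain ⟨K2, hK2⟩ := exists_nat_ge (max (2 * k) (2 * (4 * k ^ 2 * max M 0) / ε + 1))
  have hK2a : 2 * k ≤ K2 := (le_max_left _ _).trans hK2
  have hK2b : 2 * (4 * k ^ 2 * max M 0) / ε + 1 ≤ K2 := (le_max_right _ _).trans hK2
  have hM0 : 0 ≤ max M 0 := le_max_right _ _
  have hK20 : (0 : ℝ) < K2 := by
    have : 0 ≤ 2 * (4 * k ^ 2 * max M 0) / ε := by positivity
    linarith
  refine ⟨max K1 K2, fun P y H A hP hdis hpr hmu hH θ hθ => ?_⟩
  have hpr2 : ∀ p ∈ P, ∀ i, pr (A i) p ≤ 1 / K2 := by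
    intro p hp i
    rw [le_div_iff₀ hK20]
    refine le_trans ?_ (hpr p hp i)
    have h1 := pr_nonneg (A i) p
    have h2 : (K2 : ℝ) ≤ ((max K1 K2 : ℕ) : ℝ) := by exact_mod_cast le_max_right _ _
    exact mul_le_mul_of_nonneg_left h2 h1
  by_cases hPe : P = ∅
  · subst hPe
    have e0 : (fun c : ι → ℤ => Complex.exp (((∑ i, θ i * cnt (A i) ∅ c : ℝ) : ℂ) * Complex.I)) =
        fun _ => 1 := by
      funext c
      simp [cnt]
    rw [e0, EBc_one]
    simp [mu, hε.le]
  obtain ⟨p0, hp0⟩ := Finset.nonempty_iff_ne_empty.mpr hPe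
  have hy2 : 2 ≤ y := (hP p0 hp0).1.two_le.trans (hP p0 hp0).2
  have hH1 : y ^ K1 ≤ H := (Nat.pow_le_pow_right (by omega) (le_max_left _ _)).trans hH
  have hpi := Real.pi_pos
  have hV : VP (ZA A θ) P ≤ 2 * k * Real.pi ^ 2 * (k * M) := by
    unfold VP
    refine (Finset.sum_le_sum fun p _ => ZA_var A θ hpi.le hθ p).trans ?_
    rw [← Finset.mul_sum, Finset.sum_comm, ← hk]
    refine mul_le_mul_of_nonneg_left ?_ (by positivity)
    refine (Finset.sum_le_sum fun i _ => hmu i).trans (le_of_eq ?_)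
    rw [Finset.sum_const, nsmul_eq_mul, Finset.card_univ]
  have h1 := hK1 P y H (ZA A θ) hP (fun p _ c => ZA_le A θ hθ p c) (fun p _ _ => ZA_mean A θ p) hV hH1
  rw [phiP_ZA A θ P (fun p hp => (hP p hp).1) hdis] at h1
  set m : ℝ := ∑ i, θ i * mu (A i) P with hm
  have e1 : EBc H (fun c => Complex.exp ((SP (ZA A θ) P c : ℝ) * Complex.I)) =
      Complex.exp (((-m : ℝ) : ℂ) * Complex.I) *
      EBc H (fun c => Complex.exp (((∑ i, θ i * cnt (A i) P c : ℝ) : ℂ) * Complex.I)) := by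
    rw [← EBc_mul]
    congr 1
    funext c
    rw [← Complex.exp_add, ← add_mul, ← Complex.ofReal_add, SP_ZA, ← hm]
    congr 3
    ring
  rw [e1, ← mul_sub, norm_mul, Complex.norm_exp_ofReal_mul_I, one_mul] at h1
  -- the product
  have hsum : ∀ p ∈ P, 2 * ∑ i, pr (A i) p ≤ 2 * k / K2 := by
    intro p hp
    have : ∑ i, pr (A i) p ≤ ∑ _i : κ, 1 / (K2 : ℝ) := Finset.sum_le_sum fun i _ => hpr2 p hp i
    rw [Finset.sum_const, nsmul_eq_mul, Finset.card_univ, ← hk] at this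
    calc 2 * ∑ i, pr (A i) p ≤ 2 * (k * (1 / (K2 : ℝ))) := by linarith
      _ = _ := by ring
  have hw1 : ∀ p ∈ P, ‖ww A θ p‖ ≤ 1 := by
    intro p hp
    refine (norm_ww_le A θ p).trans ((hsum p hp).trans ?_)
    rw [div_le_one hK20]
    exact hK2a
  have h2 : ‖∏ p ∈ P, (1 + ww A θ p) - ∏ p ∈ P, Complex.exp (ww A θ p)‖ ≤ ε / 2 := by
    refine (prod_sub_prod P _ _ ?_ ?_).trans ?_
    · intro p hp
      have : NeZero p := ⟨(hP p hp).1.ne_zero⟩
      exact norm_one_ww A θ p (hdis p hp)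
    · intro p _
      rw [Complex.norm_exp]
      exact Real.exp_le_one_iff.mpr (re_ww_le A θ p)
    · have h3 : ∀ p ∈ P, ‖(1 + ww A θ p) - Complex.exp (ww A θ p)‖ ≤
          2 * k / K2 * (2 * ∑ i, pr (A i) p) := by
        intro p hp
        have h4 := Complex.norm_exp_sub_one_sub_id_le (hw1 p hp)
        have e2 : (1 + ww A θ p) - Complex.exp (ww A θ p) =
            -(Complex.exp (ww A θ p) - 1 - ww A θ p) := by ring
        rw [e2, norm_neg]
        refine h4.trans ?_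
        have h5 := norm_ww_le A θ p
        have h6 := hsum p hp
        calc ‖ww A θ p‖ ^ 2 = ‖ww A θ p‖ * ‖ww A θ p‖ := sq _
          _ ≤ (2 * k / K2) * (2 * ∑ i, pr (A i) p) :=
            mul_le_mul (h5.trans h6) h5 (norm_nonneg _) (by positivity)
      refine (Finset.sum_le_sum h3).trans ?_
      rw [← Finset.mul_sum, ← Finset.mul_sum, Finset.sum_comm]
      have h7 : ∑ i, ∑ p ∈ P, pr (A i) p ≤ k * max M 0 := by
        refine (Finset.sum_le_sum fun i _ => (hmu i).trans (le_max_left M 0)).trans (le_of_eq ?_)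
        rw [Finset.sum_const, nsmul_eq_mul, Finset.card_univ]
      calc 2 * k / K2 * (2 * ∑ i, ∑ p ∈ P, pr (A i) p) ≤ 2 * k / K2 * (2 * (k * max M 0)) := by gcongr
        _ = (4 * k ^ 2 * max M 0) / K2 := by ring
        _ ≤ ε / 2 := by
            rw [div_le_iff₀ hK20]
            have h8 : 2 * (4 * k ^ 2 * max M 0) / ε ≤ K2 := by linarith
            rw [div_le_iff₀ hε] at h8
            linarith
  have e3 : ∏ p ∈ P, Complex.exp (ww A θ p) =
      ∏ i, Complex.exp ((mu (A i) P : ℂ) * (Complex.exp ((θ i : ℝ) * Complex.I) - 1)) := by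
    rw [← Complex.exp_sum, ← Complex.exp_sum]
    congr 1
    unfold ww mu
    rw [Finset.sum_comm]
    refine Finset.sum_congr rfl fun i _ => ?_
    push_cast
    rw [Finset.sum_mul]
  rw [e3] at h2
  have e4 : ∀ a b c : ℂ, a - c = (a - b) + (b - c) := fun a b c => by ring
  rw [e4 _ (∏ p ∈ P, (1 + ww A θ p)) _]
  refine (norm_add_le _ _).trans ?_
  linarith

end Pool.Agent.U62.RB
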