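import Pool.Agent.U62.RB.Fun
import Pool.Agent.U62.RB.Dir
import Pool.Agent.X280.BP.Final

/-!
# The density of the supersingular curves
-/

set_option autoImplicit false
set_option linter.unusedSectionVars false

namespace Pool.Agent.U62.RB

open Finset Filter Topology Pool.Agent.Y722.HS Pool.Agent.X280.BP Pool.Agent.X280.UC
  MeasureTheory ProbabilityTheory

/-- The number of the solutions of `y² = x³ + a x + b` modulo `p`. -/
noncomputable def apts (a b : ℤ) (p : ℕ) : ℕ :=
  ((range p ×ˢ range p).filter fun z : ℕ × ℕ =>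
    (p : ℤ) ∣ (z.2 : ℤ) ^ 2 - ((z.1 : ℤ) ^ 3 + a * z.1 + b)).card

/-- Good reduction and trace `r`. -/
def HasTr (r : ℤ) (p : ℕ) (a b : ℤ) : Prop :=
  ¬ (p : ℤ) ∣ 2 * (4 * a ^ 3 + 27 * b ^ 2) ∧ (p : ℤ) - apts a b p = r

theorem apts_eq (a b : ℤ) (p : ℕ) [NeZero p] :
    apts a b p = pts (V0 ![(a : ZMod p), (b : ZMod p)]) := by
  classical
  unfold apts pts
  rw [Nat.card_eq_fintype_card, Fintype.card_subtype]
  refine Finset.card_bij (fun z _ => ((z.1 : ZMod p), (z.2 : ZMod p))) ?_ ?_ ?_
  · intro z hz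
    rw [Finset.mem_filter] at hz ⊢
    refine ⟨Finset.mem_univ _, ?_⟩
    have h := hz.2
    rw [← ZMod.intCast_zmod_eq_zero_iff_dvd] at h
    push_cast at h
    simp only [V0, Matrix.cons_val_zero, Matrix.cons_val_one]
    linear_combination h
  · intro z hz z' hz' h
    rw [Finset.mem_filter, Finset.mem_product, Finset.mem_range, Finset.mem_range] at hz hz'
    rw [Prod.mk.injEq] at h
    have h1 := congrArg ZMod.val h.1
    have h2 := congrArg ZMod.val h.2
    rw [ZMod.val_natCast_of_lt hz.1.1, ZMod.val_natCast_of_lt hz'.1.1] at h1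
    rw [ZMod.val_natCast_of_lt hz.1.2, ZMod.val_natCast_of_lt hz'.1.2] at h2
    exact Prod.ext h1 h2
  · intro q hq
    rw [Finset.mem_filter] at hq
    refine ⟨(q.1.val, q.2.val), ?_, ?_⟩
    · rw [Finset.mem_filter, Finset.mem_product, Finset.mem_range, Finset.mem_range]
      refine ⟨⟨ZMod.val_lt _, ZMod.val_lt _⟩, ?_⟩
      rw [← ZMod.intCast_zmod_eq_zero_iff_dvd]
      push_cast
      rw [ZMod.natCast_zmod_val, ZMod.natCast_zmod_val]
      have h := hq.2
      simp only [V0, Matrix.cons_val_zero, Matrix.cons_val_one] at h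
      linear_combination h
    · dsimp only
      rw [ZMod.natCast_zmod_val, ZMod.natCast_zmod_val]

theorem cube_inj {p : ℕ} [hp : Fact p.Prime] (h3 : p % 3 = 2) : Function.Injective fun x : ZMod p => x ^ 3 := by
  have hk : 3 * ((2 * p - 1) / 3) = 2 * p - 1 := by
    have := hp.out.two_le
    omega
  have h1 : ∀ x : ZMod p, (x ^ 3) ^ ((2 * p - 1) / 3) = x := by
    intro x
    rw [← pow_mul, hk]
    have h2 : 2 * p - 1 = p + (p - 1) := by
      have := hp.out.two_le
      omega
    rw [h2, pow_add, ZMod.pow_card]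
    have h3 : x * x ^ (p - 1) = x ^ p := by
      rw [← pow_succ']
      congr 1
      have := hp.out.two_le
      omega
    rw [h3, ZMod.pow_card]
  intro x x' h
  rw [← h1 x, ← h1 x']
  dsimp only at h
  rw [h]

theorem pts_zero {p : ℕ} [hp : Fact p.Prime] (h3 : p % 3 = 2) (b : ZMod p) : pts (V0 ![0, b]) = p := by
  unfold pts
  have hs : Function.Surjective fun x : ZMod p => x ^ 3 := Finite.surjective_of_injective (cube_inj h3)
  have e : Nat.card {q : ZMod p × ZMod p // q.2 ^ 2 + (V0 ![0, b]).a₁ * q.1 * q.2 + (V0 ![0, b]).a₃ * q.2 =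
      q.1 ^ 3 + (V0 ![0, b]).a₂ * q.1 ^ 2 + (V0 ![0, b]).a₄ * q.1 + (V0 ![0, b]).a₆} = Nat.card (ZMod p) := by
    refine Nat.card_congr (Equiv.ofBijective (fun q => q.1.2) ⟨?_, ?_⟩)
    · intro q q' h
      dsimp only at h
      have h1 := q.2
      have h2 := q'.2
      simp only [V0, Matrix.cons_val_zero, Matrix.cons_val_one] at h1 h2
      have h4 : q.1.1 = q'.1.1 := by
        refine cube_inj h3 ?_
        dsimp only
        rw [h] at h1
        linear_combination h2 - h1
      exact Subtype.ext (Prod.ext h4 h)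
    · intro y
      obtain ⟨x, hx⟩ := hs (y ^ 2 - b)
      dsimp only at hx
      refine ⟨⟨(x, y), ?_⟩, rfl⟩
      simp only [V0, Matrix.cons_val_zero, Matrix.cons_val_one]
      linear_combination -hx
  rw [e, Nat.card_zmod]

/-- The property to be supersingular. -/
def Sup (p : ℕ) (c : Fin 2 → ℤ) : Prop := HasTr 0 p (c 0) (c 1)

theorem sup_zero {p : ℕ} [hp : Fact p.Prime] (h3 : p % 3 = 2) (h5 : 5 ≤ p) {b : ℤ} (hb : ¬ (p : ℤ) ∣ b) :
    HasTr 0 p 0 b := by
  have : NeZero p := ⟨hp.out.ne_zero⟩
  have hpi : Prime (p : ℤ) := Nat.prime_iff_prime_int.1 hp.out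
  refine ⟨?_, ?_⟩
  · intro h
    have e : (2 : ℤ) * (4 * 0 ^ 3 + 27 * b ^ 2) = 54 * b ^ 2 := by ring
    rw [e] at h
    rcases hpi.dvd_or_dvd h with h | h
    · have h1 : p ∣ 54 := by exact_mod_cast h
      have h2 : p ≤ 54 := Nat.le_of_dvd (by norm_num) h1
      have h6 : (54 : ℕ) = 2 * 3 ^ 3 := by norm_num
      rw [h6] at h1
      rcases (hp.out.dvd_mul).1 h1 with h7 | h7
      · have := Nat.le_of_dvd (by norm_num) h7
        omega
      · have := Nat.le_of_dvd (by norm_num) (hp.out.dvd_of_dvd_pow h7)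
        omega
    · exact hb (hpi.dvd_of_dvd_pow h)
  · rw [apts_eq]
    have h := pts_zero h3 (b : ZMod p)
    rw [Int.cast_zero, h]
    ring

open Classical in
theorem dens_sup_lower {p : ℕ} (hp : p.Prime) (h3 : p % 3 = 2) (h5 : 5 ≤ p) :
    1 / (2 * p : ℝ) ≤ dens (Sup p) p := by
  have : Fact p.Prime := ⟨hp⟩
  unfold dens
  have hp0 : (0 : ℝ) < p := by exact_mod_cast hp.pos
  rw [div_le_div_iff₀ (by positivity) (by positivity)]
  have h1 : p - 1 ≤ ((Fintype.piFinset fun _ : Fin 2 => range p).filter fun t => Sup p fun l => (t l : ℤ)).card := by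
    calc p - 1 = ((Finset.Icc 1 (p - 1)).image fun b : ℕ => (![0, b] : Fin 2 → ℕ)).card := by
          rw [Finset.card_image_of_injective]
          · rw [Nat.card_Icc]
            omega
          · intro b b' h
            exact congrFun h 1
      _ ≤ _ := by
          refine Finset.card_le_card ?_
          intro t ht
          rw [Finset.mem_image] at ht
          obtain ⟨b, hb, rfl⟩ := ht
          rw [Finset.mem_Icc] at hb
          rw [Finset.mem_filter, Fintype.mem_piFinset]
          refine ⟨fun l => ?_, ?_⟩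
          · fin_cases l
            · simp only [Fin.zero_eta, Matrix.cons_val_zero, Finset.mem_range]
              exact hp.pos
            · change b ∈ Finset.range p
              rw [Finset.mem_range]
              omega
          · unfold Sup
            simp only [Matrix.cons_val_zero, Matrix.cons_val_one, Nat.cast_zero]
            refine sup_zero h3 h5 ?_
            intro h
            have h7 : p ∣ b := by exact_mod_cast h
            have := Nat.le_of_dvd (by omega) h7
            omega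
  have h2 : ((p - 1 : ℕ) : ℝ) ≤ ((Fintype.piFinset fun _ : Fin 2 => range p).filter fun t =>
      Sup p fun l => (t l : ℤ)).card := by exact_mod_cast h1
  rw [Nat.cast_sub (show 1 ≤ p from hp.pos), Nat.cast_one] at h2
  have h5' : (5 : ℝ) ≤ p := by exact_mod_cast h5
  nlinarith

theorem dens_sup_upper {p : ℕ} (hp : p.Prime) (h64 : 64 ≤ p) : 1 / 8 ≤ 1 - dens (Sup p) p := by
  have hF : Fact p.Prime := ⟨hp⟩
  have hN : NeZero p := ⟨hp.ne_zero⟩
  have h1 := dat0.sq p hp (by omega)
  have h2 : EM p (fun c => trc (fun p (c : Fin 2 → ZMod p) => V0 c) p c ^ 2) ≤ 4 * p * (1 - dens (Sup p) p) := by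
    rw [← pr_ev, pr_eq]
    have e : 4 * (p : ℝ) * (1 - EM p (ind (ev Sup) p)) = EM p (fun x => 4 * p * (1 - ind (ev Sup) p x)) := by
      rw [EM_mul', EM_sub', EM_const']
    rw [e]
    refine EM_mono' p _ _ fun x => ?_
    by_cases hx : ev Sup p x
    · have h3 : ind (ev Sup) p x = 1 := by
        unfold ind
        rw [if_pos hx]
      have h4 : trc (fun p (c : Fin 2 → ZMod p) => V0 c) p x = 0 := by
        have h5 := hx.2
        rw [apts_eq] at h5
        unfold trc
        have e2 : (![(((x 0).val : ℤ) : ZMod p), (((x 1).val : ℤ) : ZMod p)] : Fin 2 → ZMod p) = x := by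
          funext l
          fin_cases l
          · simp
          · simp
        rw [e2] at h5
        have h6 : ((p : ℤ) : ℝ) - ((pts (V0 x) : ℤ) : ℝ) = 0 := by exact_mod_cast h5
        push_cast at h6
        exact h6
      rw [h3, h4]
      simp
    · have h3 : ind (ev Sup) p x = 0 := by
        unfold ind
        rw [if_neg hx]
      rw [h3]
      have h4 := dat0.hasse p hp (by omega) x
      have h5 : trc (fun p (c : Fin 2 → ZMod p) => V0 c) p x ^ 2 ≤ (2 * √p) ^ 2 := by
        rw [← sq_abs]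
        exact pow_le_pow_left₀ (abs_nonneg _) h4 2
      rw [mul_pow, Real.sq_sqrt (Nat.cast_nonneg p)] at h5
      linarith
  have h3 : (8 : ℝ) ≤ √p := by
    refine Real.le_sqrt_of_sq_le ?_
    have : (64 : ℝ) ≤ p := by exact_mod_cast h64
    linarith
  have h4 : √(p : ℝ) * √p = p := Real.mul_self_sqrt (Nat.cast_nonneg p)
  have h5 := (abs_le.1 h1).1
  have h6 : (0 : ℝ) < p := by exact_mod_cast hp.pos
  have h7 : 4 * √(p : ℝ) ≤ p / 2 := by nlinarith
  have h8 : (p : ℝ) / 2 ≤ 4 * p * (1 - dens (Sup p) p) := by linarith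
  by_contra hcon
  push Not at hcon
  nlinarith

end Pool.Agent.U62.RB
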